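import Pool.Agent.KS6_49.L8.H628R2.Forb.Dec

set_option autoImplicit false

namespace Pool.Agent.H628R2.Forb

/-! ### Schedules with idle time, and the optimisation algorithm -/

/-- the forbidden set seen from position `y` -/
def shift (F : List ℕ) (y : ℕ) : List ℕ :=
  (F.filter (fun f => decide (y ≤ f))).map (fun f => f - y)

lemma mem_shift {F : List ℕ} {y s : ℕ} : s ∈ shift F y ↔ y + s ∈ F := by
  simp only [shift, List.mem_map, List.mem_filter, decide_eq_true_eq]
  constructor
  · rintro ⟨f, ⟨h1, h2⟩, rfl⟩
    rwa [Nat.add_sub_cancel' h2]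
  · intro h
    exact ⟨y + s, ⟨h, by omega⟩, by omega⟩

lemma shift_length (F : List ℕ) (y : ℕ) : (shift F y).length ≤ F.length := by
  rw [shift, List.length_map]
  exact List.length_filter_le _ _

lemma Av_shift (F : List ℕ) (y : ℕ) (l : List ℕ) : ∀ s : ℕ,
    Av (shift F y).toFinset s l ↔ Av F.toFinset (y + s) l := by
  induction l with
  | nil => intro s; simp
  | cons x l ih =>
    intro s
    rw [Av_cons, Av_cons, ih, List.mem_toFinset, List.mem_toFinset, mem_shift, Nat.add_assoc]

/-- is there an order of `J` avoiding `F`, started at `y`? -/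
def decAt (F : List ℕ) (y : ℕ) (J : List ℕ) : Bool := dec J (shift F y)

lemma decAt_iff {F J : List ℕ} {y : ℕ} (hJ : ∀ x ∈ J, 0 < x) (hy : y ∉ F) :
    decAt F y J = true ↔ ∃ l : List ℕ, l.Perm J ∧ Av F.toFinset y l := by
  rw [decAt, dec_iff hJ (by rw [mem_shift]; simpa using hy)]
  constructor
  · rintro ⟨l, h1, h2⟩
    exact ⟨l, h1, by simpa using (Av_shift F y l 0).1 h2⟩
  · rintro ⟨l, h1, h2⟩
    exact ⟨l, h1, (Av_shift F y l 0).2 (by simpa using h2)⟩

/-- with idle blocks of small total length everything can be placed -/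
lemma greedy_idle (F : Finset ℕ) : ∀ (J : List ℕ), (∀ x ∈ J, 0 < x) → ∀ y, y ∉ F →
    ∃ l Z : List ℕ, l.Perm (J ++ Z) ∧ (∀ z ∈ Z, 0 < z) ∧ Z.sum ≤ 2 * (up F y).card ∧ Av F y l := by
  intro J
  induction J with
  | nil => intro _ y _; exact ⟨[], [], by simp, by simp, by simp, by simp⟩
  | cons x J ih =>
    intro hJ y hy
    have hx : 0 < x := hJ x (by simp)
    have hex : ∃ d, y + d ∉ F ∧ y + d + x ∉ F := by
      refine ⟨F.sup id + 1, ?_, ?_⟩
      · intro h
        have := Finset.le_sup (f := id) h
        simp only [id] at this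
        omega
      · intro h
        have := Finset.le_sup (f := id) h
        simp only [id] at this
        omega
    obtain ⟨d, ⟨hd1, hd2⟩, hmin⟩ : ∃ d, (y + d ∉ F ∧ y + d + x ∉ F) ∧
        ∀ e < d, ¬ (y + e ∉ F ∧ y + e + x ∉ F) := by
      classical
      exact ⟨Nat.find hex, Nat.find_spec hex, fun e he => Nat.find_min hex he⟩
    obtain ⟨l, Z, h1, h2, h3, h4⟩ := ih (fun z hz => hJ z (by simp [hz])) (y + d + x) hd2
    -- counting
    have hcount : d + 2 * (up F (y + d + x)).card ≤ 2 * (up F y).card := by
      set A := (Finset.range d).filter (fun e => y + e ∈ F) with hA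
      set B := (Finset.range d).filter (fun e => y + e + x ∈ F) with hB
      have hAB : Finset.range d ⊆ A ∪ B := by
        intro e he
        have he' := Finset.mem_range.1 he
        have := hmin e he'
        rw [Finset.mem_union, hA, hB, Finset.mem_filter, Finset.mem_filter]
        by_cases h : y + e ∈ F
        · exact Or.inl ⟨he, h⟩
        · right
          refine ⟨he, ?_⟩
          by_contra hc
          exact this ⟨h, hc⟩
      have hdisj : up F (y + d + x) ⊆ up F y := up_subset (by omega)
      have hA2 : A.card + (up F (y + d + x)).card ≤ (up F y).card := by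
        have hinj : (A.image (fun e => y + e)).card = A.card :=
          Finset.card_image_of_injective _ (fun a b h => by simpa using h)
        rw [← hinj, ← Finset.card_union_of_disjoint]
        · apply Finset.card_le_card
          apply Finset.union_subset _ hdisj
          intro z hz
          rw [Finset.mem_image] at hz
          obtain ⟨e, he, rfl⟩ := hz
          rw [hA, Finset.mem_filter, Finset.mem_range] at he
          rw [mem_up]
          refine ⟨he.2, ?_⟩
          rcases Nat.eq_zero_or_pos e with h0 | h0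
          · subst h0
            exact absurd he.2 (by simpa using hy)
          · omega
        · rw [Finset.disjoint_left]
          intro z hz hz2
          rw [Finset.mem_image] at hz
          obtain ⟨e, he, rfl⟩ := hz
          rw [hA, Finset.mem_filter, Finset.mem_range] at he
          rw [mem_up] at hz2
          omega
      have hB2 : B.card + (up F (y + d + x)).card ≤ (up F y).card := by
        have hinj : (B.image (fun e => y + e + x)).card = B.card :=
          Finset.card_image_of_injective _ (fun a b h => by simpa using h)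
        rw [← hinj, ← Finset.card_union_of_disjoint]
        · apply Finset.card_le_card
          apply Finset.union_subset _ hdisj
          intro z hz
          rw [Finset.mem_image] at hz
          obtain ⟨e, he, rfl⟩ := hz
          rw [hB, Finset.mem_filter, Finset.mem_range] at he
          rw [mem_up]
          exact ⟨he.2, by omega⟩
        · rw [Finset.disjoint_left]
          intro z hz hz2
          rw [Finset.mem_image] at hz
          obtain ⟨e, he, rfl⟩ := hz
          rw [hB, Finset.mem_filter, Finset.mem_range] at he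
          rw [mem_up] at hz2
          omega
      have hd : d ≤ A.card + B.card := by
        have := (Finset.card_le_card hAB).trans (Finset.card_union_le A B)
        rwa [Finset.card_range] at this
      omega
    rcases Nat.eq_zero_or_pos d with h0 | h0
    · subst h0
      rw [Nat.add_zero] at hd2 h3 h4 hcount
      refine ⟨x :: l, Z, ?_, h2, by omega, hd2, h4⟩
      rw [List.cons_append]
      exact h1.cons x
    · refine ⟨d :: x :: l, d :: Z, ?_, ?_, ?_, hd1, hd2, h4⟩
      · rw [List.cons_append]
        refine List.Perm.trans ?_ (List.perm_middle.symm.cons x)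
        exact (List.Perm.swap x d l).trans ((h1.cons d).cons x)
      · intro z hz
        rcases List.mem_cons.1 hz with rfl | hz
        · exact h0
        · exact h2 z hz
      · rw [List.sum_cons]
        omega

/-- the first admissible point of time -/
def fst0 (F : List ℕ) : ℕ :=
  ((List.range (F.length + 1)).filter (fun s => !decide (s ∈ F))).head?.getD 0

lemma head_filter_range (P : ℕ → Bool) (n : ℕ) (h : ∃ s < n, P s = true) :
    P (((List.range n).filter P).head?.getD 0) = true ∧
      ∀ s, s < ((List.range n).filter P).head?.getD 0 → P s = false := by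
  induction n with
  | zero => obtain ⟨s, h1, -⟩ := h; omega
  | succ n ih =>
    rw [List.range_succ, List.filter_append]
    by_cases h2 : ∃ s < n, P s = true
    · have h3 := ih h2
      obtain ⟨s, hs1, hs2⟩ := h2
      have hne : (List.range n).filter P ≠ [] := by
        intro h4
        rw [List.filter_eq_nil_iff] at h4
        exact h4 s (List.mem_range.2 hs1) hs2
      rw [List.head?_append_of_ne_nil _ hne]
      exact h3
    · have hnil : (List.range n).filter P = [] := by
        rw [List.filter_eq_nil_iff]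
        intro s hs hP
        exact h2 ⟨s, List.mem_range.1 hs, hP⟩
      obtain ⟨s, hs1, hs2⟩ := h
      have hsn : s = n := by
        by_contra hc
        exact h2 ⟨s, by omega, hs2⟩
      subst hsn
      rw [hnil, List.nil_append, List.filter_cons_of_pos hs2]
      simp only [List.filter_nil, List.head?_cons, Option.getD_some]
      refine ⟨hs2, ?_⟩
      intro s' hs'
      by_contra hc
      exact h2 ⟨s', hs', by simpa using hc⟩

lemma fst0_spec (F : List ℕ) : fst0 F ∉ F ∧ ∀ s, s ∉ F → fst0 F ≤ s := by
  have hex : ∃ s < F.length + 1, (!decide (s ∈ F)) = true := by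
    by_contra hc
    push Not at hc
    have hsub : Finset.range (F.length + 1) ⊆ F.toFinset := by
      intro s hs
      have := hc s (Finset.mem_range.1 hs)
      simpa using this
    have := (Finset.card_le_card hsub).trans (toFinset_card_le F)
    rw [Finset.card_range] at this
    omega
  obtain ⟨h1, h2⟩ := head_filter_range (fun s => !decide (s ∈ F)) (F.length + 1) hex
  refine ⟨by simpa [fst0] using h1, ?_⟩
  intro s hs
  by_contra hc
  push Not at hc
  have := h2 s hc
  simp at this
  exact hs this

/-- `[1, ..., n]` -/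
def rng1 (n : ℕ) : List ℕ := (List.range n).map (fun i => i + 1)

lemma mem_rng1 {n x : ℕ} : x ∈ rng1 n ↔ 0 < x ∧ x ≤ n := by
  simp only [rng1, List.mem_map, List.mem_range]
  constructor
  · rintro ⟨i, hi, rfl⟩; omega
  · intro h; exact ⟨x - 1, by omega, by omega⟩

/-- candidate lists of idle blocks -/
def cands (p F : List ℕ) : List (List ℕ) :=
  (enum (rng1 (2 * F.length)) (2 * F.length)).filter (fun Z => decAt F (fst0 F) (p ++ Z))

/-- an optimal list of idle blocks -/
def goodZ (p F : List ℕ) : List ℕ :=
  (((cands p F).filter (fun Z => (cands p F).all (fun Z' => decide (Z.sum ≤ Z'.sum)))).head?).getD []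

lemma length_le_sum (Z : List ℕ) : (∀ z ∈ Z, 0 < z) → Z.length ≤ Z.sum := by
  induction Z with
  | nil => intro _; simp
  | cons x Z ih =>
    intro h
    have h1 := ih (fun z hz => h z (by simp [hz]))
    have h2 := h x (by simp)
    rw [List.length_cons, List.sum_cons]
    omega

lemma mem_enum_rng1 {Z : List ℕ} {n : ℕ} (hpos : ∀ z ∈ Z, 0 < z) (hs : Z.sum ≤ n) :
    Z ∈ enum (rng1 n) n := by
  rw [mem_enum]
  refine ⟨(length_le_sum Z hpos).trans hs, ?_⟩
  intro x hx
  rw [mem_rng1]
  exact ⟨hpos x hx, (List.single_le_sum (by simp) x hx).trans hs⟩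

lemma goodZ_spec {p F : List ℕ} (hp : ∀ x ∈ p, 0 < x) :
    (∀ z ∈ goodZ p F, 0 < z) ∧
    (∃ l : List ℕ, l.Perm (p ++ goodZ p F) ∧ Av F.toFinset (fst0 F) l) ∧
    ∀ Z l : List ℕ, (∀ z ∈ Z, 0 < z) → l.Perm (p ++ Z) → Av F.toFinset (fst0 F) l →
      (goodZ p F).sum ≤ Z.sum := by
  obtain ⟨hs0, -⟩ := fst0_spec F
  have hposAll : ∀ Z : List ℕ, (∀ z ∈ Z, 0 < z) → ∀ x ∈ p ++ Z, 0 < x := by
    intro Z hZ x hx
    rcases List.mem_append.1 hx with h | h
    · exact hp x h
    · exact hZ x h
  have hcand : ∀ Z l : List ℕ, (∀ z ∈ Z, 0 < z) → Z.sum ≤ 2 * F.length → l.Perm (p ++ Z) →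
      Av F.toFinset (fst0 F) l → Z ∈ cands p F := by
    intro Z l hZ hZs h1 h2
    rw [cands, List.mem_filter]
    exact ⟨mem_enum_rng1 hZ hZs, (decAt_iff (hposAll Z hZ) hs0).2 ⟨l, h1, h2⟩⟩
  obtain ⟨l0, Z0, h1, h2, h3, h4⟩ := greedy_idle F.toFinset p hp (fst0 F) (by simpa using hs0)
  have hZ0 : Z0.sum ≤ 2 * F.length := by
    have e1 : (up F.toFinset (fst0 F)).card ≤ F.length :=
      (Finset.card_filter_le _ _).trans (toFinset_card_le F)
    omega
  have hZ0c := hcand Z0 l0 h2 hZ0 h1 h4
  -- minimal candidate
  obtain ⟨Zm, hZm, hmin⟩ : ∃ Zm ∈ cands p F, ∀ Z ∈ cands p F, Zm.sum ≤ Z.sum := by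
    have hne : (cands p F).toFinset.Nonempty := ⟨Z0, by simpa using hZ0c⟩
    obtain ⟨Zm, h5, h6⟩ := Finset.exists_min_image (cands p F).toFinset List.sum hne
    exact ⟨Zm, by simpa using h5, fun Z hZ => h6 Z (by simpa using hZ)⟩
  set Q := (cands p F).filter (fun Z => (cands p F).all (fun Z' => decide (Z.sum ≤ Z'.sum)))
    with hQ
  have hQne : Q ≠ [] := by
    intro h
    rw [hQ, List.filter_eq_nil_iff] at h
    apply h Zm hZm
    rw [List.all_eq_true]
    intro Z hZ
    simpa using hmin Z hZ
  have hg : goodZ p F ∈ Q := by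
    rw [goodZ, ← hQ, List.head?_eq_some_head hQne, Option.getD_some]
    exact List.head_mem hQne
  rw [hQ, List.mem_filter, List.all_eq_true] at hg
  obtain ⟨hg1, hg2⟩ := hg
  have hg3 := hg1
  rw [cands, List.mem_filter, mem_enum] at hg3
  have hgpos : ∀ z ∈ goodZ p F, 0 < z := fun z hz => (mem_rng1.1 (hg3.1.2 z hz)).1
  refine ⟨hgpos, (decAt_iff (hposAll _ hgpos) hs0).1 hg3.2, ?_⟩
  intro Z l hZ hl hA
  by_cases hZs : Z.sum ≤ 2 * F.length
  · simpa using hg2 Z (hcand Z l hZ hZs hl hA)
  · have := hg2 Z0 hZ0c
    rw [decide_eq_true_eq] at this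
    omega

/-! #### Search to decision -/

/-- choose the next item -/
def pick (F : List ℕ) (W : List (ℕ × ℕ)) (y : ℕ) : Option (ℕ × ℕ) :=
  (W.filter (fun w => !decide (y + w.1 ∈ F) &&
    decAt F (y + w.1) ((W.filter (fun v => !decide (v = w))).map (fun v => v.1)))).head?

/-- process the next item -/
def tick (F : List ℕ) (s : List (ℕ × ℕ) × ℕ × List ((ℕ × ℕ) × ℕ)) :
    List (ℕ × ℕ) × ℕ × List ((ℕ × ℕ) × ℕ) :=
  match pick F s.1 s.2.1 with
  | none => s
  | some w => (s.1.filter (fun v => !decide (v = w)), s.2.1 + w.1, (w, s.2.1) :: s.2.2)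

/-- the start times when processing the items in the given order from `y` -/
def entries : ℕ → List (ℕ × ℕ) → List ((ℕ × ℕ) × ℕ)
  | _, [] => []
  | y, w :: o => (w, y) :: entries (y + w.1) o

lemma perm_cons_filter {W : List (ℕ × ℕ)} (hW : W.Nodup) {w : ℕ × ℕ} (hw : w ∈ W) :
    (w :: W.filter (fun v => !decide (v = w))).Perm W := by
  have e : W.filter (fun v => !decide (v = w)) = W.erase w := by
    rw [hW.erase_eq_filter]
    apply List.filter_congr
    intro v _
    by_cases h : v = w
    · subst h; simp
    · simp [h]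
  rw [e]
  exact (List.perm_cons_erase hw).symm

lemma tick_iter (F : List ℕ) : ∀ (n : ℕ) (W : List (ℕ × ℕ)) (y : ℕ) (acc : List ((ℕ × ℕ) × ℕ)),
    W.length = n → W.Nodup → (∀ w ∈ W, 0 < w.1) → y ∉ F →
    (∃ l : List ℕ, l.Perm (W.map (fun v => v.1)) ∧ Av F.toFinset y l) →
    ∃ o : List (ℕ × ℕ), o.Perm W ∧ Av F.toFinset y (o.map (fun v => v.1)) ∧
      (tick F)^[n] (W, y, acc) = ([], y + (W.map (fun v => v.1)).sum, (entries y o).reverse ++ acc) := by
  intro n
  induction n with
  | zero =>
    intro W y acc hn _ _ _ _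
    have : W = [] := List.length_eq_zero_iff.1 hn
    subst this
    exact ⟨[], List.Perm.refl _, by simp, by simp [entries]⟩
  | succ n ih =>
    intro W y acc hn hnd hpos hy ⟨l, hl1, hl2⟩
    -- the filter list is nonempty
    set Q := W.filter (fun w => !decide (y + w.1 ∈ F) &&
      decAt F (y + w.1) ((W.filter (fun v => !decide (v = w))).map (fun v => v.1))) with hQ
    have hQne : Q ≠ [] := by
      cases l with
      | nil =>
        have := hl1.length_eq
        rw [List.length_map, hn] at this
        simp at this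
      | cons x l =>
        rw [Av_cons] at hl2
        have hx : x ∈ W.map (fun v => v.1) := hl1.subset (by simp)
        rw [List.mem_map] at hx
        obtain ⟨w, hw, rfl⟩ := hx
        intro h
        rw [hQ, List.filter_eq_nil_iff] at h
        apply h w hw
        have hperm := perm_cons_filter hnd hw
        have hyw : y + w.1 ∉ F := by simpa using hl2.1
        rw [Bool.and_eq_true]
        refine ⟨by simpa using hyw, ?_⟩
        rw [decAt_iff _ hyw]
        · refine ⟨l, ?_, hl2.2⟩
          have h1 := hl1.trans (hperm.map (fun v => v.1)).symm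
          rw [List.map_cons] at h1
          exact h1.cons_inv
        · intro x hx
          rw [List.mem_map] at hx
          obtain ⟨v, hv, rfl⟩ := hx
          exact hpos v (List.mem_of_mem_filter hv)
    have hpick : pick F W y = some (Q.head hQne) := by
      rw [pick, ← hQ, List.head?_eq_some_head hQne]
    set w := Q.head hQne with hw
    have hwQ : w ∈ Q := List.head_mem hQne
    rw [hQ, List.mem_filter, Bool.and_eq_true] at hwQ
    obtain ⟨hwW, hw1, hw2⟩ := hwQ
    have hyw : y + w.1 ∉ F := by simpa using hw1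
    have hperm := perm_cons_filter hnd hwW
    set W' := W.filter (fun v => !decide (v = w)) with hW'
    have hpos' : ∀ v ∈ W', 0 < v.1 := fun v hv => hpos v (List.mem_of_mem_filter hv)
    rw [decAt_iff (by
      intro x hx
      rw [List.mem_map] at hx
      obtain ⟨v, hv, rfl⟩ := hx
      exact hpos' v hv) hyw] at hw2
    have hlen : W'.length = n := by
      have := hperm.length_eq
      rw [List.length_cons, hn] at this
      omega
    obtain ⟨o, ho1, ho2, ho3⟩ := ih W' (y + w.1) ((w, y) :: acc) hlen (hnd.filter _) hpos' hyw hw2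
    refine ⟨w :: o, (ho1.cons w).trans hperm, ?_, ?_⟩
    · rw [List.map_cons, Av_cons]
      exact ⟨by simpa using hyw, ho2⟩
    · rw [Function.iterate_succ_apply]
      have ht : tick F (W, y, acc) = (W', y + w.1, (w, y) :: acc) := by
        rw [tick]
        simp only
        rw [hpick]
      rw [ht, ho3]
      have hs : (W.map (fun v => v.1)).sum = w.1 + (W'.map (fun v => v.1)).sum := by
        have := (hperm.map (fun v => v.1)).sum_eq
        rw [List.map_cons, List.sum_cons] at this
        exact this.symm
      rw [hs, entries, List.reverse_cons, Nat.add_assoc]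
      simp

/-- separation of entries -/
def Sep (a b : (ℕ × ℕ) × ℕ) : Prop := a.2 + a.1.1 ≤ b.2 ∨ b.2 + b.1.1 ≤ a.2

lemma entries_map (o : List (ℕ × ℕ)) : ∀ y, (entries y o).map (fun e => e.1) = o := by
  induction o with
  | nil => intro y; rfl
  | cons w o ih => intro y; simp [entries, ih]

lemma entries_spec (F : Finset ℕ) (o : List (ℕ × ℕ)) : ∀ y, y ∉ F →
    Av F y (o.map (fun v => v.1)) →
    (∀ e ∈ entries y o, e.2 ∉ F ∧ e.2 + e.1.1 ∉ F ∧ y ≤ e.2 ∧
      e.2 + e.1.1 ≤ y + (o.map (fun v => v.1)).sum) ∧ (entries y o).Pairwise Sep := by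
  induction o with
  | nil => intro y _ _; simp [entries]
  | cons w o ih =>
    intro y hy hA
    rw [List.map_cons, Av_cons] at hA
    obtain ⟨h1, h2⟩ := ih (y + w.1) hA.1 hA.2
    constructor
    · intro e he
      rw [entries, List.mem_cons] at he
      rw [List.map_cons, List.sum_cons]
      rcases he with rfl | he
      · exact ⟨hy, hA.1, le_rfl, by simp⟩
      · obtain ⟨g1, g2, g3, g4⟩ := h1 e he
        exact ⟨g1, g2, by omega, by omega⟩
    · rw [entries, List.pairwise_cons]
      refine ⟨?_, h2⟩
      intro e he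
      exact Or.inl (h1 e he).2.2.1

/-- look up the start time of a job -/
def lookup (acc : List ((ℕ × ℕ) × ℕ)) (j : ℕ) : ℕ :=
  (((acc.filter (fun e => decide (e.1.2 = j))).map (fun e => e.2)).head?).getD 0

/-- the final accumulator -/
def runW (p F : List ℕ) : List ((ℕ × ℕ) × ℕ) :=
  ((p ++ goodZ p F).zipIdx.foldl (fun s _ => tick F s)
    ((p ++ goodZ p F).zipIdx, fst0 F, ([] : List ((ℕ × ℕ) × ℕ)))).2.2

/-- the start times computed by the algorithm -/
def sched (p F : List ℕ) : List ℕ := (List.range p.length).map (lookup (runW p F))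

lemma foldl_tick (F : List ℕ) (s : List (ℕ × ℕ) × ℕ × List ((ℕ × ℕ) × ℕ)) (l : List (ℕ × ℕ)) :
    l.foldl (fun s _ => tick F s) s = (tick F)^[l.length] s := by
  induction l generalizing s with
  | nil => rfl
  | cons x l ih => rw [List.foldl_cons, ih, List.length_cons, Function.iterate_succ_apply]

lemma zipIdx_nodup (l : List ℕ) : l.zipIdx.Nodup := by
  have h : (l.zipIdx.map (fun v => v.2)).Nodup := by
    have e : l.zipIdx.map (fun v => v.2) = List.range' 0 l.length := by
      exact List.zipIdx_map_snd 0 l
    rw [e]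
    exact List.nodup_range'
  exact List.Nodup.of_map _ h

lemma runW_spec {p F : List ℕ} (hp : ∀ x ∈ p, 0 < x) :
    (∀ j (hj : j < p.length), ∃ s, (((p[j], j), s) : (ℕ × ℕ) × ℕ) ∈ runW p F ∧ lookup (runW p F) j = s) ∧
    (∀ e ∈ runW p F, e.2 ∉ F ∧ e.2 + e.1.1 ∉ F ∧
      e.2 + e.1.1 ≤ fst0 F + (p.sum + (goodZ p F).sum)) ∧
    (runW p F).Pairwise Sep := by
  obtain ⟨hgpos, hgex, -⟩ := goodZ_spec (F := F) hp
  obtain ⟨hs0, -⟩ := fst0_spec F
  set W := (p ++ goodZ p F).zipIdx with hW
  have hmapW : W.map (fun v => v.1) = p ++ goodZ p F := by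
    rw [hW]
    exact List.zipIdx_map_fst 0 _
  have hposW : ∀ w ∈ W, 0 < w.1 := by
    intro w hw
    have : w.1 ∈ W.map (fun v => v.1) := List.mem_map_of_mem hw
    rw [hmapW, List.mem_append] at this
    rcases this with h | h
    · exact hp _ h
    · exact hgpos _ h
  obtain ⟨o, ho1, ho2, ho3⟩ := tick_iter F W.length W (fst0 F) [] rfl (zipIdx_nodup _) hposW hs0
    (by rw [hmapW]; exact hgex)
  have hrun : runW p F = (entries (fst0 F) o).reverse := by
    rw [runW, ← hW, foldl_tick, ho3]
    simp
  obtain ⟨h1, h2⟩ := entries_spec F.toFinset o (fst0 F) (by simpa using hs0) ho2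
  have hsum : (o.map (fun v => v.1)).sum = p.sum + (goodZ p F).sum := by
    rw [(ho1.map (fun v => v.1)).sum_eq, hmapW, List.sum_append]
  rw [hsum] at h1
  refine ⟨?_, ?_, ?_⟩
  · intro j hj
    have hjW : ((p[j], j) : ℕ × ℕ) ∈ W := by
      rw [hW, List.mem_zipIdx_iff_getElem?]
      simp only [List.getElem?_append_left hj, List.getElem?_eq_getElem hj]
    have hjo : ((p[j], j) : ℕ × ℕ) ∈ o := ho1.symm.subset hjW
    rw [← entries_map o (fst0 F), List.mem_map] at hjo
    obtain ⟨e, he1, he2⟩ := hjo
    have heR : e ∈ runW p F := by rw [hrun]; simpa using he1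
    set Q := ((runW p F).filter (fun e => decide (e.1.2 = j))) with hQ
    have heQ : e ∈ Q := by
      rw [hQ, List.mem_filter]
      exact ⟨heR, by rw [he2]; simp⟩
    have hQne : Q ≠ [] := List.ne_nil_of_mem heQ
    have hhead : Q.head hQne ∈ Q := List.head_mem hQne
    set e' := Q.head hQne with he'
    have hl : lookup (runW p F) j = e'.2 := by
      rw [lookup, ← hQ, List.head?_map, List.head?_eq_some_head hQne]
      simp [he']
    rw [hQ, List.mem_filter, decide_eq_true_eq] at hhead
    obtain ⟨g1, g2⟩ := hhead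
    have g3 : e'.1 ∈ o := by
      rw [← entries_map o (fst0 F), List.mem_map]
      exact ⟨e', by rw [hrun] at g1; simpa using g1, rfl⟩
    have g4 : e'.1 ∈ W := ho1.subset g3
    have g5 : e'.1 = (p[j], j) := by
      rw [hW, List.mem_zipIdx_iff_getElem?, g2] at g4
      rw [List.getElem?_append_left hj, List.getElem?_eq_getElem hj] at g4
      have := Option.some.inj g4
      rw [Prod.ext_iff]
      exact ⟨this.symm, g2⟩
    refine ⟨e'.2, ?_, hl⟩
    rw [← g5]
    exact g1
  · intro e he
    rw [hrun, List.mem_reverse] at he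
    obtain ⟨g1, g2, -, g4⟩ := h1 e he
    exact ⟨by simpa using g1, by simpa using g2, g4⟩
  · rw [hrun, List.pairwise_reverse]
    exact h2.imp (fun h => h.symm)

end Pool.Agent.H628R2.Forb
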