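import Mathlib

set_option autoImplicit false

namespace Pool.Agent.H628R2.Forb

/-- All positions visited after the start, when jumping from `y` by the entries of the list,
avoid `F`. -/
def Av (F : Finset ℕ) : ℕ → List ℕ → Prop
  | _, [] => True
  | y, x :: l => y + x ∉ F ∧ Av F (y + x) l

@[simp] lemma Av_nil (F : Finset ℕ) (y : ℕ) : Av F y [] := trivial

@[simp] lemma Av_cons (F : Finset ℕ) (y x : ℕ) (l : List ℕ) :
    Av F y (x :: l) ↔ y + x ∉ F ∧ Av F (y + x) l := Iff.rfl

lemma Av_append (F : Finset ℕ) (l l' : List ℕ) : ∀ y : ℕ,
    Av F y (l ++ l') ↔ Av F y l ∧ Av F (y + l.sum) l' := by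
  induction l with
  | nil => intro y; simp
  | cons x l ih =>
    intro y
    simp only [List.cons_append, Av_cons, List.sum_cons, ih, and_assoc, Nat.add_assoc]

lemma Av_iff (F : Finset ℕ) (l : List ℕ) : ∀ y : ℕ,
    Av F y l ↔ ∀ u v : List ℕ, l = u ++ v → u ≠ [] → y + u.sum ∉ F := by
  intro y
  constructor
  · intro h u v huv hu
    rw [huv, Av_append] at h
    obtain ⟨h1, -⟩ := h
    rw [← List.dropLast_append_getLast hu, Av_append] at h1
    have := h1.2
    simp only [Av_cons, Av_nil, and_true] at this
    have e : u.sum = u.dropLast.sum + u.getLast hu := by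
      conv_lhs => rw [← List.dropLast_append_getLast hu]
      simp
    rw [e, ← Nat.add_assoc]
    exact this
  · induction l generalizing y with
    | nil => intro _; trivial
    | cons x l ih =>
      intro h
      refine ⟨?_, ?_⟩
      · have := h [x] l rfl (by simp)
        simpa using this
      · apply ih
        intro u v huv hu
        have := h (x :: u) v (by simp [huv]) (by simp)
        simpa [Nat.add_assoc] using this

/-- If no forbidden point lies in `(y, y + l.sum]` then the list avoids `F`. -/
lemma Av_of_free (F : Finset ℕ) (l : List ℕ) (hpos : ∀ x ∈ l, 0 < x) : ∀ y : ℕ,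
    (∀ z, y < z → z ≤ y + l.sum → z ∉ F) → Av F y l := by
  induction l with
  | nil => intro y _; trivial
  | cons x l ih =>
    intro y h
    have hx : 0 < x := hpos x (by simp)
    refine ⟨h _ (by omega) (by simp), ?_⟩
    apply ih (fun z hz => hpos z (by simp [hz]))
    intro z hz1 hz2
    apply h z (by omega)
    simp only [List.sum_cons]
    omega

lemma Av_mono {F F' : Finset ℕ} (l : List ℕ) (hpos : ∀ x ∈ l, 0 < x) : ∀ y : ℕ,
    (∀ z, y < z → z ∈ F' → z ∈ F) → Av F y l → Av F' y l := by
  induction l with
  | nil => intro y _ _; trivial
  | cons x l ih =>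
    intro y h hA
    have hx : 0 < x := hpos x (by simp)
    refine ⟨fun hh => hA.1 (h _ (by omega) hh), ?_⟩
    apply ih (fun z hz => hpos z (by simp [hz])) (y + x) (fun z hz => h z (by omega)) hA.2

/-- The part of `F` above `y`. -/
def up (F : Finset ℕ) (y : ℕ) : Finset ℕ := F.filter (fun f => y < f)

lemma mem_up {F : Finset ℕ} {y z : ℕ} : z ∈ up F y ↔ z ∈ F ∧ y < z := by
  simp [up]

lemma up_subset {F : Finset ℕ} {y z : ℕ} (h : y ≤ z) : up F z ⊆ up F y := by
  intro f hf
  rw [mem_up] at hf ⊢
  exact ⟨hf.1, by omega⟩

/-- The grasshopper theorem (IMO 2009/6). -/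
theorem grasshopper (n : ℕ) : ∀ (A : Finset ℕ), A.card = n → (∀ x ∈ A, 0 < x) →
    ∀ (F : Finset ℕ) (y : ℕ), (up F y).card < n → y + ∑ x ∈ A, x ∉ F →
    ∃ l : List ℕ, (l : Multiset ℕ) = A.val ∧ Av F y l := by
  induction n using Nat.strong_induction_on with
  | _ n ih =>
  intro A hA hpos F y hF hP
  have hAne : A.Nonempty := by
    rw [← Finset.card_pos]; omega
  obtain ⟨q, hqA, hqmax⟩ : ∃ q ∈ A, ∀ x ∈ A, x ≤ q :=
    ⟨A.max' hAne, A.max'_mem hAne, fun x hx => A.le_max' x hx⟩
  have hq : 0 < q := hpos q hqA
  by_cases hemp : up F y = ∅
  · -- no forbidden point above y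
    refine ⟨A.toList, by simp, ?_⟩
    apply Av_of_free _ _ (by simpa using hpos)
    intro z hz _ hzF
    have : z ∈ up F y := mem_up.2 ⟨hzF, hz⟩
    rw [hemp] at this
    simp at this
  -- facts about erasing q
  have hcard1 : (A.erase q).card = n - 1 := by rw [Finset.card_erase_of_mem hqA, hA]
  have hsum1 : ∑ x ∈ A, x = q + ∑ x ∈ A.erase q, x :=
    (Finset.add_sum_erase A (fun x => x) hqA).symm
  have hval1 : A.val = q ::ₘ (A.erase q).val := by
    have := Finset.insert_val_of_notMem (Finset.notMem_erase q A)
    rw [Finset.insert_erase hqA] at this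
    exact this
  by_cases hlow : ∃ f ∈ up F y, f < y + q
  · obtain ⟨f, hf, hfq⟩ := hlow
    by_cases hyq : y + q ∈ F
    · -- case (b)
      have hyq' : y + q ∈ up F y := mem_up.2 ⟨hyq, by omega⟩
      have hex : ∃ d ∈ A.erase q, y + d ∉ F ∧ y + d + q ∉ F := by
        by_contra hcon
        push Not at hcon
        have hinj : (A.erase q).card ≤ ((up F y).erase (y + q)).card := by
          apply Finset.card_le_card_of_injOn (fun d => if y + d ∈ F then y + d else y + d + q)
          · intro d hd
            have hd' : d ∈ A.erase q := hd
            have hdA := Finset.mem_of_mem_erase hd'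
            have hdq : d ≠ q := Finset.ne_of_mem_erase hd'
            have hd0 := hpos d hdA
            simp only [Finset.coe_erase, Set.mem_sdiff, Finset.mem_coe, Set.mem_singleton_iff]
            split_ifs with h
            · exact ⟨mem_up.2 ⟨h, by omega⟩, by omega⟩
            · exact ⟨mem_up.2 ⟨hcon d hd' h, by omega⟩, by omega⟩
          · intro d hd d' hd' h
            have hd1 : d ∈ A.erase q := hd
            have hd1' : d' ∈ A.erase q := hd'
            have := hqmax d (Finset.mem_of_mem_erase hd1)
            have := hqmax d' (Finset.mem_of_mem_erase hd1')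
            have := Finset.ne_of_mem_erase hd1
            have := Finset.ne_of_mem_erase hd1'
            have := hpos d (Finset.mem_of_mem_erase hd1)
            have := hpos d' (Finset.mem_of_mem_erase hd1')
            simp only at h
            split_ifs at h <;> omega
        rw [Finset.card_erase_of_mem hyq', hcard1] at hinj
        have : 0 < (up F y).card := Finset.card_pos.2 ⟨_, hyq'⟩
        omega
      obtain ⟨d, hd, hd1, hd2⟩ := hex
      have hdA := Finset.mem_of_mem_erase hd
      have hd0 := hpos d hdA
      have hdq : d ≠ q := Finset.ne_of_mem_erase hd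
      have hcard2 : ((A.erase q).erase d).card = n - 2 := by
        rw [Finset.card_erase_of_mem hd, hcard1]; omega
      have hsum2 : ∑ x ∈ A.erase q, x = d + ∑ x ∈ (A.erase q).erase d, x :=
        (Finset.add_sum_erase (A.erase q) (fun x => x) hd).symm
      have hval2 : (A.erase q).val = d ::ₘ ((A.erase q).erase d).val := by
        have := Finset.insert_val_of_notMem (Finset.notMem_erase d (A.erase q))
        rw [Finset.insert_erase hd] at this
        exact this
      have hup : (up F (y + d + q)).card + 2 ≤ (up F y).card := by
        have hsub : up F (y + d + q) ⊆ ((up F y).erase (y + q)).erase f := by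
          intro z hz
          rw [mem_up] at hz
          rw [Finset.mem_erase, Finset.mem_erase, mem_up]
          refine ⟨by omega, by omega, hz.1, by omega⟩
        have h1 := Finset.card_le_card hsub
        rw [Finset.card_erase_of_mem (by rw [Finset.mem_erase]; exact ⟨by omega, hf⟩),
          Finset.card_erase_of_mem hyq'] at h1
        have h2 : 1 < (up F y).card := by
          rw [Finset.one_lt_card]
          exact ⟨_, hf, _, hyq', by omega⟩
        omega
      have hn2 : 2 ≤ n := by
        have h2 : 1 < A.card := by
          rw [Finset.one_lt_card]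
          exact ⟨_, hdA, _, hqA, hdq⟩
        omega
      obtain ⟨l, hl, hAv⟩ := ih (n - 2) (by omega) ((A.erase q).erase d) hcard2
        (fun x hx => hpos x (Finset.mem_of_mem_erase (Finset.mem_of_mem_erase hx))) F (y + d + q)
        (by omega) (by
          have : y + d + q + ∑ x ∈ (A.erase q).erase d, x = y + ∑ x ∈ A, x := by
            rw [hsum1, hsum2]; ring
          rw [this]; exact hP)
      refine ⟨d :: q :: l, ?_, hd1, hd2, hAv⟩
      rw [hval1, hval2, ← hl, Multiset.cons_swap]
      rfl
    · -- case (a)
      have hup : (up F (y + q)).card + 1 ≤ (up F y).card := by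
        have hsub : up F (y + q) ⊆ (up F y).erase f := by
          intro z hz
          rw [mem_up] at hz
          rw [Finset.mem_erase, mem_up]
          refine ⟨by omega, hz.1, by omega⟩
        have h1 := Finset.card_le_card hsub
        rw [Finset.card_erase_of_mem hf] at h1
        have : 0 < (up F y).card := Finset.card_pos.2 ⟨_, hf⟩
        omega
      obtain ⟨l, hl, hAv⟩ := ih (n - 1) (by omega) (A.erase q) hcard1
        (fun x hx => hpos x (Finset.mem_of_mem_erase hx)) F (y + q)
        (by omega) (by
          have : y + q + ∑ x ∈ A.erase q, x = y + ∑ x ∈ A, x := by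
            rw [hsum1]; ring
          rw [this]; exact hP)
      refine ⟨q :: l, ?_, hyq, hAv⟩
      rw [hval1, ← hl]
      rfl
  · -- case (d)
    push Not at hlow
    have hne : (up F y).Nonempty := Finset.nonempty_iff_ne_empty.2 hemp
    obtain ⟨m, hm, hmmin⟩ : ∃ m ∈ up F y, ∀ x ∈ up F y, m ≤ x :=
      ⟨_, Finset.min'_mem _ hne, fun x hx => Finset.min'_le _ x hx⟩
    have hmF := (mem_up.1 hm).1
    have hmy := (mem_up.1 hm).2
    have hmq : y + q ≤ m := hlow m hm
    have hup : (up (F.erase m) (y + q)).card + 1 ≤ (up F y).card := by
      have hsub : up (F.erase m) (y + q) ⊆ (up F y).erase m := by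
        intro z hz
        rw [mem_up, Finset.mem_erase] at hz
        rw [Finset.mem_erase, mem_up]
        refine ⟨hz.1.1, hz.1.2, by omega⟩
      have h1 := Finset.card_le_card hsub
      rw [Finset.card_erase_of_mem hm] at h1
      have : 0 < (up F y).card := Finset.card_pos.2 ⟨_, hm⟩
      omega
    obtain ⟨l, hl, hAv⟩ := ih (n - 1) (by omega) (A.erase q) hcard1
        (fun x hx => hpos x (Finset.mem_of_mem_erase hx)) (F.erase m) (y + q)
        (by omega) (by
          have : y + q + ∑ x ∈ A.erase q, x = y + ∑ x ∈ A, x := by
            rw [hsum1]; ring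
          rw [this, Finset.mem_erase]
          exact fun h => hP h.2)
    have hlpos : ∀ x ∈ l, 0 < x := by
      intro x hx
      apply hpos x
      have : x ∈ (A.erase q).val := by rw [← hl]; exact hx
      exact Finset.mem_of_mem_erase this
    have hlsum : l.sum = ∑ x ∈ A.erase q, x := by
      have : (l : Multiset ℕ).sum = (A.erase q).val.sum := by rw [hl]
      simpa [Finset.sum, Finset.sum_val] using this
    have hAv' : Av (F.erase m) y (q :: l) := by
      refine ⟨?_, hAv⟩
      rw [Finset.mem_erase]
      rintro ⟨h1, h2⟩
      have := hmmin (y + q) (mem_up.2 ⟨h2, by omega⟩)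
      omega
    by_cases hhit : ∃ u v : List ℕ, l = u ++ v ∧ y + q + u.sum = m
    · obtain ⟨u, v, huv, hum⟩ := hhit
      cases v with
      | nil =>
        exfalso
        apply hP
        rw [hsum1, ← hlsum, huv, List.append_nil]
        have : y + (q + u.sum) = m := by omega
        rw [this]; exact hmF
      | cons b w =>
        have hb : b ∈ l := by rw [huv]; simp
        have hbA : b ∈ A.erase q := by
          have : b ∈ (A.erase q).val := by rw [← hl]; exact hb
          exact this
        have hb0 := hlpos b hb
        have hbq : b < q :=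
          lt_of_le_of_ne (hqmax b (Finset.mem_of_mem_erase hbA)) (Finset.ne_of_mem_erase hbA)
        have hupos : ∀ x ∈ u, 0 < x := fun x hx => hlpos x (by rw [huv]; simp [hx])
        have hwpos : ∀ x ∈ w, 0 < x := fun x hx => hlpos x (by rw [huv]; simp [hx])
        refine ⟨u ++ b :: q :: w, ?_, ?_⟩
        · rw [hval1, ← hl, huv]
          rw [← Multiset.coe_add, ← Multiset.coe_add, ← Multiset.cons_coe, ← Multiset.cons_coe,
            ← Multiset.cons_coe]
          simp only [Multiset.add_cons, Multiset.cons_swap]
        · rw [Av_append]
          refine ⟨?_, ?_, ?_, ?_⟩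
          · apply Av_of_free _ _ hupos
            intro z hz1 hz2 hzF
            have := hmmin z (mem_up.2 ⟨hzF, hz1⟩)
            omega
          · intro hzF
            have := hmmin _ (mem_up.2 ⟨hzF, by omega⟩)
            omega
          · have h2 := hAv'.2
            rw [huv, Av_append] at h2
            have h3 := h2.2.1
            rw [Finset.mem_erase] at h3
            intro h4
            apply h3
            refine ⟨by omega, ?_⟩
            convert h4 using 1
            ring
          · have h2 := hAv'.2
            rw [huv, Av_append] at h2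
            have h3 := h2.2.2
            have e : y + u.sum + b + q = y + q + u.sum + b := by ring
            rw [e]
            apply Av_mono w hwpos _ _ h3
            intro z hz1 hz2
            rw [Finset.mem_erase]
            exact ⟨by omega, hz2⟩
    · refine ⟨q :: l, ?_, ?_⟩
      · rw [hval1, ← hl]; rfl
      · rw [Av_iff]
        intro u v huv hu
        rw [Av_iff] at hAv'
        have h1 := hAv' u v huv hu
        rw [Finset.mem_erase] at h1
        intro h2
        apply h1
        refine ⟨?_, h2⟩
        intro h3
        apply hhit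
        cases u with
        | nil => exact absurd rfl hu
        | cons a u' =>
          simp only [List.cons_append, List.cons.injEq] at huv
          refine ⟨u', v, huv.2, ?_⟩
          rw [← h3, huv.1]
          simp only [List.sum_cons]
          ring

/-- Multiset version: if there are at least `2 t + 1` distinct sizes, where `t` is the number of
forbidden points ahead, then an order avoiding all forbidden points exists. -/
theorem many_sizes (O : List ℕ) : ∀ (T : Finset ℕ), (∀ x ∈ T, 0 < x) → (∀ x ∈ O, 0 < x) →
    ∀ (F : Finset ℕ) (y : ℕ), 2 * (up F y).card + 1 ≤ T.card → y + ∑ x ∈ T, x + O.sum ∉ F →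
    ∃ l : List ℕ, (l : Multiset ℕ) = T.val + (O : Multiset ℕ) ∧ Av F y l := by
  induction O with
  | nil =>
    intro T hT _ F y hF hP
    obtain ⟨l, hl, hAv⟩ := grasshopper T.card T rfl hT F y (by omega) (by simpa using hP)
    exact ⟨l, by simpa using hl, hAv⟩
  | cons o O ih =>
    intro T hT hO F y hF hP
    have ho : 0 < o := hO o (by simp)
    have hO' : ∀ x ∈ O, 0 < x := fun x hx => hO x (by simp [hx])
    by_cases hyo : y + o ∈ F
    · have hyo' : y + o ∈ up F y := mem_up.2 ⟨hyo, by omega⟩
      have hc0 : 0 < (up F y).card := Finset.card_pos.2 ⟨_, hyo'⟩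
      have hex : ∃ d ∈ T, y + d ∉ F ∧ y + d + o ∉ F := by
        by_contra hcon
        push Not at hcon
        have hsub : T ⊆ (up F y).image (fun f => f - y) ∪
            ((up F y).erase (y + o)).image (fun f => f - y - o) := by
          intro d hd
          have hd0 := hT d hd
          rw [Finset.mem_union, Finset.mem_image, Finset.mem_image]
          by_cases h : y + d ∈ F
          · left
            exact ⟨y + d, mem_up.2 ⟨h, by omega⟩, by omega⟩
          · right
            refine ⟨y + d + o, ?_, by omega⟩
            rw [Finset.mem_erase, mem_up]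
            exact ⟨by omega, hcon d hd h, by omega⟩
        have h1 := Finset.card_le_card hsub
        have h2 := Finset.card_union_le ((up F y).image (fun f => f - y))
          (((up F y).erase (y + o)).image (fun f => f - y - o))
        have h3 : ((up F y).image (fun f => f - y)).card ≤ _ := Finset.card_image_le
        have h4 : (((up F y).erase (y + o)).image (fun f => f - y - o)).card ≤ _ :=
          Finset.card_image_le
        rw [Finset.card_erase_of_mem hyo'] at h4
        omega
      obtain ⟨d, hd, hd1, hd2⟩ := hex
      have hd0 := hT d hd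
      have hcard : (T.erase d).card = T.card - 1 := Finset.card_erase_of_mem hd
      have hTc : 0 < T.card := Finset.card_pos.2 ⟨_, hd⟩
      have hsum : ∑ x ∈ T, x = d + ∑ x ∈ T.erase d, x :=
        (Finset.add_sum_erase T (fun x => x) hd).symm
      have hval : T.val = d ::ₘ (T.erase d).val := by
        have := Finset.insert_val_of_notMem (Finset.notMem_erase d T)
        rw [Finset.insert_erase hd] at this
        exact this
      have hup : (up F (y + d + o)).card + 1 ≤ (up F y).card := by
        have hsub : up F (y + d + o) ⊆ (up F y).erase (y + o) := by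
          intro z hz
          rw [mem_up] at hz
          rw [Finset.mem_erase, mem_up]
          refine ⟨by omega, hz.1, by omega⟩
        have h1 := Finset.card_le_card hsub
        rw [Finset.card_erase_of_mem hyo'] at h1
        omega
      obtain ⟨l, hl, hAv⟩ := ih (T.erase d)
        (fun x hx => hT x (Finset.mem_of_mem_erase hx)) hO' F (y + d + o)
        (by omega) (by
          have : y + d + o + ∑ x ∈ T.erase d, x + O.sum = y + ∑ x ∈ T, x + (o :: O).sum := by
            rw [hsum, List.sum_cons]; ring
          rw [this]; exact hP)
      refine ⟨d :: o :: l, ?_, hd1, hd2, hAv⟩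
      rw [← Multiset.cons_coe, ← Multiset.cons_coe, hl, hval, ← Multiset.cons_coe]
      simp only [Multiset.cons_add, Multiset.add_cons]
      rw [Multiset.cons_swap]
    · have hup : (up F (y + o)).card ≤ (up F y).card :=
        Finset.card_le_card (up_subset (by omega))
      obtain ⟨l, hl, hAv⟩ := ih T hT hO' F (y + o) (by omega) (by
          have : y + o + ∑ x ∈ T, x + O.sum = y + ∑ x ∈ T, x + (o :: O).sum := by
            rw [List.sum_cons]; ring
          rw [this]; exact hP)
      refine ⟨o :: l, ?_, hyo, hAv⟩
      rw [← Multiset.cons_coe, hl, ← Multiset.cons_coe, Multiset.add_cons]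

end Pool.Agent.H628R2.Forb
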