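import Pool.Agent.KS6_49.L8.H628R2.Forb.SR

set_option autoImplicit false

namespace Pool.Agent.H628R2.Forb

/-! ### The decision procedure -/

/-- Boolean test that all positions visited after the start avoid `F`. -/
def avb (F : List ℕ) (y : ℕ) (l : List ℕ) : Bool :=
  (l.foldl (fun s x => (s.1 + x, s.2 && !decide (s.1 + x ∈ F))) (y, true)).2

/-- remove duplicates -/
def ded (l : List ℕ) : List ℕ := l.foldl (fun s a => if a ∈ s then s else a :: s) []

/-- all lists over `K` of length at most `n` -/
def enum (K : List ℕ) (n : ℕ) : List (List ℕ) :=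
  (List.range n).foldl (fun ss _ => [] :: K.flatMap (fun x => ss.map (fun s => x :: s))) [[]]

def reflL (P : ℕ) (F : List ℕ) : List ℕ := (F.filter (fun f => decide (f ≤ P))).map (fun f => P - f)

/-- the bound on the length of the start and end sequences -/
def LL (t : ℕ) : ℕ := t * (t + 1)

/-- the threshold for plentiful sizes -/
def GG (t : ℕ) : ℕ := (t * (t + 1)) ^ 2 + 3 * (t * (t + 1)) + (t + (t + 1) * (t + 1))

/-- number of occurrences -/
def cnt (x : ℕ) (l : List ℕ) : ℕ := (l.filter (fun y => decide (y = x))).length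

/-- is there a pair of plentiful sizes which is not commensurable? -/
def gpb (B : List ℕ) (t : ℕ) : Bool :=
  B.any (fun p => B.any (fun q => decide (p < q) &&
    (List.range t).all (fun i => (List.range t).all (fun j =>
      !decide ((i + 1) * p = (j + 1) * q)))))

def gpdec (J F K : List ℕ) (t : ℕ) : Bool :=
  !decide (J.sum ∈ F) &&
  (enum K (LL t)).any (fun S => decide (S.length = LL t) && avb F 0 S &&
    (enum K (LL t)).any (fun E => decide (E.length = LL t) && avb (reflL J.sum F) 0 E &&
      K.all (fun x => decide (cnt x S + cnt x E ≤ cnt x J))))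

/-- one step of the search graph -/
def stp (B R : List ℕ) (y x : List ℕ × ℕ) : Bool :=
  (decide (y.1 = x.1) && B.any (fun p => decide (y.2 + p = x.2))) ||
  (decide (y.2 = x.2) && R.any (fun r => decide (r :: y.1 = x.1)))

/-- the possible total plentiful lengths -/
def WW (J B : List ℕ) (t : ℕ) : List ℕ :=
  (List.range ((t + 1).factorial * J.length * (t + 1) + 1)).map
    (fun v => v * (B.head?.getD 0) / (t + 1).factorial)

/-- the universe of search states -/
def UU (J B R : List ℕ) (t : ℕ) : List (List ℕ × ℕ) :=
  (enum R ((R.map (fun x => cnt x J)).sum)).flatMap (fun σ => (WW J B t).map (fun w => (σ, w)))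

/-- one round of the closure -/
def rnd (F B R : List ℕ) (U : List (List ℕ × ℕ)) (X : List (List ℕ × ℕ)) : List (List ℕ × ℕ) :=
  U.filter (fun x => decide (x ∈ X) ||
    (!decide (x.1.sum + x.2 ∈ F) && X.any (fun y => stp B R y x)))

/-- the closure -/
def clo (F B R : List ℕ) (U : List (List ℕ × ℕ)) : List (List ℕ × ℕ) :=
  U.foldl (fun X _ => rnd F B R U X) [([], 0)]

def srdec (J F K B : List ℕ) (t : ℕ) : Bool :=
  let R := K.filter (fun x => !decide (x ∈ B))
  (clo F B R (UU J B R t)).any (fun x => decide (x.1.sum + x.2 = J.sum) &&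
    R.all (fun r => decide (cnt r x.1 = cnt r J)))

/-- The decision procedure: is there an order of `J` avoiding `F`? -/
def dec (J F : List ℕ) : Bool :=
  let t := F.length
  let K := (ded J).take (2 * t)
  let B := K.filter (fun x => decide (GG t ≤ cnt x J))
  if 2 * t + 1 ≤ (ded J).length then !decide (J.sum ∈ F)
  else if gpb B t then gpdec J F K t
  else srdec J F K B t

/-! ### Correctness -/

lemma avb_aux (F : List ℕ) (l : List ℕ) : ∀ (y : ℕ) (b : Bool),
    (l.foldl (fun s x => (s.1 + x, s.2 && !decide (s.1 + x ∈ F))) (y, b)).2 = true ↔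
      b = true ∧ Av F.toFinset y l := by
  induction l with
  | nil => intro y b; simp
  | cons x l ih =>
    intro y b
    rw [List.foldl_cons, ih]
    simp [and_assoc]

lemma avb_iff (F : List ℕ) (y : ℕ) (l : List ℕ) :
    avb F y l = true ↔ Av F.toFinset y l := by
  rw [avb, avb_aux]; simp

lemma mem_ded_aux (l : List ℕ) : ∀ (s : List ℕ) (a : ℕ),
    a ∈ l.foldl (fun s a => if a ∈ s then s else a :: s) s ↔ a ∈ s ∨ a ∈ l := by
  induction l with
  | nil => intro s a; simp
  | cons x l ih =>
    intro s a
    rw [List.foldl_cons, ih]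
    split_ifs with h
    · simp only [List.mem_cons]
      constructor
      · rintro (h1 | h1)
        · exact Or.inl h1
        · exact Or.inr (Or.inr h1)
      · rintro (h1 | rfl | h1)
        · exact Or.inl h1
        · exact Or.inl h
        · exact Or.inr h1
    · simp only [List.mem_cons]
      tauto

lemma mem_ded (l : List ℕ) (a : ℕ) : a ∈ ded l ↔ a ∈ l := by
  rw [ded, mem_ded_aux]; simp

lemma nodup_ded_aux (l : List ℕ) : ∀ s : List ℕ, s.Nodup →
    (l.foldl (fun s a => if a ∈ s then s else a :: s) s).Nodup := by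
  induction l with
  | nil => intro s h; simpa using h
  | cons x l ih =>
    intro s h
    rw [List.foldl_cons]
    apply ih
    split_ifs with hx
    · exact h
    · exact List.nodup_cons.2 ⟨hx, h⟩

lemma nodup_ded (l : List ℕ) : (ded l).Nodup := nodup_ded_aux l [] List.nodup_nil

lemma enum_succ (K : List ℕ) (n : ℕ) :
    enum K (n + 1) = [] :: K.flatMap (fun x => (enum K n).map (fun s => x :: s)) := by
  rw [enum, List.range_succ, List.foldl_append]
  rfl

lemma mem_enum (K : List ℕ) (n : ℕ) : ∀ l : List ℕ,
    l ∈ enum K n ↔ l.length ≤ n ∧ ∀ x ∈ l, x ∈ K := by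
  induction n with
  | zero =>
    intro l
    simp only [enum, List.range_zero, List.foldl_nil, List.mem_singleton]
    constructor
    · rintro rfl; simp
    · rintro ⟨h, -⟩; exact List.length_eq_zero_iff.1 (by omega)
  | succ n ih =>
    intro l
    rw [enum_succ]
    cases l with
    | nil => simp
    | cons a l =>
      simp only [List.mem_cons, List.mem_flatMap, List.mem_map, reduceCtorEq, false_or,
        List.cons.injEq, List.length_cons]
      constructor
      · rintro ⟨x, hx, s, hs, rfl, rfl⟩
        rw [ih] at hs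
        refine ⟨by omega, ?_⟩
        rintro y (rfl | hy)
        · exact hx
        · exact hs.2 y hy
      · rintro ⟨h1, h2⟩
        exact ⟨a, h2 a (Or.inl rfl), l, (ih l).2 ⟨by omega, fun x hx => h2 x (Or.inr hx)⟩, rfl, rfl⟩

lemma reflL_toFinset (P : ℕ) (F : List ℕ) : (reflL P F).toFinset = refl P F.toFinset := by
  ext z
  simp only [reflL, refl, List.mem_toFinset, List.mem_map, List.mem_filter, Finset.mem_image,
    Finset.mem_filter, decide_eq_true_eq]

lemma cnt_eq (x : ℕ) (l : List ℕ) : cnt x l = l.count x := by
  rw [cnt, List.count, List.countP_eq_length_filter]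
  congr 1

lemma gpb_false {B : List ℕ} {t : ℕ} (h : gpb B t = false) :
    ∀ p ∈ B, ∀ q ∈ B, ∃ c d, 1 ≤ c ∧ c ≤ t + 1 ∧ 1 ≤ d ∧ d ≤ t + 1 ∧ c * p = d * q := by
  have key : ∀ p ∈ B, ∀ q ∈ B, p < q →
      ∃ c d, 1 ≤ c ∧ c ≤ t + 1 ∧ 1 ≤ d ∧ d ≤ t + 1 ∧ c * p = d * q := by
    intro p hp q hq hpq
    rw [gpb, List.any_eq_false] at h
    have h1 := h p hp
    rw [Bool.not_eq_true, List.any_eq_false] at h1
    have h2 := h1 q hq
    simp only [hpq, decide_true, Bool.true_and, Bool.not_eq_true, List.all_eq_false,
      List.mem_range] at h2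
    obtain ⟨i, hi, j, hj, hj2⟩ := h2
    simp only [Bool.not_eq_false', decide_eq_true_eq] at hj2
    exact ⟨i + 1, j + 1, by omega, by omega, by omega, by omega, hj2⟩
  intro p hp q hq
  rcases lt_trichotomy p q with h1 | h1 | h1
  · exact key p hp q hq h1
  · exact ⟨1, 1, by omega, by omega, by omega, by omega, by rw [h1]⟩
  · obtain ⟨c, d, h2, h3, h4, h5, h6⟩ := key q hq p hp h1
    exact ⟨d, c, h4, h5, h2, h3, h6.symm⟩

lemma gpb_true {B : List ℕ} {t : ℕ} (hB : ∀ j ∈ B, 0 < j) (h : gpb B t = true) :
    ∃ p ∈ B, ∃ q ∈ B, p < q ∧ ∀ i, 1 ≤ i → i ≤ t → ¬ q ∣ i * p := by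
  rw [gpb, List.any_eq_true] at h
  obtain ⟨p, hp, h⟩ := h
  rw [List.any_eq_true] at h
  obtain ⟨q, hq, h⟩ := h
  rw [Bool.and_eq_true, List.all_eq_true] at h
  obtain ⟨h1, h2⟩ := h
  have hpq : p < q := by simpa using h1
  refine ⟨p, hp, q, hq, hpq, ?_⟩
  intro i hi1 hi2 hdvd
  obtain ⟨j, hj⟩ := hdvd
  have hp0 := hB p hp
  have hq0 := hB q hq
  have hj0 : 0 < j := by
    rcases Nat.eq_zero_or_pos j with h0 | h0
    · subst h0
      rw [Nat.mul_zero] at hj
      have : 0 < i * p := Nat.mul_pos (by omega) hp0
      omega
    · exact h0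
  have hji : j < i := by
    by_contra hc
    push Not at hc
    have h3 : i * q ≤ j * q := Nat.mul_le_mul_right _ hc
    have h4 : i * p < i * q := Nat.mul_lt_mul_of_pos_left hpq (by omega)
    rw [Nat.mul_comm q j] at hj
    omega
  have h3 := h2 (i - 1) (List.mem_range.2 (by omega))
  rw [List.all_eq_true] at h3
  have h4 := h3 (j - 1) (List.mem_range.2 (by omega))
  simp only [Bool.not_eq_true', decide_eq_false_iff_not] at h4
  apply h4
  rw [Nat.sub_add_cancel hi1, Nat.sub_add_cancel hj0, hj, Nat.mul_comm]

lemma count_prefix (F : Finset ℕ) (p q t : ℕ) (hF : F.card ≤ t)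
    (hE : ∀ i, 1 ≤ i → i ≤ t → ¬ q ∣ i * p) (S : List ℕ) (hpos : ∀ x ∈ S, 0 < x)
    (hlen : LL t ≤ S.length) :
    ∃ m ≤ S.length, Alive F p q (S.take m).sum := by
  by_contra hcon
  push Not at hcon
  have hD1 : (DD F p t).card ≤ t * (t + 1) :=
    (DD_card F p t).trans (Nat.mul_le_mul_right _ hF)
  have h1 : (Finset.range (S.length + 1)).card ≤ (DD F p t).card := by
    apply Finset.card_le_card_of_injOn (fun i => (S.take i).sum)
    · intro i hi
      simp only [Finset.coe_range, Set.mem_Iio] at hi
      apply dd_mem
      by_contra hc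
      exact hcon i (by omega) (Alive.of_not_dd hF hE hc)
    · intro i hi j hj hij
      simp only [Finset.coe_range, Set.mem_Iio] at hi hj
      simp only at hij
      rcases lt_trichotomy i j with h | h | h
      · have := sum_take_lt S hpos i j h (by omega); omega
      · exact h
      · have := sum_take_lt S hpos j i h (by omega); omega
  rw [Finset.card_range] at h1
  unfold LL at hlen
  omega

lemma Av_reverse' {P : ℕ} {F : Finset ℕ} (l : List ℕ) : ∀ y z : ℕ, y + l.sum + z = P →
    y ∉ F → Av F y l → Av (refl P F) z l.reverse := by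
  induction l with
  | nil => intro y z _ _ _; trivial
  | cons x l ih =>
    intro y z hP hy hA
    simp only [List.sum_cons] at hP
    rw [List.reverse_cons, Av_append]
    refine ⟨ih (y + x) z (by omega) hA.1 hA.2, ?_, trivial⟩
    rw [List.sum_reverse, mem_refl (by omega)]
    have : P - (z + l.sum + x) = y := by omega
    rwa [this]

lemma toFinset_card_le (F : List ℕ) : F.toFinset.card ≤ F.length := List.toFinset_card_le F

lemma gpdec_iff {J F K B : List ℕ} {t : ℕ} (hJ : ∀ x ∈ J, 0 < x) (h0 : 0 ∉ F)
    (hF : F.length ≤ t) (hK : ∀ x, x ∈ K ↔ x ∈ J) (hB : ∀ x ∈ B, GG t ≤ J.count x)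
    (hBpos : ∀ x ∈ B, 0 < x)
    (hg : gpb B t = true) :
    gpdec J F K t = true ↔ ∃ l : List ℕ, l.Perm J ∧ Av F.toFinset 0 l := by
  obtain ⟨p, hp, q, hq, hpq, hE⟩ := gpb_true hBpos hg
  have hFc : F.toFinset.card ≤ t := (toFinset_card_le F).trans hF
  have hp0 := hBpos p hp
  have hq0 := hBpos q hq
  have hpc := hB p hp
  have hqc := hB q hq
  have hLn : 2 * LL t ≤ J.length := by
    have := List.count_le_length (a := p) (l := J)
    unfold GG at hpc
    unfold LL
    omega
  rw [gpdec, Bool.and_eq_true, List.any_eq_true]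
  constructor
  · rintro ⟨hend, S, hS, h⟩
    rw [Bool.and_eq_true, Bool.and_eq_true, List.any_eq_true] at h
    obtain ⟨⟨hSl, hSA⟩, E, hEm, h⟩ := h
    rw [Bool.and_eq_true, Bool.and_eq_true, List.all_eq_true] at h
    obtain ⟨⟨hEl, hEA⟩, hcnt⟩ := h
    rw [mem_enum] at hS hEm
    rw [decide_eq_true_eq] at hSl hEl
    rw [avb_iff] at hSA hEA
    rw [reflL_toFinset] at hEA
    have hend' : J.sum ∉ F.toFinset := by simpa using hend
    have hSpos : ∀ x ∈ S, 0 < x := fun x hx => hJ x ((hK x).1 (hS.2 x hx))
    have hEpos : ∀ x ∈ E, 0 < x := fun x hx => hJ x ((hK x).1 (hEm.2 x hx))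
    obtain ⟨m1, hm1, ha1⟩ := count_prefix F.toFinset p q t hFc hE S hSpos (by omega)
    obtain ⟨m2, hm2, ha2⟩ := count_prefix (refl J.sum F.toFinset) p q t
      ((refl_card _ _).trans hFc) hE E hEpos (by omega)
    have hle : ((S : Multiset ℕ) + (E : Multiset ℕ)) ≤ (J : Multiset ℕ) := by
      rw [Multiset.le_iff_count]
      intro x
      rw [Multiset.count_add, Multiset.coe_count, Multiset.coe_count, Multiset.coe_count]
      by_cases hx : x ∈ K
      · have := hcnt x hx
        rw [decide_eq_true_eq, cnt_eq, cnt_eq, cnt_eq] at this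
        exact this
      · rw [List.count_eq_zero_of_not_mem (fun h => hx (hS.2 x h)),
          List.count_eq_zero_of_not_mem (fun h => hx (hEm.2 x h))]
        omega
    set S' := S.take m1 with hS'
    set E' := E.take m2 with hE'
    have hle' : ((S' : Multiset ℕ) + (E' : Multiset ℕ)) ≤ (J : Multiset ℕ) := by
      refine le_trans (add_le_add ?_ ?_) hle
      · exact Multiset.coe_le.2 (List.take_sublist _ _).subperm
      · exact Multiset.coe_le.2 (List.take_sublist _ _).subperm
    set M : Multiset ℕ := (J : Multiset ℕ) - ((S' : Multiset ℕ) + (E' : Multiset ℕ)) with hM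
    have hMJ : (S' : Multiset ℕ) + (E' : Multiset ℕ) + M = (J : Multiset ℕ) :=
      add_tsub_cancel_of_le hle'
    have hsum : S'.sum + E'.sum + M.sum = J.sum := by
      have := congrArg Multiset.sum hMJ
      rwa [Multiset.sum_add, Multiset.sum_add, Multiset.sum_coe, Multiset.sum_coe,
        Multiset.sum_coe] at this
    have hcM : ∀ x, GG t ≤ J.count x → (t * (t + 1)) ^ 2 + t * (t + 1) ≤ M.count x := by
      intro x hx
      rw [hM, Multiset.count_sub, Multiset.count_add, Multiset.coe_count, Multiset.coe_count,
        Multiset.coe_count]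
      have h1 : S'.count x ≤ LL t := by
        rw [← hSl]
        exact (List.Sublist.count_le _ (List.take_sublist _ _)).trans List.count_le_length
      have h2 : E'.count x ≤ LL t := by
        rw [← hEl]
        exact (List.Sublist.count_le _ (List.take_sublist _ _)).trans List.count_le_length
      unfold GG at hx
      unfold LL at h1 h2
      omega
    obtain ⟨l, hl1, hl2⟩ := gp_main (F := F.toFinset) (p := p) (q := q) (t := t) hp0 hq0
      (by omega) hFc hE S' E' M (by
        intro x hx
        apply hJ x
        have : x ∈ (J : Multiset ℕ) := by rw [← hMJ]; exact Multiset.mem_add.2 (Or.inr hx)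
        exact this)
      (by rw [hsum]; exact hend') (Av_take hSA m1).1 ha1
      (by rw [hsum]; exact (Av_take hEA m2).1) (by rw [hsum]; exact ha2)
      (hcM p hpc) (hcM q hqc)
    refine ⟨l, ?_, hl2⟩
    rw [hMJ] at hl1
    exact Multiset.coe_eq_coe.1 hl1
  · rintro ⟨l, hl1, hl2⟩
    have hlen : l.length = J.length := hl1.length_eq
    have hlpos : ∀ x ∈ l, 0 < x := fun x hx => hJ x (hl1.mem_iff.1 hx)
    have hsum : l.sum = J.sum := hl1.sum_eq
    have h0' : 0 ∉ F.toFinset := by simpa using h0
    have hrev : Av (refl J.sum F.toFinset) 0 l.reverse :=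
      Av_reverse' (P := J.sum) l 0 0 (by omega) h0' hl2
    refine ⟨?_, l.take (LL t), ?_, ?_⟩
    · have : J.sum ∉ F.toFinset := by
        by_cases hne : l = []
        · subst hne
          simp at hsum
          rw [← hsum]; exact h0'
        · rw [Av_iff] at hl2
          have := hl2 l [] (by simp) hne
          rwa [Nat.zero_add, hsum] at this
      simpa using this
    · rw [mem_enum]
      refine ⟨by rw [List.length_take]; omega, ?_⟩
      intro x hx
      exact (hK x).2 (hl1.mem_iff.1 (List.mem_of_mem_take hx))
    · rw [Bool.and_eq_true, Bool.and_eq_true, List.any_eq_true]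
      refine ⟨⟨?_, ?_⟩, (l.reverse.take (LL t)), ?_, ?_⟩
      · rw [decide_eq_true_eq, List.length_take]; omega
      · rw [avb_iff]; exact (Av_take hl2 _).1
      · rw [mem_enum]
        refine ⟨by rw [List.length_take]; omega, ?_⟩
        intro x hx
        exact (hK x).2 (hl1.mem_iff.1 (List.mem_reverse.1 (List.mem_of_mem_take hx)))
      · rw [Bool.and_eq_true, Bool.and_eq_true, List.all_eq_true]
        refine ⟨⟨?_, ?_⟩, ?_⟩
        · rw [decide_eq_true_eq, List.length_take, List.length_reverse]; omega
        · rw [avb_iff, reflL_toFinset]; exact (Av_take hrev _).1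
        · intro x _
          rw [decide_eq_true_eq, cnt_eq, cnt_eq, cnt_eq, ← hl1.count_eq]
          have e1 : l.reverse.take (LL t) = (l.drop (l.length - LL t)).reverse := by
            rw [List.take_reverse]
          rw [e1, List.count_reverse]
          have e2 : (l.drop (l.length - LL t)).count x ≤ (l.drop (LL t)).count x := by
            apply List.Sublist.count_le
            have : l.drop (l.length - LL t) = (l.drop (LL t)).drop (l.length - LL t - LL t) := by
              rw [List.drop_drop]; congr 1; omega
            rw [this]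
            exact List.drop_sublist _ _
          have e3 : (l.take (LL t)).count x + (l.drop (LL t)).count x = l.count x := by
            rw [← List.count_append, List.take_append_drop]
          omega

/-! #### The search graph -/

/-- the search state of a route -/
def sta (B : List ℕ) (l : List ℕ) : List ℕ × ℕ :=
  ((l.filter (fun x => !decide (x ∈ B))).reverse, (l.filter (fun x => decide (x ∈ B))).sum)

lemma sta_snoc_mem {B : List ℕ} {l : List ℕ} {p : ℕ} (hp : p ∈ B) :
    sta B (l ++ [p]) = ((sta B l).1, (sta B l).2 + p) := by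
  simp [sta, List.filter_append, hp]

lemma sta_snoc_not_mem {B : List ℕ} {l : List ℕ} {p : ℕ} (hp : p ∉ B) :
    sta B (l ++ [p]) = (p :: (sta B l).1, (sta B l).2) := by
  simp [sta, List.filter_append, hp]

lemma sta_sum (B : List ℕ) (l : List ℕ) : (sta B l).1.sum + (sta B l).2 = l.sum := by
  induction l using List.reverseRecOn with
  | nil => simp [sta]
  | append_singleton l a ih =>
    by_cases ha : a ∈ B
    · rw [sta_snoc_mem ha, List.sum_append]
      simp only [List.sum_cons, List.sum_nil]
      omega
    · rw [sta_snoc_not_mem ha, List.sum_append]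
      simp only [List.sum_cons, List.sum_nil]
      omega

lemma clo_sound {F K B R : List ℕ} {U : List (List ℕ × ℕ)} (hB : ∀ x ∈ B, x ∈ K)
    (hR : ∀ x ∈ R, x ∈ K ∧ x ∉ B) (L : List (List ℕ × ℕ)) : ∀ X : List (List ℕ × ℕ),
    (∀ x ∈ X, ∃ l : List ℕ, (∀ z ∈ l, z ∈ K) ∧ Av F.toFinset 0 l ∧ sta B l = x) →
    ∀ x ∈ L.foldl (fun X _ => rnd F B R U X) X,
      ∃ l : List ℕ, (∀ z ∈ l, z ∈ K) ∧ Av F.toFinset 0 l ∧ sta B l = x := by
  induction L with
  | nil => intro X h x hx; exact h x hx
  | cons a L ih =>
    intro X h
    rw [List.foldl_cons]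
    apply ih
    intro x hx
    rw [rnd, List.mem_filter, Bool.or_eq_true, Bool.and_eq_true, List.any_eq_true] at hx
    obtain ⟨-, hx⟩ := hx
    rcases hx with hx | ⟨hxF, y, hy, hstp⟩
    · exact h x (by simpa using hx)
    · obtain ⟨l, h1, h2, h3⟩ := h y hy
      have hxF' : x.1.sum + x.2 ∉ F.toFinset := by simpa using hxF
      rw [stp, Bool.or_eq_true, Bool.and_eq_true, Bool.and_eq_true, List.any_eq_true,
        List.any_eq_true] at hstp
      have hls := sta_sum B l
      rw [h3] at hls
      rcases hstp with ⟨e1, p, hp, e2⟩ | ⟨e1, r, hr, e2⟩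
      · rw [decide_eq_true_eq] at e1 e2
        refine ⟨l ++ [p], ?_, ?_, ?_⟩
        · intro z hz
          rcases List.mem_append.1 hz with hz | hz
          · exact h1 z hz
          · rw [List.mem_singleton] at hz; rw [hz]; exact hB p hp
        · rw [Av_append]
          refine ⟨h2, ?_, trivial⟩
          rw [Nat.zero_add, ← hls, e1, Nat.add_assoc, e2]
          exact hxF'
        · rw [sta_snoc_mem hp, h3, e1, e2]
      · rw [decide_eq_true_eq] at e1 e2
        refine ⟨l ++ [r], ?_, ?_, ?_⟩
        · intro z hz
          rcases List.mem_append.1 hz with hz | hz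
          · exact h1 z hz
          · rw [List.mem_singleton] at hz; rw [hz]; exact (hR r hr).1
        · rw [Av_append]
          refine ⟨h2, ?_, trivial⟩
          have : 0 + l.sum + r = x.1.sum + x.2 := by
            rw [← e2, List.sum_cons, ← e1, ← hls]; ring
          rw [this]
          exact hxF'
        · rw [sta_snoc_not_mem (hR r hr).2, h3, e1, e2]

lemma rnd_iter_mem {F B R : List ℕ} {U X : List (List ℕ × ℕ)} {x : List ℕ × ℕ} (hx : x ∈ X)
    (hU : x ∈ U) (k : ℕ) : x ∈ (rnd F B R U)^[k] X := by
  induction k with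
  | zero => exact hx
  | succ k ih =>
    rw [Function.iterate_succ_apply', rnd, List.mem_filter]
    refine ⟨hU, ?_⟩
    rw [Bool.or_eq_true]
    left
    simpa using ih

lemma clo_complete {F B R : List ℕ} {U : List (List ℕ × ℕ)} {l : List ℕ}
    (hl : ∀ z ∈ l, z ∈ B ∨ (z ∈ R ∧ z ∉ B)) (hA : Av F.toFinset 0 l)
    (hU : ∀ i ≤ l.length, sta B (l.take i) ∈ U) (i : ℕ) : ∀ k : ℕ, i ≤ k → i ≤ l.length →
    sta B (l.take i) ∈ (rnd F B R U)^[k] [([], 0)] := by
  induction i with
  | zero =>
    intro k _ _
    apply rnd_iter_mem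
    · simp [sta]
    · exact hU 0 (by omega)
  | succ i ih =>
    intro k hk hil
    obtain ⟨k, rfl⟩ : ∃ k', k = k' + 1 := ⟨k - 1, by omega⟩
    have h1 := ih k (by omega) (by omega)
    rw [Function.iterate_succ_apply', rnd, List.mem_filter]
    refine ⟨hU _ hil, ?_⟩
    rw [Bool.or_eq_true, Bool.and_eq_true, List.any_eq_true]
    right
    have htk : l.take (i + 1) = l.take i ++ [l[i]] := by
      rw [List.take_succ_eq_append_getElem]
    constructor
    · rw [sta_sum]
      have h2 := (Av_take hA (i + 1)).1
      rw [Av_iff] at h2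
      have h3 := h2 (l.take (i + 1)) [] (by simp) (by
        intro hc
        have := congrArg List.length hc
        rw [List.length_take, List.length_nil] at this
        omega)
      rw [Nat.zero_add] at h3
      simpa using h3
    · refine ⟨_, h1, ?_⟩
      rw [htk, stp, Bool.or_eq_true, Bool.and_eq_true, Bool.and_eq_true, List.any_eq_true,
        List.any_eq_true]
      rcases hl l[i] (List.getElem_mem _) with h | ⟨h, h'⟩
      · left
        rw [sta_snoc_mem h]
        exact ⟨by simp, l[i], h, by simp⟩
      · right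
        rw [sta_snoc_not_mem h']
        exact ⟨by simp, l[i], h, by simp⟩

lemma length_le_sum_count (R : List ℕ) (σ : List ℕ) : (∀ z ∈ σ, z ∈ R) →
    σ.length ≤ (R.map (fun x => σ.count x)).sum := by
  induction σ with
  | nil => intro _; simp
  | cons a σ ih =>
    intro h
    have h1 := ih (fun z hz => h z (by simp [hz]))
    have h2 : (R.map (fun x => σ.count x)).sum + 1 ≤ (R.map (fun x => (a :: σ).count x)).sum := by
      have ha : a ∈ R := h a (by simp)
      clear h1 ih h
      induction R with
      | nil => simp at ha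
      | cons r R ih =>
        simp only [List.map_cons, List.sum_cons]
        have h3 : (R.map (fun x => σ.count x)).sum ≤ (R.map (fun x => (a :: σ).count x)).sum := by
          apply List.sum_le_sum
          intro x _
          rw [List.count_cons]; omega
        by_cases har : a = r
        · subst har
          rw [List.count_cons_self]; omega
        · have := ih (by
            rcases List.mem_cons.1 ha with h | h
            · exact absurd h har
            · exact h)
          have h4 : σ.count r ≤ (a :: σ).count r := by rw [List.count_cons]; omega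
          omega
    rw [List.length_cons]
    omega

lemma scale_sum (M c q0 : ℕ) (B : List ℕ) (e : ℕ → ℕ) (he : ∀ z ∈ B, M * z = e z * q0)
    (hc : ∀ z ∈ B, e z ≤ c) (w : List ℕ) : (∀ z ∈ w, z ∈ B) →
    ∃ v ≤ c * w.length, M * w.sum = v * q0 := by
  induction w with
  | nil => intro _; exact ⟨0, by simp, by simp⟩
  | cons a w ih =>
    intro h
    obtain ⟨v, h1, h2⟩ := ih (fun z hz => h z (by simp [hz]))
    refine ⟨e a + v, ?_, ?_⟩
    · rw [List.length_cons, Nat.mul_succ]
      have := hc a (h a (by simp))
      omega
    · rw [List.sum_cons, Nat.mul_add, he a (h a (by simp)), h2]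
      ring

lemma mem_WW {J B : List ℕ} {t : ℕ} (hBpos : ∀ x ∈ B, 0 < x)
    (hcomm : ∀ p ∈ B, ∀ q ∈ B, ∃ c d, 1 ≤ c ∧ c ≤ t + 1 ∧ 1 ≤ d ∧ d ≤ t + 1 ∧ c * p = d * q)
    (w : List ℕ) (hw : ∀ z ∈ w, z ∈ B) (hlen : w.length ≤ J.length) :
    w.sum ∈ WW J B t := by
  rw [WW, List.mem_map]
  cases B with
  | nil =>
    have : w = [] := by
      cases w with
      | nil => rfl
      | cons a w => exact absurd (hw a (by simp)) (by simp)
    subst this
    exact ⟨0, List.mem_range.2 (by omega), by simp⟩
  | cons q0 B =>
    have hq0 : q0 ∈ q0 :: B := by simp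
    have key : ∀ z ∈ q0 :: B, ∃ e ≤ (t + 1).factorial * (t + 1),
        (t + 1).factorial * z = e * q0 := by
      intro z hz
      obtain ⟨c, d, h1, h2, h3, h4, h5⟩ := hcomm z hz q0 hq0
      obtain ⟨m, hm⟩ : c ∣ (t + 1).factorial := Nat.dvd_factorial (by omega) h2
      refine ⟨m * d, ?_, ?_⟩
      · apply Nat.mul_le_mul _ h4
        rw [hm]
        exact Nat.le_mul_of_pos_left _ (by omega)
      · calc (t + 1).factorial * z = m * (c * z) := by rw [hm]; ring
          _ = _ := by rw [h5]; ring
    choose! e he1 he2 using key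
    obtain ⟨v, hv1, hv2⟩ := scale_sum (t + 1).factorial ((t + 1).factorial * (t + 1)) q0 (q0 :: B) e
      he2 he1 w hw
    refine ⟨v, ?_, ?_⟩
    · rw [List.mem_range]
      have : (t + 1).factorial * (t + 1) * w.length ≤
          (t + 1).factorial * (t + 1) * J.length := Nat.mul_le_mul_left _ hlen
      have e3 : (t + 1).factorial * (t + 1) * J.length =
        (t + 1).factorial * J.length * (t + 1) := by ring
      omega
    · simp only [List.head?_cons, Option.getD_some]
      rw [← hv2, Nat.mul_comm, Nat.mul_div_cancel _ (Nat.factorial_pos _)]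

lemma srdec_iff {J F K B : List ℕ} {t : ℕ} (hJ : ∀ x ∈ J, 0 < x) (h0 : 0 ∉ F)
    (hF : F.length ≤ t) (hK : ∀ x, x ∈ K ↔ x ∈ J) (hB : ∀ x ∈ B, GG t ≤ J.count x)
    (hBK : ∀ x ∈ B, x ∈ K) (hg : gpb B t = false) :
    srdec J F K B t = true ↔ ∃ l : List ℕ, l.Perm J ∧ Av F.toFinset 0 l := by
  have hcomm := gpb_false hg
  have hFc : F.toFinset.card ≤ t := (toFinset_card_le F).trans hF
  have h0' : 0 ∉ F.toFinset := by simpa using h0
  have hBpos : ∀ x ∈ B, 0 < x := fun x hx => hJ x ((hK x).1 (hBK x hx))
  set R := K.filter (fun x => !decide (x ∈ B)) with hR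
  have hRmem : ∀ x, x ∈ R ↔ x ∈ K ∧ x ∉ B := by
    intro x; rw [hR, List.mem_filter]; simp
  rw [srdec, List.any_eq_true]
  constructor
  · rintro ⟨x, hx, h⟩
    rw [Bool.and_eq_true, List.all_eq_true, decide_eq_true_eq] at h
    obtain ⟨l, h1, h2, h3⟩ := clo_sound (K := K) hBK (fun x hx => (hRmem x).1 hx) _ _ (by
      intro x hx
      rw [List.mem_singleton] at hx
      subst hx
      exact ⟨[], by simp, trivial, by simp [sta]⟩) x hx
    obtain ⟨l', g1, g2⟩ := sr_main (F := F.toFinset) (t := t) (h := t + 1) hFc h0' B.toFinset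
      (fun j hj => hBpos j (by simpa using hj))
      (fun p hp q hq => hcomm p (by simpa using hp) q (by simpa using hq)) (J : Multiset ℕ)
      (by
        intro j hj
        have := hB j (by simpa using hj)
        rw [Multiset.coe_count]
        unfold GG at this
        omega)
      l h2 (fun z hz => hJ z ((hK z).1 (h1 z hz)))
      (by rw [← sta_sum B l, h3, h.1, Multiset.sum_coe])
      (by
        intro z hz
        have hz' : z ∉ B := by simpa using hz
        rw [Multiset.coe_count]
        by_cases hzK : z ∈ K
        · have e1 := h.2 z ((hRmem z).2 ⟨hzK, hz'⟩)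
          rw [decide_eq_true_eq, cnt_eq, cnt_eq] at e1
          rw [← e1, ← h3, sta, List.count_reverse, List.count_filter (by simpa using hz')]
        · rw [List.count_eq_zero_of_not_mem (fun h => hzK (h1 z h)),
            List.count_eq_zero_of_not_mem (fun h => hzK ((hK z).2 h))])
    exact ⟨l', Multiset.coe_eq_coe.1 g1, g2⟩
  · rintro ⟨l, hl1, hl2⟩
    have hlK : ∀ z ∈ l, z ∈ B ∨ (z ∈ R ∧ z ∉ B) := by
      intro z hz
      by_cases hzB : z ∈ B
      · exact Or.inl hzB
      · exact Or.inr ⟨(hRmem z).2 ⟨(hK z).2 (hl1.mem_iff.1 hz), hzB⟩, hzB⟩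
    have hlpos : ∀ x ∈ l, 0 < x := fun x hx => hJ x (hl1.mem_iff.1 hx)
    have hU : ∀ i ≤ l.length, sta B (l.take i) ∈ UU J B R t := by
      intro i _
      rw [UU, List.mem_flatMap]
      refine ⟨(sta B (l.take i)).1, ?_, ?_⟩
      · rw [mem_enum]
        have hmem : ∀ z ∈ (sta B (l.take i)).1, z ∈ R := by
          intro z hz
          rw [sta, List.mem_reverse, List.mem_filter] at hz
          have hz2 : z ∉ B := by simpa using hz.2
          rcases hlK z (List.mem_of_mem_take hz.1) with h | h
          · exact absurd h hz2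
          · exact h.1
        refine ⟨(length_le_sum_count R _ hmem).trans ?_, hmem⟩
        apply List.sum_le_sum
        intro x _
        rw [cnt_eq, sta, List.count_reverse, ← hl1.count_eq]
        exact List.Sublist.count_le _ (List.filter_sublist.trans (List.take_sublist _ _))
      · rw [List.mem_map]
        refine ⟨(sta B (l.take i)).2, ?_, rfl⟩
        apply mem_WW hBpos hcomm
        · intro z hz
          rw [List.mem_filter] at hz
          simpa using hz.2
        · refine (List.length_filter_le _ _).trans ?_
          rw [List.length_take, ← hl1.length_eq]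
          omega
    have hlenU : l.length ≤ (UU J B R t).length := by
      have hnd : ((List.range (l.length + 1)).map (fun i => sta B (l.take i))).Nodup := by
        apply List.Nodup.map_on _ List.nodup_range
        intro i hi j hj hij
        rw [List.mem_range] at hi hj
        have e1 := congrArg (fun x : List ℕ × ℕ => x.1.sum + x.2) hij
        simp only [sta_sum] at e1
        rcases lt_trichotomy i j with h | h | h
        · have := sum_take_lt l hlpos i j h (by omega); omega
        · exact h
        · have := sum_take_lt l hlpos j i h (by omega); omega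
      have hsub : ((List.range (l.length + 1)).map (fun i => sta B (l.take i))) ⊆
          UU J B R t := by
        intro x hx
        rw [List.mem_map] at hx
        obtain ⟨i, hi, rfl⟩ := hx
        rw [List.mem_range] at hi
        exact hU i (by omega)
      have := (List.subperm_of_subset hnd hsub).length_le
      rw [List.length_map, List.length_range] at this
      omega
    refine ⟨sta B l, ?_, ?_⟩
    · have h1 := clo_complete (U := UU J B R t) hlK hl2 hU l.length (UU J B R t).length hlenU le_rfl
      rw [List.take_length] at h1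
      rw [clo, List.foldl_const]
      exact h1
    · rw [Bool.and_eq_true, List.all_eq_true, decide_eq_true_eq, sta_sum]
      refine ⟨hl1.sum_eq, ?_⟩
      intro r hr
      rw [decide_eq_true_eq, cnt_eq, cnt_eq, sta, List.count_reverse, List.count_filter,
        hl1.count_eq]
      simpa using ((hRmem r).1 hr).2

theorem dec_iff {J F : List ℕ} (hJ : ∀ x ∈ J, 0 < x) (h0 : 0 ∉ F) :
    dec J F = true ↔ ∃ l : List ℕ, l.Perm J ∧ Av F.toFinset 0 l := by
  have h0' : 0 ∉ F.toFinset := by simpa using h0
  rw [dec]
  split_ifs with h1 h2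
  · -- many sizes
    constructor
    · intro h
      have hend : J.sum ∉ F.toFinset := by simpa using h
      have hnd := nodup_ded J
      set T : Finset ℕ := (ded J).toFinset with hT
      have hTle : T.val ≤ (J : Multiset ℕ) := by
        rw [hT, List.toFinset_val, List.dedup_eq_self.2 hnd, Multiset.coe_le]
        exact List.subperm_of_subset hnd (fun x hx => (mem_ded J x).1 hx)
      have hTcard : T.card = (ded J).length := List.toFinset_card_of_nodup hnd
      set O : Multiset ℕ := (J : Multiset ℕ) - T.val with hO
      have hTO : T.val + O = (J : Multiset ℕ) := add_tsub_cancel_of_le hTle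
      have hsum : ∑ x ∈ T, x + O.toList.sum = J.sum := by
        have := congrArg Multiset.sum hTO
        rw [Multiset.sum_add, Multiset.sum_coe] at this
        rw [Multiset.sum_toList, ← this]
        congr 1
        rw [Finset.sum_eq_multiset_sum, Multiset.map_id']
      obtain ⟨l, hl1, hl2⟩ := many_sizes O.toList T (by
          intro x hx
          apply hJ x
          rw [← mem_ded]
          simpa [hT] using hx) (by
          intro x hx
          apply hJ x
          have : x ∈ (J : Multiset ℕ) := by
            rw [← hTO, Multiset.mem_add]; right; simpa using hx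
          exact this) F.toFinset 0 (by
          have e1 : (up F.toFinset 0).card ≤ F.length :=
            (Finset.card_filter_le _ _).trans (toFinset_card_le F)
          omega) (by rw [Nat.zero_add, hsum]; exact hend)
      refine ⟨l, ?_, hl2⟩
      rw [Multiset.coe_toList, hTO] at hl1
      exact Multiset.coe_eq_coe.1 hl1
    · rintro ⟨l, hl1, hl2⟩
      have hsum : l.sum = J.sum := hl1.sum_eq
      have : J.sum ∉ F.toFinset := by
        by_cases hne : l = []
        · subst hne
          simp at hsum
          rw [← hsum]; exact h0'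
        · rw [Av_iff] at hl2
          have := hl2 l [] (by simp) hne
          rwa [Nat.zero_add, hsum] at this
      simpa using this
  · -- good pair
    have hKeq : (ded J).take (2 * F.length) = ded J := List.take_of_length_le (by omega)
    rw [hKeq] at h2 ⊢
    apply gpdec_iff hJ h0 le_rfl (fun x => mem_ded J x) _ _ h2
    · intro x hx
      rw [List.mem_filter, decide_eq_true_eq, cnt_eq] at hx
      exact hx.2
    · intro x hx
      rw [List.mem_filter] at hx
      exact hJ x ((mem_ded J x).1 hx.1)
  · have hKeq : (ded J).take (2 * F.length) = ded J := List.take_of_length_le (by omega)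
    rw [hKeq] at h2 ⊢
    apply srdec_iff hJ h0 le_rfl (fun x => mem_ded J x) _ _ (by simpa using h2)
    · intro x hx
      rw [List.mem_filter, decide_eq_true_eq, cnt_eq] at hx
      exact hx.2
    · intro x hx
      rw [List.mem_filter] at hx
      exact hx.1

end Pool.Agent.H628R2.Forb
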