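import Pool.Agent.KS6_49.L8.H628R2.Forb.Core

set_option autoImplicit false

namespace Pool.Agent.H628R2.Forb

/-- All positions visited after the start satisfy `P`. -/
def AvP (P : ℕ → Prop) : ℕ → List ℕ → Prop
  | _, [] => True
  | y, x :: l => P (y + x) ∧ AvP P (y + x) l

lemma AvP_append (P : ℕ → Prop) (l l' : List ℕ) : ∀ y : ℕ,
    AvP P y (l ++ l') ↔ AvP P y l ∧ AvP P (y + l.sum) l' := by
  induction l with
  | nil => intro y; simp [AvP]
  | cons x l ih =>
    intro y
    simp only [List.cons_append, AvP, List.sum_cons, ih, and_assoc, Nat.add_assoc]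

lemma AvP_mono {P Q : ℕ → Prop} (h : ∀ z, P z → Q z) (l : List ℕ) : ∀ y : ℕ,
    AvP P y l → AvP Q y l := by
  induction l with
  | nil => intro y _; trivial
  | cons x l ih => intro y hA; exact ⟨h _ hA.1, ih _ hA.2⟩

lemma AvP_Av {P : ℕ → Prop} {F : Finset ℕ} (h : ∀ z, P z → z ∉ F) (l : List ℕ) : ∀ y : ℕ,
    AvP P y l → Av F y l := by
  induction l with
  | nil => intro y _; trivial
  | cons x l ih => intro y hA; exact ⟨h _ hA.1, ih _ hA.2⟩

/-- `Alive F p q y`: from `y` one can jump forever by jumps `p`, `q` avoiding `F`. -/
inductive Alive (F : Finset ℕ) (p q : ℕ) : ℕ → Prop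
  | good (y : ℕ) : (∀ f ∈ F, f % q ≠ y % q) → Alive F p q y
  | stepp (y : ℕ) : y ∉ F → Alive F p q (y + p) → Alive F p q y
  | stepq (y : ℕ) : y ∉ F → Alive F p q (y + q) → Alive F p q y

lemma Alive.not_mem {F : Finset ℕ} {p q y : ℕ} (h : Alive F p q y) : y ∉ F := by
  cases h with
  | good _ h => exact fun hy => h y hy rfl
  | stepp _ h _ => exact h
  | stepq _ h _ => exact h

lemma Alive.next {F : Finset ℕ} {p q y : ℕ} (h : Alive F p q y) :
    Alive F p q (y + p) ∨ Alive F p q (y + q) := by
  cases h with
  | good _ h =>
    right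
    apply Alive.good
    intro f hf
    rw [Nat.add_mod_right]
    exact h f hf
  | stepp _ _ h => exact Or.inl h
  | stepq _ _ h => exact Or.inr h

/-- Positions from which the `p`-run meets `F` within `t` steps. -/
def dd (F : Finset ℕ) (p t y : ℕ) : Prop := ∃ i ≤ t, y + i * p ∈ F

/-- A finite set containing all dead positions. -/
def DD (F : Finset ℕ) (p t : ℕ) : Finset ℕ :=
  ((F ×ˢ Finset.range (t + 1)).image (fun x => x.1 - x.2 * p))

lemma DD_card (F : Finset ℕ) (p t : ℕ) : (DD F p t).card ≤ F.card * (t + 1) := by
  have := Finset.card_image_le (s := F ×ˢ Finset.range (t + 1))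
    (f := fun x : ℕ × ℕ => x.1 - x.2 * p)
  simpa [DD, Finset.card_product] using this

lemma dd_mem {F : Finset ℕ} {p t y : ℕ} (h : dd F p t y) : y ∈ DD F p t := by
  obtain ⟨i, hi, hF⟩ := h
  rw [DD, Finset.mem_image]
  refine ⟨(y + i * p, i), ?_, by simp⟩
  rw [Finset.mem_product, Finset.mem_range]
  exact ⟨hF, by simp; omega⟩

lemma Alive.of_run {F : Finset ℕ} {p q : ℕ} (i : ℕ) : ∀ y : ℕ, (∀ j ≤ i, y + j * p ∉ F) →
    Alive F p q (y + i * p) → Alive F p q y := by
  induction i with
  | zero => intro y _ h; simpa using h
  | succ i ih =>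
    intro y hy h
    apply Alive.stepp
    · simpa using hy 0 (by omega)
    · apply ih
      · intro j hj
        have := hy (j + 1) (by omega)
        convert this using 2
        ring
      · convert h using 1
        ring

lemma Alive.of_not_dd {F : Finset ℕ} {p q t y : ℕ} (hF : F.card ≤ t)
    (hE : ∀ i, 1 ≤ i → i ≤ t → ¬ q ∣ i * p) (h : ¬ dd F p t y) : Alive F p q y := by
  have hex : ∃ i ∈ Finset.range (t + 1), (y + i * p) % q ∉ F.image (· % q) := by
    by_contra hcon
    push Not at hcon
    have h1 : (Finset.range (t + 1)).card ≤ (F.image (· % q)).card := by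
      apply Finset.card_le_card_of_injOn (fun i => (y + i * p) % q)
      · intro i hi
        exact hcon i hi
      · intro i hi j hj hij
        simp only [Finset.coe_range, Set.mem_Iio] at hi hj
        have key : ∀ i j : ℕ, i < j → j < t + 1 → (y + i * p) % q = (y + j * p) % q → False := by
          intro i j hij hj h
          apply hE (j - i) (by omega) (by omega)
          have h2 : (y + i * p) ≡ (y + j * p) [MOD q] := h
          have h3 := (Nat.modEq_iff_dvd' (by nlinarith)).1 h2
          have e : y + j * p - (y + i * p) = (j - i) * p := by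
            rw [Nat.add_sub_add_left, Nat.sub_mul]
          rwa [e] at h3
        rcases lt_trichotomy i j with h | h | h
        · exact (key i j h hj hij).elim
        · exact h
        · exact (key j i h hi hij.symm).elim
    have h2 : (F.image (· % q)).card ≤ F.card := Finset.card_image_le
    rw [Finset.card_range] at h1
    omega
  obtain ⟨i, hi, hi2⟩ := hex
  rw [Finset.mem_range] at hi
  apply Alive.of_run i
  · intro j hj hm
    exact h ⟨j, by omega, hm⟩
  · apply Alive.good
    intro f hf hfe
    apply hi2
    rw [Finset.mem_image]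
    exact ⟨f, hf, hfe⟩

/-- One can run along alive positions for as long as one likes. -/
lemma Alive.run {F : Finset ℕ} {p q : ℕ} (L : ℕ) : ∀ y : ℕ, Alive F p q y →
    ∃ w : List ℕ, w.length = L ∧ (∀ x ∈ w, x = p ∨ x = q) ∧ AvP (Alive F p q) y w := by
  induction L with
  | zero => intro y _; exact ⟨[], rfl, by simp, trivial⟩
  | succ L ih =>
    intro y hy
    rcases hy.next with h | h
    · obtain ⟨w, h1, h2, h3⟩ := ih _ h
      refine ⟨p :: w, by simp [h1], ?_, h, h3⟩
      intro x hx
      rcases List.mem_cons.1 hx with rfl | hx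
      · left; rfl
      · exact h2 x hx
    · obtain ⟨w, h1, h2, h3⟩ := ih _ h
      refine ⟨q :: w, by simp [h1], ?_, h, h3⟩
      intro x hx
      rcases List.mem_cons.1 hx with rfl | hx
      · right; rfl
      · exact h2 x hx

lemma sum_take_lt (w : List ℕ) (hpos : ∀ x ∈ w, 0 < x) : ∀ i j : ℕ, i < j → j ≤ w.length →
    (w.take i).sum < (w.take j).sum := by
  induction w with
  | nil => intro i j hij hj; simp at hj; omega
  | cons x w ih =>
    intro i j hij hj
    cases j with
    | zero => omega
    | succ j =>
      cases i with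
      | zero =>
        simp only [List.take_zero, List.sum_nil, List.take_succ_cons, List.sum_cons]
        have := hpos x (by simp)
        omega
      | succ i =>
        simp only [List.take_succ_cons, List.sum_cons]
        have := ih (fun z hz => hpos z (by simp [hz])) i j (by omega) (by simpa using hj)
        omega

/-- Dodging: from an alive position, after at most `(DD).card` jumps by `p`,`q` one can
insert the jump `o` and land on an alive position. -/
lemma Alive.dodge {F : Finset ℕ} {p q t : ℕ} (hp : 0 < p) (hq : 0 < q) (hF : F.card ≤ t)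
    (hE : ∀ i, 1 ≤ i → i ≤ t → ¬ q ∣ i * p) (y o : ℕ) (hy : Alive F p q y) :
    ∃ w : List ℕ, w.length ≤ (DD F p t).card ∧ (∀ x ∈ w, x = p ∨ x = q) ∧
      AvP (Alive F p q) y (w ++ [o]) := by
  obtain ⟨w, hw1, hw2, hw3⟩ := Alive.run (DD F p t).card y hy
  have hwpos : ∀ x ∈ w, 0 < x := by
    intro x hx
    rcases hw2 x hx with rfl | rfl <;> assumption
  have hex : ∃ i ∈ Finset.range (w.length + 1), y + (w.take i).sum + o ∉ DD F p t := by
    by_contra hcon
    push Not at hcon
    have h1 : (Finset.range (w.length + 1)).card ≤ (DD F p t).card := by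
      apply Finset.card_le_card_of_injOn (fun i => y + (w.take i).sum + o)
      · intro i hi; exact hcon i hi
      · intro i hi j hj hij
        simp only [Finset.coe_range, Set.mem_Iio] at hi hj
        simp only at hij
        rcases lt_trichotomy i j with h | h | h
        · have := sum_take_lt w hwpos i j h (by omega); omega
        · exact h
        · have := sum_take_lt w hwpos j i h (by omega); omega
    rw [Finset.card_range, hw1] at h1
    omega
  obtain ⟨i, hi, hi2⟩ := hex
  refine ⟨w.take i, ?_, ?_, ?_⟩
  · rw [List.length_take]; omega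
  · intro x hx; exact hw2 x (List.mem_of_mem_take hx)
  · rw [AvP_append]
    have h3 : AvP (Alive F p q) y (w.take i ++ w.drop i) := by rwa [List.take_append_drop]
    rw [AvP_append] at h3
    refine ⟨h3.1, ?_, trivial⟩
    exact Alive.of_not_dd hF hE (fun h => hi2 (dd_mem h))

lemma AvP_last {P : ℕ → Prop} (l : List ℕ) : ∀ y : ℕ, P y → AvP P y l → P (y + l.sum) := by
  induction l with
  | nil => intro y h _; simpa using h
  | cons x l ih =>
    intro y _ hA
    have := ih (y + x) hA.1 hA.2
    simpa [Nat.add_assoc] using this

/-- Placing an arbitrary list of other jobs, using few `p`'s and `q`'s. -/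
lemma Alive.place {F : Finset ℕ} {p q t : ℕ} (hp : 0 < p) (hq : 0 < q) (hF : F.card ≤ t)
    (hE : ∀ i, 1 ≤ i → i ≤ t → ¬ q ∣ i * p) (O : List ℕ) : (∀ x ∈ O, 0 < x) →
    ∀ y : ℕ, Alive F p q y →
    ∃ l w : List ℕ, (l : Multiset ℕ) = (O : Multiset ℕ) + (w : Multiset ℕ) ∧
      (∀ x ∈ w, x = p ∨ x = q) ∧
      w.length ≤ (DD F p t).card * (up (DD F p t) y).card ∧
      AvP (Alive F p q) y l := by
  induction O with
  | nil =>
    intro _ y _
    exact ⟨[], [], by simp, by simp, by simp, trivial⟩
  | cons o O ih =>
    intro hO y hy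
    have ho : 0 < o := hO o (by simp)
    have hO' : ∀ x ∈ O, 0 < x := fun x hx => hO x (by simp [hx])
    by_cases h : Alive F p q (y + o)
    · obtain ⟨l, w, h1, h2, h3, h4⟩ := ih hO' (y + o) h
      refine ⟨o :: l, w, ?_, h2, ?_, h, h4⟩
      · rw [← Multiset.cons_coe, h1, ← Multiset.cons_coe, Multiset.cons_add]
      · apply h3.trans
        apply Nat.mul_le_mul_left
        exact Finset.card_le_card (up_subset (by omega))
    · have hyo : y + o ∈ DD F p t := by
        by_contra hc
        exact h (Alive.of_not_dd hF hE (fun h => hc (dd_mem h)))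
      obtain ⟨v, hv1, hv2, hv3⟩ := Alive.dodge hp hq hF hE y o hy
      have hvne : v ≠ [] := by
        rintro rfl
        exact h hv3.1
      have hvpos : 0 < v.sum := by
        cases v with
        | nil => exact absurd rfl hvne
        | cons a v =>
          have : 0 < a := by rcases hv2 a (by simp) with rfl | rfl <;> assumption
          simp only [List.sum_cons]; omega
      have hal : Alive F p q (y + (v ++ [o]).sum) := AvP_last _ y hy hv3
      obtain ⟨l, w, h1, h2, h3, h4⟩ := ih hO' _ hal
      refine ⟨(v ++ [o]) ++ l, v ++ w, ?_, ?_, ?_, ?_⟩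
      · have e1 : ((v ++ [o] : List ℕ) : Multiset ℕ) = (v : Multiset ℕ) + {o} := by
          rw [← Multiset.coe_add]; rfl
        have e2 : ((o :: O : List ℕ) : Multiset ℕ) = {o} + (O : Multiset ℕ) := by
          rw [Multiset.singleton_add]; rfl
        rw [← Multiset.coe_add (v ++ [o]) l, h1, e1, e2, ← Multiset.coe_add v w]
        abel
      · intro x hx
        rcases List.mem_append.1 hx with hx | hx
        · exact hv2 x hx
        · exact h2 x hx
      · rw [List.length_append]
        have hup : (up (DD F p t) (y + (v ++ [o]).sum)).card + 1 ≤ (up (DD F p t) y).card := by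
          have hyo' : y + o ∈ up (DD F p t) y := mem_up.2 ⟨hyo, by omega⟩
          have hsub : up (DD F p t) (y + (v ++ [o]).sum) ⊆ (up (DD F p t) y).erase (y + o) := by
            intro z hz
            rw [mem_up] at hz
            rw [Finset.mem_erase, mem_up]
            have : (v ++ [o]).sum = v.sum + o := by simp
            refine ⟨by omega, hz.1, by omega⟩
          have h1 := Finset.card_le_card hsub
          rw [Finset.card_erase_of_mem hyo'] at h1
          have : 0 < (up (DD F p t) y).card := Finset.card_pos.2 ⟨_, hyo'⟩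
          omega
        calc v.length + w.length ≤ (DD F p t).card +
              (DD F p t).card * (up (DD F p t) (y + (v ++ [o]).sum)).card := by omega
          _ = (DD F p t).card * ((up (DD F p t) (y + (v ++ [o]).sum)).card + 1) := by ring
          _ ≤ _ := Nat.mul_le_mul_left _ hup
      · rw [AvP_append]
        exact ⟨hv3, h4⟩

/-- Greedy path preferring the jump `r`: exactly `b` jumps `r` and few jumps `s`. -/
lemma greedy_abs (A : ℕ → Prop) (D : Finset ℕ) (r s : ℕ) (hr : 0 < r) (hs : 0 < s) (hrs : r ≠ s)
    (hnext : ∀ y, A y → A (y + r) ∨ A (y + s)) (hD : ∀ y, ¬ A y → y ∈ D) (n : ℕ) :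
    ∀ (b y : ℕ), b + (D.filter (fun z => y + r ≤ z)).card ≤ n → A y →
    ∃ w : List ℕ, (∀ x ∈ w, x = r ∨ x = s) ∧ w.count r = b ∧
      w.count s ≤ (D.filter (fun z => y + r ≤ z)).card ∧ AvP A y w := by
  induction n with
  | zero =>
    intro b y hb _
    exact ⟨[], by simp, by simp; omega, by simp, trivial⟩
  | succ n ih =>
    intro b y hb hy
    cases b with
    | zero => exact ⟨[], by simp, by simp, by simp, trivial⟩
    | succ b =>
      by_cases h : A (y + r)
      · have hsub : D.filter (fun z => y + r + r ≤ z) ⊆ D.filter (fun z => y + r ≤ z) := by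
          intro z hz
          rw [Finset.mem_filter] at hz ⊢
          exact ⟨hz.1, by omega⟩
        have hc := Finset.card_le_card hsub
        obtain ⟨w, h1, h2, h3, h4⟩ := ih b (y + r) (by omega) h
        refine ⟨r :: w, ?_, ?_, ?_, h, h4⟩
        · intro x hx
          rcases List.mem_cons.1 hx with rfl | hx
          · left; rfl
          · exact h1 x hx
        · rw [List.count_cons_self, h2]
        · rw [List.count_cons_of_ne (by omega)]
          omega
      · have hyq : y + r ∈ D := hD _ h
        have hp' : A (y + s) := by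
          rcases hnext y hy with h' | h'
          · exact absurd h' h
          · exact h'
        have hmem : y + r ∈ D.filter (fun z => y + r ≤ z) := by
          rw [Finset.mem_filter]; exact ⟨hyq, le_refl _⟩
        have hsub : D.filter (fun z => y + s + r ≤ z) ⊆
            (D.filter (fun z => y + r ≤ z)).erase (y + r) := by
          intro z hz
          rw [Finset.mem_filter] at hz
          rw [Finset.mem_erase, Finset.mem_filter]
          exact ⟨by omega, hz.1, by omega⟩
        have hc := Finset.card_le_card hsub
        rw [Finset.card_erase_of_mem hmem] at hc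
        have hpos : 0 < (D.filter (fun z => y + r ≤ z)).card :=
          Finset.card_pos.2 ⟨_, hmem⟩
        obtain ⟨w, h1, h2, h3, h4⟩ := ih (b + 1) (y + s) (by omega) hp'
        refine ⟨s :: w, ?_, ?_, ?_, hp', h4⟩
        · intro x hx
          rcases List.mem_cons.1 hx with rfl | hx
          · right; rfl
          · exact h1 x hx
        · rw [List.count_cons_of_ne (by omega)]
          exact h2
        · rw [List.count_cons_self]
          omega

/-- Discrete intermediate value theorem. -/
lemma divt (f : ℕ → ℤ) (n : ℕ) (h0 : f 0 ≤ 0) (hn : 0 ≤ f n)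
    (hs : ∀ k < n, f (k + 1) ≤ f k + 1) : ∃ k ≤ n, f k = 0 := by
  by_contra hcon
  push Not at hcon
  have : ∀ k ≤ n, f k < 0 := by
    intro k
    induction k with
    | zero => intro _; exact lt_of_le_of_ne h0 (hcon 0 (by omega))
    | succ k ih =>
      intro hk
      have h1 := ih (by omega)
      have h2 := hs k (by omega)
      exact lt_of_le_of_ne (by omega) (hcon (k + 1) hk)
  have := this n le_rfl
  omega

lemma count_add_count (p q : ℕ) (hpq : p ≠ q) (w : List ℕ) : (∀ x ∈ w, x = p ∨ x = q) →
    w.count p + w.count q = w.length := by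
  induction w with
  | nil => intro _; simp
  | cons x w ih =>
    intro h
    have h1 := ih (fun z hz => h z (by simp [hz]))
    rcases h x (by simp) with rfl | rfl
    · rw [List.count_cons_self, List.count_cons_of_ne hpq, List.length_cons]
      omega
    · rw [List.count_cons_self, List.count_cons_of_ne hpq.symm, List.length_cons]
      omega

lemma sum_two (p q : ℕ) (hpq : p ≠ q) (w : List ℕ) : (∀ x ∈ w, x = p ∨ x = q) →
    w.sum = w.count p * p + w.count q * q := by
  induction w with
  | nil => intro _; simp
  | cons x w ih =>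
    intro h
    have h1 := ih (fun z hz => h z (by simp [hz]))
    rcases h x (by simp) with rfl | rfl
    · rw [List.count_cons_self, List.count_cons_of_ne hpq, List.sum_cons, h1]
      ring
    · rw [List.count_cons_self, List.count_cons_of_ne hpq.symm, List.sum_cons, h1]
      ring

lemma count_take_succ_le (p : ℕ) (w : List ℕ) (m : ℕ) :
    (w.take (m + 1)).count p ≤ (w.take m).count p + 1 := by
  induction w generalizing m with
  | nil => simp
  | cons x w ih =>
    cases m with
    | zero =>
      simp only [zero_add, List.take_succ_cons, List.take_zero, List.count_nil, List.count_cons]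
      split_ifs <;> omega
    | succ m =>
      simp only [List.take_succ_cons, List.count_cons]
      have := ih m
      omega

lemma count_take_le_succ (p : ℕ) (w : List ℕ) (m : ℕ) :
    (w.take m).count p ≤ (w.take (m + 1)).count p := by
  induction w generalizing m with
  | nil => simp
  | cons x w ih =>
    cases m with
    | zero => simp
    | succ m =>
      simp only [List.take_succ_cons, List.count_cons]
      have := ih m
      omega

/-- Two monotone lattice paths cross. -/
lemma crossing (p q : ℕ) (hpq : p ≠ q) (w1 w2 : List ℕ) (h1 : ∀ x ∈ w1, x = p ∨ x = q)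
    (h2 : ∀ x ∈ w2, x = p ∨ x = q) (hb : w2.count q ≤ w1.count q)
    (ha : w1.count p ≤ w2.count p) :
    ∃ m1 m2 : ℕ, m1 ≤ w1.length ∧ m2 ≤ w2.length ∧
      (w1.take m1).count p = (w2.take m2).count p ∧
      (w1.take m1).count q = (w1.count q - w2.count q) + (w2.take m2).count q := by
  set c := w1.count q - w2.count q with hc
  have hl1 := count_add_count p q hpq w1 h1
  have hl2 := count_add_count p q hpq w2 h2
  obtain ⟨k, hk, hk0⟩ := divt
    (fun m => ((w2.take m).count p : ℤ) - ((w1.take (c + m)).count p : ℤ))
    (w1.count p + w2.count q) (by simp) (by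
      have e1 : w1.take (c + (w1.count p + w2.count q)) = w1 := by
        apply List.take_of_length_le; omega
      simp only [e1]
      have h3 : ∀ x ∈ w2.take (w1.count p + w2.count q), x = p ∨ x = q :=
        fun x hx => h2 x (List.mem_of_mem_take hx)
      have h4 := count_add_count p q hpq _ h3
      rw [List.length_take] at h4
      have h5 : (w2.take (w1.count p + w2.count q)).count q ≤ w2.count q :=
        List.Sublist.count_le _ (List.take_sublist _ _)
      omega) (by
      intro m _
      have h3 := count_take_succ_le p w2 m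
      have h4 := count_take_le_succ p w1 (c + m)
      simp only [← Nat.add_assoc]
      omega)
  refine ⟨c + k, k, by omega, by omega, by omega, ?_⟩
  have h3 := count_add_count p q hpq (w1.take (c + k))
    (fun x hx => h1 x (List.mem_of_mem_take hx))
  have h4 := count_add_count p q hpq (w2.take k)
    (fun x hx => h2 x (List.mem_of_mem_take hx))
  rw [List.length_take] at h3 h4
  omega

/-- Reflection of the forbidden set. -/
def refl (P : ℕ) (F : Finset ℕ) : Finset ℕ := (F.filter (· ≤ P)).image (fun f => P - f)

lemma mem_refl {P : ℕ} {F : Finset ℕ} {z : ℕ} (hz : z ≤ P) : z ∈ refl P F ↔ P - z ∈ F := by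
  rw [refl, Finset.mem_image]
  constructor
  · rintro ⟨f, hf, rfl⟩
    rw [Finset.mem_filter] at hf
    have : P - (P - f) = f := by omega
    rw [this]; exact hf.1
  · intro h
    exact ⟨P - z, Finset.mem_filter.2 ⟨h, by omega⟩, by omega⟩

lemma refl_card (P : ℕ) (F : Finset ℕ) : (refl P F).card ≤ F.card :=
  Finset.card_image_le.trans (Finset.card_filter_le _ _)

lemma Av_reverse {P : ℕ} {F : Finset ℕ} (l : List ℕ) : ∀ y z : ℕ, y + l.sum + z = P →
    y + l.sum ∉ F → Av (refl P F) z l.reverse → Av F y l ∧ y ∉ F := by
  induction l with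
  | nil => intro y z _ h _; exact ⟨trivial, by simpa using h⟩
  | cons x l ih =>
    intro y z hP hy hA
    rw [List.reverse_cons, Av_append] at hA
    obtain ⟨hA1, hA2⟩ := hA
    simp only [List.sum_cons] at hP hy
    have h1 := ih (y + x) z (by omega) (by rwa [Nat.add_assoc]) hA1
    refine ⟨⟨h1.2, h1.1⟩, ?_⟩
    simp only [Av_cons, Av_nil, and_true, List.sum_reverse] at hA2
    rw [mem_refl (by omega)] at hA2
    have : P - (z + l.sum + x) = y := by omega
    rwa [this] at hA2

lemma Av_take {F : Finset ℕ} {y : ℕ} {l : List ℕ} (h : Av F y l) (m : ℕ) :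
    Av F y (l.take m) ∧ Av F (y + (l.take m).sum) (l.drop m) := by
  have : Av F y (l.take m ++ l.drop m) := by rwa [List.take_append_drop]
  rwa [Av_append] at this

/-- The two dimensional path lemma. -/
lemma grid {F : Finset ℕ} {p q t P : ℕ} (hp : 0 < p) (hq : 0 < q) (hpq : p ≠ q)
    (hF : F.card ≤ t) (hE : ∀ i, 1 ≤ i → i ≤ t → ¬ q ∣ i * p) (y z a b : ℕ)
    (hy : Alive F p q y) (hz : Alive (refl P F) p q z) (hP : y + (a * p + b * q) + z = P)
    (ha : t * (t + 1) ≤ a) (hb : t * (t + 1) ≤ b) :
    ∃ l : List ℕ, (∀ x ∈ l, x = p ∨ x = q) ∧ l.count p = a ∧ l.count q = b ∧ Av F y l := by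
  have hF' : (refl P F).card ≤ t := (refl_card P F).trans hF
  have hD1 : (DD F p t).card ≤ t * (t + 1) :=
    (DD_card F p t).trans (Nat.mul_le_mul_right _ hF)
  have hD2 : (DD (refl P F) p t).card ≤ t * (t + 1) :=
    (DD_card _ p t).trans (Nat.mul_le_mul_right _ hF')
  -- forward path preferring q
  obtain ⟨w1, h11, h12, h13, h14⟩ := greedy_abs (Alive F p q) (DD F p t) q p hq hp hpq.symm
    (fun y hy => hy.next.symm) (fun y hy => by
      by_contra hc
      exact hy (Alive.of_not_dd hF hE (fun h => hc (dd_mem h)))) _ b y le_rfl hy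
  -- backward path preferring p
  obtain ⟨w2, h21, h22, h23, h24⟩ := greedy_abs (Alive (refl P F) p q) (DD (refl P F) p t) p q
    hp hq hpq (fun y hy => hy.next) (fun y hy => by
      by_contra hc
      exact hy (Alive.of_not_dd hF' hE (fun h => hc (dd_mem h)))) _ a z le_rfl hz
  have h13' : w1.count p ≤ t * (t + 1) :=
    h13.trans ((Finset.card_filter_le _ _).trans hD1)
  have h23' : w2.count q ≤ t * (t + 1) :=
    h23.trans ((Finset.card_filter_le _ _).trans hD2)
  have h11' : ∀ x ∈ w1, x = p ∨ x = q := fun x hx => (h11 x hx).symm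
  have h21' : ∀ x ∈ w2.reverse, x = p ∨ x = q := fun x hx => h21 x (List.mem_reverse.1 hx)
  have hcp : w2.reverse.count p = a := by rw [List.count_reverse, h22]
  have hcq : w2.reverse.count q = w2.count q := List.count_reverse
  obtain ⟨m1, m2, hm1, hm2, hm3, hm4⟩ := crossing p q hpq w1 w2.reverse h11' h21'
    (by rw [hcq, h12]; omega) (by rw [hcp]; omega)
  rw [hcq, h12] at hm4
  have hAv1 : Av F y w1 := AvP_Av (fun z hz => Alive.not_mem hz) w1 y h14
  have hs2 : w2.reverse.sum = a * p + w2.count q * q := by
    rw [sum_two p q hpq _ h21', hcp, hcq]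
  have hzP : P - z ∉ F := by
    have := hz.not_mem
    rwa [mem_refl (by omega)] at this
  have hAv2 : Av F (y + (b - w2.count q) * q) w2.reverse ∧ y + (b - w2.count q) * q ∉ F := by
    apply Av_reverse (P := P) w2.reverse _ z
    · rw [hs2, ← hP]
      have : (b - w2.count q) * q + w2.count q * q = b * q := by
        rw [← Nat.add_mul]; congr 1; omega
      omega
    · rw [hs2]
      have : (b - w2.count q) * q + w2.count q * q = b * q := by
        rw [← Nat.add_mul]; congr 1; omega
      have e : y + (b - w2.count q) * q + (a * p + w2.count q * q) = P - z := by omega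
      rw [e]; exact hzP
    · rw [List.reverse_reverse]
      exact AvP_Av (fun z hz => Alive.not_mem hz) w2 z h24
  have h5 := Av_take hAv1 m1
  have h6 := Av_take hAv2.1 m2
  refine ⟨w1.take m1 ++ w2.reverse.drop m2, ?_, ?_, ?_, ?_⟩
  · intro x hx
    rcases List.mem_append.1 hx with hx | hx
    · exact h11' x (List.mem_of_mem_take hx)
    · exact h21' x (List.mem_of_mem_drop hx)
  · rw [List.count_append, hm3, ← List.count_append, List.take_append_drop, hcp]
  · rw [List.count_append, hm4]
    have : (w2.reverse.take m2).count q + (w2.reverse.drop m2).count q = w2.count q := by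
      rw [← List.count_append, List.take_append_drop, hcq]
    omega
  · rw [Av_append]
    refine ⟨h5.1, ?_⟩
    have e1 : (w1.take m1).sum = (w1.take m1).count p * p + (w1.take m1).count q * q :=
      sum_two p q hpq _ (fun x hx => h11' x (List.mem_of_mem_take hx))
    have e2 : (w2.reverse.take m2).sum =
        (w2.reverse.take m2).count p * p + (w2.reverse.take m2).count q * q :=
      sum_two p q hpq _ (fun x hx => h21' x (List.mem_of_mem_take hx))
    have e3 : y + (w1.take m1).sum =
        y + (b - w2.count q) * q + (w2.reverse.take m2).sum := by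
      rw [e1, e2, hm3, hm4]; ring
    rw [e3]
    exact h6.2

/-- The good pair theorem: if `p`, `q` are plentiful and `i * p` is never divisible by `q` for
`1 ≤ i ≤ t`, then it suffices to get started and to get finished. -/
theorem gp_main {F : Finset ℕ} {p q t : ℕ} (hp : 0 < p) (hq : 0 < q) (hpq : p ≠ q)
    (hF : F.card ≤ t) (hE : ∀ i, 1 ≤ i → i ≤ t → ¬ q ∣ i * p)
    (S E : List ℕ) (M : Multiset ℕ) (hM : ∀ x ∈ M, 0 < x)
    (hend : S.sum + E.sum + M.sum ∉ F)
    (hS : Av F 0 S) (hS' : Alive F p q S.sum)
    (hE1 : Av (refl (S.sum + E.sum + M.sum) F) 0 E)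
    (hE2 : Alive (refl (S.sum + E.sum + M.sum) F) p q E.sum)
    (hMp : (t * (t + 1)) ^ 2 + t * (t + 1) ≤ M.count p)
    (hMq : (t * (t + 1)) ^ 2 + t * (t + 1) ≤ M.count q) :
    ∃ l : List ℕ, (l : Multiset ℕ) = (S : Multiset ℕ) + (E : Multiset ℕ) + M ∧ Av F 0 l := by
  have hD1 : (DD F p t).card ≤ t * (t + 1) :=
    (DD_card F p t).trans (Nat.mul_le_mul_right _ hF)
  set P := S.sum + E.sum + M.sum with hPdef
  -- decompose M
  set O := (M.filter (fun x => ¬ (x = p ∨ x = q))) with hO
  have hMdec : M = O + Multiset.replicate (M.count p) p + Multiset.replicate (M.count q) q := by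
    ext x
    rw [Multiset.count_add, Multiset.count_add, Multiset.count_replicate,
      Multiset.count_replicate, hO, Multiset.count_filter]
    by_cases h1 : x = p
    · subst h1
      simp [hpq.symm]
    · by_cases h2 : x = q
      · subst h2
        simp [Ne.symm h1]
      · simp [h1, h2, Ne.symm h1, Ne.symm h2]
  have hOpos : ∀ x ∈ O.toList, 0 < x := by
    intro x hx
    rw [Multiset.mem_toList, hO, Multiset.mem_filter] at hx
    exact hM x hx.1
  obtain ⟨l1, w1, h1, h2, h3, h4⟩ := Alive.place hp hq hF hE O.toList hOpos _ hS'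
  rw [Multiset.coe_toList] at h1
  have hw := count_add_count p q hpq w1 h2
  have hlen : w1.length ≤ (t * (t + 1)) ^ 2 := by
    apply h3.trans
    rw [pow_two]
    apply Nat.mul_le_mul hD1
    exact (Finset.card_filter_le _ _).trans hD1
  have hal : Alive F p q (S.sum + l1.sum) := AvP_last _ _ hS' h4
  set a := M.count p - w1.count p with ha
  set b := M.count q - w1.count q with hb
  have hl1sum : l1.sum = O.sum + (w1.count p * p + w1.count q * q) := by
    have := congrArg Multiset.sum h1
    rw [Multiset.sum_add, Multiset.sum_coe, Multiset.sum_coe, sum_two p q hpq w1 h2] at this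
    exact this
  have hMsum : M.sum = O.sum + M.count p * p + M.count q * q := by
    conv_lhs => rw [hMdec]
    rw [Multiset.sum_add, Multiset.sum_add, Multiset.sum_replicate, Multiset.sum_replicate]
    simp
  have ea : a * p + w1.count p * p = M.count p * p := by
    rw [← Nat.add_mul]; congr 1; omega
  have eb : b * q + w1.count q * q = M.count q * q := by
    rw [← Nat.add_mul]; congr 1; omega
  obtain ⟨l2, g1, g2, g3, g4⟩ := grid (P := P) hp hq hpq hF hE (S.sum + l1.sum) E.sum a b hal hE2
    (by rw [hl1sum, hPdef, hMsum]; omega) (by omega) (by omega)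
  have hl2sum : l2.sum = a * p + b * q := by rw [sum_two p q hpq l2 g1, g2, g3]
  refine ⟨S ++ (l1 ++ (l2 ++ E.reverse)), ?_, ?_⟩
  · have e1 : (l2 : Multiset ℕ) = Multiset.replicate a p + Multiset.replicate b q := by
      ext x
      rw [Multiset.count_add, Multiset.count_replicate, Multiset.count_replicate,
        Multiset.coe_count]
      by_cases hxp : x = p
      · subst hxp; simp [hpq.symm, g2]
      · by_cases hxq : x = q
        · subst hxq; simp [Ne.symm hxp, g3]
        · rw [List.count_eq_zero_of_not_mem]
          · simp [Ne.symm hxp, Ne.symm hxq]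
          · intro hx
            rcases g1 x hx with h | h
            · exact hxp h
            · exact hxq h
    have e2 : (w1 : Multiset ℕ) =
        Multiset.replicate (w1.count p) p + Multiset.replicate (w1.count q) q := by
      ext x
      rw [Multiset.count_add, Multiset.count_replicate, Multiset.count_replicate,
        Multiset.coe_count]
      by_cases hxp : x = p
      · subst hxp; simp [hpq.symm]
      · by_cases hxq : x = q
        · subst hxq; simp [Ne.symm hxp]
        · rw [List.count_eq_zero_of_not_mem]
          · simp [Ne.symm hxp, Ne.symm hxq]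
          · intro hx
            rcases h2 x hx with h | h
            · exact hxp h
            · exact hxq h
    have e3 : Multiset.replicate a p + Multiset.replicate (w1.count p) p =
        Multiset.replicate (M.count p) p := by
      rw [← Multiset.replicate_add]; congr 1; omega
    have e4 : Multiset.replicate b q + Multiset.replicate (w1.count q) q =
        Multiset.replicate (M.count q) q := by
      rw [← Multiset.replicate_add]; congr 1; omega
    rw [← Multiset.coe_add, ← Multiset.coe_add, ← Multiset.coe_add, Multiset.coe_reverse, h1, e1,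
      e2]
    conv_rhs => rw [hMdec, ← e3, ← e4]
    abel
  · rw [Av_append, Av_append, Av_append]
    refine ⟨hS, ?_, ?_, ?_⟩
    · rw [Nat.zero_add]
      exact AvP_Av (fun z hz => Alive.not_mem hz) l1 _ h4
    · rw [Nat.zero_add]; exact g4
    · have e : 0 + S.sum + l1.sum + l2.sum + E.reverse.sum + 0 = P := by
        rw [List.sum_reverse, hl2sum, hl1sum, hPdef, hMsum]
        omega
      apply (Av_reverse (P := P) E.reverse _ 0 e ?_ ?_).1
      · have e' : 0 + S.sum + l1.sum + l2.sum + E.reverse.sum = P := by omega
        rw [e']; exact hend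
      · rw [List.reverse_reverse]; exact hE1

end Pool.Agent.H628R2.Forb
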