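import Pool.Agent.KS6_49.L8.H628R2.Forb.Sched
import Pool.Agent.KS6_49.L8.NPC.Num

set_option autoImplicit false

namespace Pool.Agent.NPC.H628F

open Pool.Agent.H628R2.Forb

variable {α β γ : Type} [TEnc α] [TEnc β] [TEnc γ]

lemma sz_sublist {l l' : List β} (h : l.Sublist l') : sz l ≤ sz l' := by
  induction h with
  | slnil => exact le_rfl
  | cons a _ ih => rw [sz_list_cons]; omega
  | cons_cons a _ ih => rw [sz_list_cons, sz_list_cons]; omega

theorem p_fst : Poly (fun x : α × β => x.1) := Poly.fst Poly.id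
theorem p_snd : Poly (fun x : α × β => x.2) := Poly.snd Poly.id

theorem p_take {l : α → List β} {n : α → ℕ} (hl : Poly l) (hn : Poly n) :
    Poly (fun a => (l a).take (n a)) := by
  refine (Poly.map (F := fun _ (p : β × ℕ) => p.1)
    (Poly.filter (p := fun a (p : β × ℕ) => decide (p.2 < n a)) (Poly.zipIdx hl)
      (Poly.decide_lt (Poly.snd p_snd) (hn.comp p_fst))) (Poly.fst p_snd)).congr fun a => ?_
  have key : ∀ (l : List β) (n k : ℕ), ((l.zipIdx k).filter
      (fun p : β × ℕ => decide (p.2 < n + k))).map (fun p => p.1) = l.take n := by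
    intro l
    induction l with
    | nil => intro n k; simp
    | cons b l ih =>
      intro n k
      cases n with
      | zero =>
        simp only [List.take_zero, List.map_eq_nil_iff, List.filter_eq_nil_iff, Nat.zero_add,
          decide_eq_true_eq, not_lt]
        intro p hp
        obtain ⟨i, hi⟩ := p
        have := (List.mem_zipIdx hp).1
        exact this
      | succ n =>
        have := ih n (k + 1)
        rw [List.zipIdx_cons, List.filter_cons]
        have hlt : k < n + 1 + k := by omega
        simp only [hlt, decide_true, if_true, List.map_cons, List.take_succ_cons]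
        rw [← this]
        congr 3
        funext p
        simp only [decide_eq_decide]
        omega
  have := key (l a) (n a) 0
  simpa using this

theorem p_cnt {x : α → ℕ} {l : α → List ℕ} (hx : Poly x) (hl : Poly l) :
    Poly (fun a => cnt (x a) (l a)) :=
  Poly.length (Poly.filter (p := fun a y => decide (y = x a)) hl
    (Poly.decide_eq p_snd (hx.comp p_fst)))

theorem p_ded {l : α → List ℕ} (hl : Poly l) : Poly (fun a => ded (l a)) := by
  obtain ⟨r, hr⟩ := hl.sz_le
  have key : ∀ (l s : List ℕ),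
      sz (l.foldl (fun s a => if a ∈ s then s else a :: s) s) ≤ sz s + sz l := by
    intro l
    induction l with
    | nil => intro s; simp
    | cons x l ih =>
      intro s
      rw [List.foldl_cons, sz_list_cons]
      refine (ih _).trans ?_
      split_ifs
      · omega
      · rw [sz_list_cons]; omega
  refine (Poly.foldl (s := fun _ => ([] : List ℕ)) (F := fun _ s a => if a ∈ s then s else a :: s)
    hl (Poly.const _) ?_ (Polynomial.C 1 + r) ?_).congr fun a => rfl
  · exact Poly.ite (Poly.decide_mem (Poly.snd p_snd) (Poly.fst p_snd)) (Poly.fst p_snd)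
      (Poly.cons (Poly.snd p_snd) (Poly.fst p_snd))
  · intro a k hk
    refine (key _ _).trans ?_
    have h1 := Poly.sz_take_le (l a) k
    have h2 := hr a
    simp only [sz_list_nil, Polynomial.eval_add, Polynomial.eval_C]
    omega

lemma enum_length (K : List ℕ) (n : ℕ) : (enum K n).length ≤ (K.length + 1) ^ n := by
  induction n with
  | zero => simp [enum]
  | succ n ih =>
    rw [enum_succ, List.length_cons, List.length_flatMap]
    simp only [List.length_map, List.map_const', List.sum_replicate, smul_eq_mul]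
    have h1 : 1 ≤ (K.length + 1) ^ n := Nat.one_le_pow _ _ (by omega)
    calc K.length * (enum K n).length + 1 ≤ K.length * (K.length + 1) ^ n + (K.length + 1) ^ n :=
          Nat.add_le_add (Nat.mul_le_mul_left _ ih) h1
      _ = (K.length + 1) ^ (n + 1) := by ring

lemma enum_sz (K : List ℕ) (n : ℕ) :
    sz (enum K n) ≤ (enum K n).length * (n * (sz K + 1) + 2) + 1 := by
  have := sz_le_length_mul (enum K n) (n * (sz K + 1) + 1) (by
    intro l hl
    rw [mem_enum] at hl
    have h1 := sz_le_length_mul l (sz K) (fun x hx => (sz_le_of_mem (hl.2 x hx)).le)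
    have h2 : l.length * (sz K + 1) ≤ n * (sz K + 1) := Nat.mul_le_mul_right _ hl.1
    omega)
  exact this

/-- a unary number is bounded polynomially -/
lemma UPoly.le {n : α → ℕ} (hn : UPoly n) : ∃ r : Polynomial ℕ, ∀ a, n a ≤ r.eval (sz a) := by
  obtain ⟨r, hr⟩ := Poly.sz_le hn
  refine ⟨r, fun a => ?_⟩
  have h1 := hr a
  have h2 := length_lt_sz (List.replicate (n a) ())
  rw [List.length_replicate] at h2
  omega

theorem p_enum {K : α → List ℕ} {n N : α → ℕ} (hK : Poly K) (hn : UPoly n) (hN : UPoly N)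
    (hb : ∀ a, ((K a).length + 1) ^ (n a) ≤ N a) : Poly (fun a => enum (K a) (n a)) := by
  obtain ⟨rK, hrK⟩ := hK.sz_le
  obtain ⟨rn, hrn⟩ := UPoly.le hn
  obtain ⟨rN, hrN⟩ := UPoly.le hN
  refine Poly.foldl (l := fun a => List.range (n a)) (s := fun _ => ([[]] : List (List ℕ)))
    (F := fun a ss _ => [] :: (K a).flatMap (fun x => ss.map (fun s => x :: s)))
    hn.range (Poly.const _) ?_ (rN * (rn * (rK + Polynomial.C 1) + Polynomial.C 2) + Polynomial.C 1)
    ?_
  · refine Poly.cons (Poly.const _) (Poly.flatMap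
      (F := fun (a : α × List (List ℕ) × ℕ) (x : ℕ) => a.2.1.map (fun s => x :: s))
      (hK.comp p_fst) ?_)
    exact Poly.map (F := fun (a : (α × List (List ℕ) × ℕ) × ℕ) (s : List ℕ) => a.2 :: s)
      (Poly.fst (Poly.snd p_fst)) (Poly.cons (Poly.snd p_fst) p_snd)
  · intro a k hk
    rw [List.length_range] at hk
    rw [List.take_range, Nat.min_eq_left hk]
    change sz (enum (K a) k) ≤ _
    refine (enum_sz _ _).trans ?_
    have h1 : (enum (K a) k).length ≤ rN.eval (sz a) := by
      refine (enum_length _ _).trans (le_trans ?_ ((hb a).trans (hrN a)))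
      exact Nat.pow_le_pow_right (by omega) hk
    have h2 : k * (sz (K a) + 1) + 2 ≤ rn.eval (sz a) * (rK.eval (sz a) + 1) + 2 := by
      have := Nat.mul_le_mul (hk.trans (hrn a)) (Nat.add_le_add_right (hrK a) 1)
      omega
    simp only [Polynomial.eval_add, Polynomial.eval_mul, Polynomial.eval_C]
    exact Nat.add_le_add_right (Nat.mul_le_mul h1 h2) 1

lemma avb_fold (F : List ℕ) (l : List ℕ) : ∀ (y : ℕ) (b : Bool),
    (l.foldl (fun s x => (s.1 + x, s.2 && !decide (s.1 + x ∈ F))) (y, b)).1 = y + l.sum := by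
  induction l with
  | nil => intro y b; simp
  | cons x l ih => intro y b; rw [List.foldl_cons, ih, List.sum_cons]; omega

lemma sum_take_le (l : List ℕ) (k : ℕ) : (l.take k).sum ≤ l.sum := by
  conv_rhs => rw [← List.take_append_drop k l, List.sum_append]
  omega

theorem p_avb {F l : α → List ℕ} {y : α → ℕ} (hF : Poly F) (hy : Poly y) (hl : Poly l) :
    Poly (fun a => avb (F a) (y a) (l a)) := by
  obtain ⟨r, hr⟩ := (Poly.add hy (Poly.sum hl)).sz_le
  refine Poly.snd (Poly.foldl (l := l) (s := fun a => (y a, true))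
    (F := fun a s x => (s.1 + x, s.2 && !decide (s.1 + x ∈ F a))) hl (Poly.pair hy (Poly.const _))
    ?_ (Polynomial.C 2 * r + Polynomial.C 4) ?_)
  · have h1 : Poly (fun p : α × (ℕ × Bool) × ℕ => p.2.1.1 + p.2.2) :=
      Poly.add (Poly.fst (Poly.fst p_snd)) (Poly.snd p_snd)
    exact Poly.pair h1 (Poly.and (Poly.snd (Poly.fst p_snd))
      (Poly.not (Poly.decide_mem h1 (hF.comp p_fst))))
  · intro a k hk
    set s := ((l a).take k).foldl (fun s x => (s.1 + x, s.2 && !decide (s.1 + x ∈ F a))) (y a, true)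
      with hs
    have h1 : s.1 = y a + ((l a).take k).sum := avb_fold _ _ _ _
    have h2 : sz s.1 ≤ 2 * sz (y a + (l a).sum) := by
      apply sz_nat_mono_le
      rw [h1]
      have := sum_take_le (l a) k
      omega
    have h3 := hr a
    have h4 := sz_bool_le s.2
    have h5 : sz s = sz s.1 + sz s.2 + 1 := sz_pair s.1 s.2
    rw [h5]
    simp only [Polynomial.eval_add, Polynomial.eval_mul, Polynomial.eval_C]
    omega

theorem p_reflL {P : α → ℕ} {F : α → List ℕ} (hP : Poly P) (hF : Poly F) :
    Poly (fun a => reflL (P a) (F a)) :=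
  Poly.map (F := fun a f => P a - f)
    (Poly.filter (p := fun a f => decide (f ≤ P a)) hF (Poly.decide_le p_snd (hP.comp p_fst)))
    (Poly.sub (hP.comp p_fst) p_snd)

theorem p_gpb {B : α → List ℕ} {t : α → ℕ} (hB : Poly B) (ht : UPoly t) :
    Poly (fun a => gpb (B a) (t a)) := by
  refine Poly.any (p := fun a p => (B a).any (fun q => decide (p < q) &&
    (List.range (t a)).all (fun i => (List.range (t a)).all (fun j =>
      !decide ((i + 1) * p = (j + 1) * q))))) hB ?_
  refine Poly.any (p := fun (a : α × ℕ) q => decide (a.2 < q) &&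
    (List.range (t a.1)).all (fun i => (List.range (t a.1)).all (fun j =>
      !decide ((i + 1) * a.2 = (j + 1) * q)))) (hB.comp p_fst) ?_
  refine Poly.and (Poly.decide_lt (Poly.snd p_fst) p_snd) ?_
  refine Poly.all (p := fun (a : (α × ℕ) × ℕ) i => (List.range (t a.1.1)).all (fun j =>
      !decide ((i + 1) * a.1.2 = (j + 1) * a.2))) (ht.range.comp (Poly.fst p_fst)) ?_
  refine Poly.all (p := fun (a : ((α × ℕ) × ℕ) × ℕ) j =>
      !decide ((a.2 + 1) * a.1.1.2 = (j + 1) * a.1.2)) (ht.range.comp (Poly.fst (Poly.fst p_fst))) ?_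
  refine Poly.not (Poly.decide_eq ?_ ?_)
  · exact Poly.mul (Poly.succ (Poly.snd p_fst)) (Poly.snd (Poly.fst (Poly.fst p_fst)))
  · exact Poly.mul (Poly.succ p_snd) (Poly.snd (Poly.fst p_fst))

theorem u_LL {t : α → ℕ} (ht : UPoly t) : UPoly (fun a => LL (t a)) :=
  UPoly.mul ht (UPoly.add ht (UPoly.const 1))

theorem u_GG {t : α → ℕ} (ht : UPoly t) : UPoly (fun a => GG (t a)) := by
  have h1 : UPoly (fun a => t a * (t a + 1)) := UPoly.mul ht (UPoly.add ht (UPoly.const 1))
  have h2 : UPoly (fun a => (t a * (t a + 1)) * (t a * (t a + 1)) + 3 * (t a * (t a + 1)) +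
      (t a + (t a + 1) * (t a + 1))) :=
    UPoly.add (UPoly.add (UPoly.mul h1 h1) (UPoly.mul (UPoly.const 3) h1))
      (UPoly.add ht (UPoly.mul (UPoly.add ht (UPoly.const 1)) (UPoly.add ht (UPoly.const 1))))
  have e : (fun a => GG (t a)) = (fun a => (t a * (t a + 1)) * (t a * (t a + 1)) +
      3 * (t a * (t a + 1)) + (t a + (t a + 1) * (t a + 1))) := by
    funext a
    simp only [GG, pow_two]
  rw [e]
  exact h2

theorem p_gpdec {J F K : α → List ℕ} {t N : α → ℕ} (hJ : Poly J) (hF : Poly F) (hK : Poly K)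
    (ht : UPoly t) (hN : UPoly N) (hb : ∀ a, ((K a).length + 1) ^ (LL (t a)) ≤ N a) :
    Poly (fun a => gpdec (J a) (F a) (K a) (t a)) := by
  have he : Poly (fun a => enum (K a) (LL (t a))) := p_enum hK (u_LL ht) hN hb
  have hL : Poly (fun a => LL (t a)) := (u_LL ht).toPoly
  have hs : Poly (fun a => (J a).sum) := Poly.sum hJ
  refine Poly.and (Poly.not (Poly.decide_mem hs hF)) ?_
  refine Poly.any (p := fun a S => decide (S.length = LL (t a)) && avb (F a) 0 S &&
    (enum (K a) (LL (t a))).any (fun E => decide (E.length = LL (t a)) &&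
      avb (reflL (J a).sum (F a)) 0 E &&
      (K a).all (fun x => decide (cnt x S + cnt x E ≤ cnt x (J a))))) he ?_
  refine Poly.and (Poly.and (Poly.decide_eq (Poly.length p_snd) (hL.comp p_fst))
    (p_avb (hF.comp p_fst) (Poly.const 0) p_snd)) ?_
  refine Poly.any (p := fun (a : α × List ℕ) E => decide (E.length = LL (t a.1)) &&
      avb (reflL (J a.1).sum (F a.1)) 0 E &&
      (K a.1).all (fun x => decide (cnt x a.2 + cnt x E ≤ cnt x (J a.1)))) (he.comp p_fst) ?_
  have hf : Poly (fun a : (α × List ℕ) × List ℕ => a.1.1) := Poly.fst p_fst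
  refine Poly.and (Poly.and (Poly.decide_eq (Poly.length p_snd) (hL.comp hf))
    (p_avb (p_reflL (hs.comp hf) (hF.comp hf)) (Poly.const 0) p_snd)) ?_
  refine Poly.all (p := fun (a : (α × List ℕ) × List ℕ) x =>
    decide (cnt x a.1.2 + cnt x a.2 ≤ cnt x (J a.1.1))) (hK.comp hf) ?_
  refine Poly.decide_le (Poly.add (p_cnt p_snd (Poly.snd (Poly.fst p_fst)))
    (p_cnt p_snd (Poly.snd p_fst))) (p_cnt p_snd (hJ.comp (hf.comp p_fst)))

theorem p_stp {B R : α → List ℕ} {y x : α → List ℕ × ℕ} (hB : Poly B) (hR : Poly R) (hy : Poly y)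
    (hx : Poly x) : Poly (fun a => stp (B a) (R a) (y a) (x a)) := by
  refine Poly.or (Poly.and (Poly.decide_eq (Poly.fst hy) (Poly.fst hx)) ?_)
    (Poly.and (Poly.decide_eq (Poly.snd hy) (Poly.snd hx)) ?_)
  · exact Poly.any (p := fun a p => decide ((y a).2 + p = (x a).2)) hB
      (Poly.decide_eq (Poly.add (Poly.snd (hy.comp p_fst)) p_snd) (Poly.snd (hx.comp p_fst)))
  · exact Poly.any (p := fun a r => decide (r :: (y a).1 = (x a).1)) hR
      (Poly.decide_eq (Poly.cons p_snd (Poly.fst (hy.comp p_fst))) (Poly.fst (hx.comp p_fst)))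

lemma fact_fold (n : ℕ) : (List.range n).foldl (fun s i => s * (i + 1)) 1 = n.factorial := by
  induction n with
  | zero => rfl
  | succ n ih =>
    rw [List.range_succ, List.foldl_append, ih, Nat.factorial_succ]
    simp [Nat.mul_comm]

theorem p_fact {n N : α → ℕ} (hn : UPoly n) (hN : UPoly N) (hb : ∀ a, (n a).factorial ≤ N a) :
    Poly (fun a => (n a).factorial) := by
  obtain ⟨rN, hrN⟩ := UPoly.le hN
  refine (Poly.foldl (l := fun a => List.range (n a)) (s := fun _ => 1)
    (F := fun _ s i => s * (i + 1)) hn.range (Poly.const 1)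
    (Poly.mul (Poly.fst p_snd) (Poly.succ (Poly.snd p_snd)))
    (Polynomial.C 4 * rN + Polynomial.C 1) ?_).congr fun a => fact_fold (n a)
  intro a k hk
  rw [List.length_range] at hk
  rw [List.take_range, Nat.min_eq_left hk, fact_fold]
  have h1 := sz_nat_le k.factorial
  have h2 := Poly.size_le_self k.factorial
  have h3 := Nat.factorial_le hk
  have h4 := hb a
  have h5 := hrN a
  simp only [Polynomial.eval_add, Polynomial.eval_mul, Polynomial.eval_C]
  omega

theorem p_WW {J B : α → List ℕ} {t N : α → ℕ} (hJ : Poly J) (hB : Poly B) (ht : UPoly t)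
    (hN : UPoly N) (hb : ∀ a, (t a + 1).factorial ≤ N a) : Poly (fun a => WW (J a) (B a) (t a)) := by
  have ht1 : UPoly (fun a => t a + 1) := UPoly.add ht (UPoly.const 1)
  have hf : Poly (fun a => (t a + 1).factorial) := p_fact ht1 hN hb
  have hu : UPoly (fun a => (t a + 1).factorial) := UPoly.of_le hf hN hb
  have hr : UPoly (fun a => (t a + 1).factorial * (J a).length * (t a + 1) + 1) :=
    UPoly.add (UPoly.mul (UPoly.mul hu (UPoly.length hJ)) ht1) (UPoly.const 1)
  have hh : Poly (fun a => (B a).head?.getD 0) := Poly.head?_getD hB 0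
  exact Poly.map (F := fun a v => v * ((B a).head?.getD 0) / (t a + 1).factorial) hr.range
    (Poly.div (Poly.mul p_snd (hh.comp p_fst)) (hf.comp p_fst))

theorem p_UU {J B R : α → List ℕ} {t N : α → ℕ} (hJ : Poly J) (hB : Poly B) (hR : Poly R)
    (ht : UPoly t) (hN : UPoly N) (hb : ∀ a, (t a + 1).factorial ≤ N a)
    (hb2 : ∀ a, ((R a).length + 1) ^ (((R a).map (fun x => cnt x (J a))).sum) ≤ N a) :
    Poly (fun a => UU (J a) (B a) (R a) (t a)) := by
  have hs : Poly (fun a => ((R a).map (fun x => cnt x (J a))).sum) :=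
    Poly.sum (Poly.map (F := fun a x => cnt x (J a)) hR (p_cnt p_snd (hJ.comp p_fst)))
  have hsu : UPoly (fun a => ((R a).map (fun x => cnt x (J a))).sum) := by
    refine UPoly.of_le (n := fun a => (R a).length * (J a).length) hs
      (UPoly.mul (UPoly.length hR) (UPoly.length hJ)) ?_
    intro a
    have := List.sum_le_card_nsmul ((R a).map (fun x => cnt x (J a))) (J a).length (by
      intro y hy
      rw [List.mem_map] at hy
      obtain ⟨x, _, rfl⟩ := hy
      exact List.length_filter_le _ _)
    simpa using this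
  exact Poly.flatMap (F := fun a σ => (WW (J a) (B a) (t a)).map (fun w => (σ, w)))
    (p_enum hR hsu hN hb2)
    (Poly.map (F := fun (a : α × List ℕ) w => (a.2, w)) ((p_WW hJ hB ht hN hb).comp p_fst)
      (Poly.pair (Poly.snd p_fst) p_snd))

theorem p_rnd {F B R : α → List ℕ} {U X : α → List (List ℕ × ℕ)} (hF : Poly F) (hB : Poly B)
    (hR : Poly R) (hU : Poly U) (hX : Poly X) :
    Poly (fun a => rnd (F a) (B a) (R a) (U a) (X a)) := by
  refine Poly.filter (p := fun a x => decide (x ∈ X a) ||
    (!decide (x.1.sum + x.2 ∈ F a) && (X a).any (fun y => stp (B a) (R a) y x))) hU ?_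
  have h1 : Poly (fun x : α × List ℕ × ℕ => decide (x.2 ∈ X x.1)) :=
    (Poly.decide_mem p_snd (hX.comp p_fst)).congr fun a => decide_eq_decide.2 Iff.rfl
  refine Poly.or h1 (Poly.and (Poly.not
    (Poly.decide_mem (Poly.add (Poly.sum (Poly.fst p_snd)) (Poly.snd p_snd)) (hF.comp p_fst))) ?_)
  exact Poly.any (p := fun (a : α × List ℕ × ℕ) y => stp (B a.1) (R a.1) y a.2) (hX.comp p_fst)
    (p_stp (hB.comp (Poly.fst p_fst)) (hR.comp (Poly.fst p_fst)) p_snd (Poly.snd p_fst))

lemma clo_sz (F B R : List ℕ) (U : List (List ℕ × ℕ)) (V : List (List ℕ × ℕ)) :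
    ∀ X : List (List ℕ × ℕ), sz (V.foldl (fun X _ => rnd F B R U X) X) ≤ sz X + sz U := by
  induction V with
  | nil => intro X; simp
  | cons v V ih =>
    intro X
    rw [List.foldl_cons]
    cases V with
    | nil =>
      rw [List.foldl_nil]
      have : sz (rnd F B R U X) ≤ sz U := sz_sublist List.filter_sublist
      omega
    | cons w V =>
      rw [List.foldl_const]
      rw [List.length_cons, Function.iterate_succ_apply']
      have : sz (rnd F B R U ((rnd F B R U)^[V.length] (rnd F B R U X))) ≤ sz U :=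
        sz_sublist List.filter_sublist
      omega

theorem p_clo {F B R : α → List ℕ} {U : α → List (List ℕ × ℕ)} (hF : Poly F) (hB : Poly B)
    (hR : Poly R) (hU : Poly U) : Poly (fun a => clo (F a) (B a) (R a) (U a)) := by
  obtain ⟨r, hr⟩ := hU.sz_le
  refine Poly.foldl (l := U) (s := fun _ => [(([], 0) : List ℕ × ℕ)])
    (F := fun a X _ => rnd (F a) (B a) (R a) (U a) X) hU (Poly.const _) ?_
    (Polynomial.C (sz [(([], 0) : List ℕ × ℕ)]) + r) ?_
  · exact p_rnd (hF.comp p_fst) (hB.comp p_fst) (hR.comp p_fst) (hU.comp p_fst) (Poly.fst p_snd)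
  · intro a k hk
    refine (clo_sz _ _ _ _ _ _).trans ?_
    have := hr a
    simp only [Polynomial.eval_add, Polynomial.eval_C]
    omega

theorem p_srdec {J F K B : α → List ℕ} {t N : α → ℕ} (hJ : Poly J) (hF : Poly F) (hK : Poly K)
    (hB : Poly B) (ht : UPoly t) (hN : UPoly N) (hb : ∀ a, (t a + 1).factorial ≤ N a)
    (hb2 : ∀ a, (((K a).filter (fun x => !decide (x ∈ B a))).length + 1) ^
      ((((K a).filter (fun x => !decide (x ∈ B a))).map (fun x => cnt x (J a))).sum) ≤ N a) :
    Poly (fun a => srdec (J a) (F a) (K a) (B a) (t a)) := by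
  have hR : Poly (fun a => (K a).filter (fun x => !decide (x ∈ B a))) :=
    Poly.filter (p := fun a x => !decide (x ∈ B a)) hK
      (Poly.not (Poly.decide_mem p_snd (hB.comp p_fst)))
  have hU := p_UU hJ hB hR ht hN hb hb2
  have hC := p_clo hF hB hR hU
  refine Poly.any (p := fun a x => decide (x.1.sum + x.2 = (J a).sum) &&
    ((K a).filter (fun x => !decide (x ∈ B a))).all (fun r => decide (cnt r x.1 = cnt r (J a))))
    hC ?_
  refine Poly.and (Poly.decide_eq (Poly.add (Poly.sum (Poly.fst p_snd)) (Poly.snd p_snd))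
    ((Poly.sum hJ).comp p_fst)) ?_
  exact Poly.all (p := fun (a : α × List ℕ × ℕ) r => decide (cnt r a.2.1 = cnt r (J a.1)))
    (hR.comp p_fst) (Poly.decide_eq (p_cnt p_snd (Poly.fst (Poly.snd p_fst)))
      (p_cnt p_snd (hJ.comp (Poly.fst p_fst))))

/-- the exponent of the table size -/
def MM (t : ℕ) : ℕ := (2 * t + 1) * (LL t + 2 * t * GG t + 2 * t + t + 1)

lemma LL_mono {s t : ℕ} (h : s ≤ t) : LL s ≤ LL t := Nat.mul_le_mul h (by omega)

lemma GG_mono {s t : ℕ} (h : s ≤ t) : GG s ≤ GG t := by
  unfold GG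
  have h1 : s * (s + 1) ≤ t * (t + 1) := Nat.mul_le_mul h (by omega)
  have h2 : (s + 1) * (s + 1) ≤ (t + 1) * (t + 1) := Nat.mul_le_mul (by omega) (by omega)
  have h3 : (s * (s + 1)) ^ 2 ≤ (t * (t + 1)) ^ 2 := Nat.pow_le_pow_left h1 2
  omega

lemma MM_mono {s t : ℕ} (h : s ≤ t) : MM s ≤ MM t := by
  unfold MM
  have h1 := LL_mono h
  have h2 := GG_mono h
  have h3 : 2 * s * GG s ≤ 2 * t * GG t := Nat.mul_le_mul (by omega) h2
  exact Nat.mul_le_mul (by omega) (by omega)

lemma pow_le_MM {b t X : ℕ} (hb : b ≤ 2 * t + 1)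
    (hX : X ≤ LL t + 2 * t * GG t + 2 * t + t + 1) : b ^ X ≤ 2 ^ (MM t) := by
  calc b ^ X ≤ (2 ^ (2 * t + 1)) ^ X := Nat.pow_le_pow_left (hb.trans Nat.lt_two_pow_self.le) X
    _ = 2 ^ ((2 * t + 1) * X) := (pow_mul _ _ _).symm
    _ ≤ 2 ^ (MM t) := Nat.pow_le_pow_right (by norm_num) (Nat.mul_le_mul_left _ hX)

lemma fact_le_MM (t : ℕ) : (t + 1).factorial ≤ 2 ^ (MM t) := by
  refine (Nat.factorial_le_pow _).trans (pow_le_MM (by omega) (by omega))

theorem p_dec {J F : α → List ℕ} {N : α → ℕ} (hJ : Poly J) (hF : Poly F) (hN : UPoly N)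
    (hb : ∀ a, 2 ^ (MM (F a).length) ≤ N a) : Poly (fun a => dec (J a) (F a)) := by
  have ht : UPoly (fun a => (F a).length) := UPoly.length hF
  have hd : Poly (fun a => ded (J a)) := p_ded hJ
  have h2t : Poly (fun a => 2 * (F a).length) := Poly.mul (Poly.const 2) ht.toPoly
  have hK : Poly (fun a => (ded (J a)).take (2 * (F a).length)) := p_take hd h2t
  have hG : Poly (fun a => GG (F a).length) := (u_GG ht).toPoly
  have hB : Poly (fun a => ((ded (J a)).take (2 * (F a).length)).filter
      (fun x => decide (GG (F a).length ≤ cnt x (J a)))) :=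
    Poly.filter (p := fun a x => decide (GG (F a).length ≤ cnt x (J a))) hK
      (Poly.decide_le (hG.comp p_fst) (p_cnt p_snd (hJ.comp p_fst)))
  have hKlen : ∀ a, ((ded (J a)).take (2 * (F a).length)).length ≤ 2 * (F a).length := by
    intro a
    rw [List.length_take]
    omega
  refine Poly.ite (p := fun a => 2 * (F a).length + 1 ≤ (ded (J a)).length)
    (f := fun a => !decide ((J a).sum ∈ F a)) ?_ ?_ ?_
  · exact Poly.decide_le (Poly.succ h2t) (Poly.length hd)
  · exact Poly.not (Poly.decide_mem (Poly.sum hJ) hF)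
  · refine (Poly.cond (p_gpb hB ht) (p_gpdec hJ hF hK ht hN ?_)
      (p_srdec hJ hF hK hB ht hN ?_ ?_)).congr ?_
    · intro a
      refine le_trans (pow_le_MM ?_ ?_) (hb a)
      · have := hKlen a; omega
      · omega
    · intro a
      exact (fact_le_MM _).trans (hb a)
    · intro a
      refine le_trans (pow_le_MM ?_ ?_) (hb a)
      · have := hKlen a
        have h3 := List.length_filter_le (fun x => !decide (x ∈ ((ded (J a)).take (2 * (F a).length)).filter
          (fun x => decide (GG (F a).length ≤ cnt x (J a))))) ((ded (J a)).take (2 * (F a).length))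
        omega
      · have h1 : ((((ded (J a)).take (2 * (F a).length)).filter
            (fun x => !decide (x ∈ ((ded (J a)).take (2 * (F a).length)).filter
            (fun x => decide (GG (F a).length ≤ cnt x (J a)))))).map
            (fun x => cnt x (J a))).sum ≤ 2 * (F a).length * GG (F a).length := by
          have h4 := List.sum_le_card_nsmul ((((ded (J a)).take (2 * (F a).length)).filter
            (fun x => !decide (x ∈ ((ded (J a)).take (2 * (F a).length)).filter
            (fun x => decide (GG (F a).length ≤ cnt x (J a)))))).map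
            (fun x => cnt x (J a))) (GG (F a).length) (by
              intro y hy
              rw [List.mem_map] at hy
              obtain ⟨x, hx, rfl⟩ := hy
              rw [List.mem_filter] at hx
              obtain ⟨hx1, hx2⟩ := hx
              have hx3 : x ∉ ((ded (J a)).take (2 * (F a).length)).filter
                (fun x => decide (GG (F a).length ≤ cnt x (J a))) := by
                  rwa [Bool.not_eq_true', decide_eq_false_iff_not] at hx2
              rw [List.mem_filter] at hx3
              by_contra hc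
              exact hx3 ⟨hx1, by simpa using by omega⟩)
          rw [smul_eq_mul, List.length_map] at h4
          refine h4.trans (Nat.mul_le_mul_right _ ?_)
          exact (List.length_filter_le _ _).trans (hKlen a)
        omega
    · intro a
      cases h : gpb (((ded (J a)).take (2 * (F a).length)).filter
        (fun x => decide (GG (F a).length ≤ cnt x (J a)))) (F a).length <;> simp

end Pool.Agent.NPC.H628F
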