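import Pool.Agent.KS6_49.L8.H628R2.Forb.GP

set_option autoImplicit false

namespace Pool.Agent.H628R2.Forb

/-- start position of block `i` -/
def bstart (y : ℕ) (A : ℕ → Multiset ℕ) (x : ℕ → ℕ) (i : ℕ) : ℕ :=
  y + ∑ k ∈ Finset.range i, ((A k).sum + x k)

/-- all blocks `0..m` are free of forbidden points -/
def BFree (F : Finset ℕ) (y m : ℕ) (A : ℕ → Multiset ℕ) (x : ℕ → ℕ) : Prop :=
  ∀ i ≤ m, ∀ z, bstart y A x i ≤ z → z ≤ bstart y A x i + (A i).sum → z ∉ F

/-- the multiset of all jumps of a block decomposition -/
def btotal (m : ℕ) (A : ℕ → Multiset ℕ) (x : ℕ → ℕ) : Multiset ℕ :=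
  ∑ k ∈ Finset.range (m + 1), A k + ∑ k ∈ Finset.range m, {x k}

lemma bstart_succ (y : ℕ) (A : ℕ → Multiset ℕ) (x : ℕ → ℕ) (i : ℕ) :
    bstart y A x (i + 1) = bstart y A x i + (A i).sum + x i := by
  simp only [bstart, Finset.sum_range_succ]
  ring

lemma recompose (F : Finset ℕ) (y m : ℕ) (A : ℕ → Multiset ℕ) (x : ℕ → ℕ)
    (hA : ∀ k, ∀ z ∈ A k, 0 < z) (hfree : BFree F y m A x) :
    ∃ l : List ℕ, (l : Multiset ℕ) = btotal m A x ∧ Av F y l := by
  have key : ∀ j ≤ m, ∃ l : List ℕ,
      (l : Multiset ℕ) = ∑ k ∈ Finset.range j, A k + ∑ k ∈ Finset.range j, {x k} ∧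
      Av F y l ∧ y + l.sum = bstart y A x j := by
    intro j
    induction j with
    | zero => intro _; exact ⟨[], by simp, trivial, by simp [bstart]⟩
    | succ j ih =>
      intro hj
      obtain ⟨l, h1, h2, h3⟩ := ih (by omega)
      refine ⟨l ++ ((A j).toList ++ [x j]), ?_, ?_, ?_⟩
      · rw [← Multiset.coe_add, ← Multiset.coe_add, h1, Multiset.coe_toList,
          Finset.sum_range_succ, Finset.sum_range_succ]
        have : (([x j] : List ℕ) : Multiset ℕ) = {x j} := rfl
        rw [this]
        abel
      · rw [Av_append, Av_append]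
        refine ⟨h2, ?_, ?_, trivial⟩
        · apply Av_of_free
          · intro z hz
            rw [Multiset.mem_toList] at hz
            exact hA j z hz
          · intro z hz1 hz2
            rw [h3] at hz1 hz2
            rw [Multiset.sum_toList] at hz2
            exact hfree j (by omega) z (by omega) hz2
        · rw [h3, Multiset.sum_toList, ← bstart_succ]
          exact hfree (j + 1) hj _ le_rfl (by omega)
      · rw [List.sum_append, List.sum_append, Multiset.sum_toList, bstart_succ]
        simp only [List.sum_cons, List.sum_nil]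
        omega
  obtain ⟨l, h1, h2, h3⟩ := key m le_rfl
  refine ⟨l ++ (A m).toList, ?_, ?_⟩
  · rw [← Multiset.coe_add, h1, Multiset.coe_toList, btotal, Finset.sum_range_succ]
    abel
  · rw [Av_append]
    refine ⟨h2, ?_⟩
    apply Av_of_free
    · intro z hz
      rw [Multiset.mem_toList] at hz
      exact hA m z hz
    · intro z hz1 hz2
      rw [h3] at hz1 hz2
      rw [Multiset.sum_toList] at hz2
      exact hfree m le_rfl z (by omega) hz2

lemma decompose (F : Finset ℕ) (y : ℕ) (hy : y ∉ F) (l : List ℕ) : (∀ z ∈ l, 0 < z) →
    Av F y l → ∃ (m : ℕ) (A : ℕ → Multiset ℕ) (x : ℕ → ℕ),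
      m ≤ (F.filter (fun f => y < f ∧ f < y + l.sum)).card ∧ BFree F y m A x ∧
      (l : Multiset ℕ) = btotal m A x ∧ bstart y A x m + (A m).sum = y + l.sum := by
  induction l using List.reverseRecOn with
  | nil =>
    intro _ _
    refine ⟨0, fun _ => 0, fun _ => 0, by simp, ?_, by simp [btotal], by simp [bstart]⟩
    intro i hi z hz1 hz2
    have : z = y := by
      have : i = 0 := by omega
      subst this
      simp [bstart] at hz1 hz2
      omega
    rwa [this]
  | append_singleton l a ih =>
    intro hpos hA
    rw [Av_append] at hA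
    obtain ⟨hA1, hA2⟩ := hA
    have ha : 0 < a := hpos a (by simp)
    obtain ⟨m, A, x, h1, h2, h3, h4⟩ := ih (fun z hz => hpos z (by simp [hz])) hA1
    have hsum : (l ++ [a]).sum = l.sum + a := by simp
    have hcoe : ((l ++ [a] : List ℕ) : Multiset ℕ) = (l : Multiset ℕ) + {a} := by
      rw [← Multiset.coe_add]; rfl
    have hend : y + l.sum + a ∉ F := hA2.1
    have hfilt : (F.filter (fun f => y < f ∧ f < y + l.sum)) ⊆
        (F.filter (fun f => y < f ∧ f < y + (l ++ [a]).sum)) := by
      intro z hz
      rw [Finset.mem_filter] at hz ⊢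
      rw [hsum]
      exact ⟨hz.1, hz.2.1, by omega⟩
    by_cases hfree : ∀ z, y + l.sum ≤ z → z ≤ y + l.sum + a → z ∉ F
    · -- extend the last block
      refine ⟨m, Function.update A m (A m + {a}), x, h1.trans (Finset.card_le_card hfilt),
        ?_, ?_, ?_⟩
      · have hst : ∀ i ≤ m, bstart y (Function.update A m (A m + {a})) x i = bstart y A x i := by
          intro i hi
          unfold bstart
          congr 1
          apply Finset.sum_congr rfl
          intro k hk
          rw [Finset.mem_range] at hk
          rw [Function.update_of_ne (by omega)]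
        intro i hi z hz1 hz2
        rw [hst i hi] at hz1 hz2
        by_cases him : i = m
        · subst him
          rw [Function.update_self, Multiset.sum_add, Multiset.sum_singleton] at hz2
          by_cases hz3 : z ≤ bstart y A x i + (A i).sum
          · exact h2 i hi z hz1 hz3
          · apply hfree z (by omega) (by omega)
        · rw [Function.update_of_ne him] at hz2
          exact h2 i hi z hz1 hz2
      · rw [hcoe, h3, btotal, btotal, Finset.sum_range_succ, Finset.sum_range_succ,
          Function.update_self]
        have : ∑ k ∈ Finset.range m, Function.update A m (A m + {a}) k =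
            ∑ k ∈ Finset.range m, A k := by
          apply Finset.sum_congr rfl
          intro k hk
          rw [Finset.mem_range] at hk
          rw [Function.update_of_ne (by omega)]
        rw [this]
        abel
      · have : bstart y (Function.update A m (A m + {a})) x m = bstart y A x m := by
          unfold bstart
          congr 1
          apply Finset.sum_congr rfl
          intro k hk
          rw [Finset.mem_range] at hk
          rw [Function.update_of_ne (by omega)]
        rw [this, Function.update_self, Multiset.sum_add, Multiset.sum_singleton, hsum]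
        omega
    · -- new block
      push Not at hfree
      obtain ⟨f, hf1, hf2, hf3⟩ := hfree
      have hcur : y + l.sum ∉ F := by
        rw [← h4]
        exact h2 m le_rfl _ (by omega) (by omega)
      have hf1' : y + l.sum < f := by
        rcases Nat.lt_or_ge (y + l.sum) f with h | h
        · exact h
        · exfalso; apply hcur
          have : y + l.sum = f := by omega
          rw [this]; exact hf3
      have hf2' : f < y + l.sum + a := by
        rcases Nat.lt_or_ge f (y + l.sum + a) with h | h
        · exact h
        · exfalso; apply hend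
          have : y + l.sum + a = f := by omega
          rw [this]; exact hf3
      refine ⟨m + 1, Function.update A (m + 1) 0, Function.update x m a, ?_, ?_, ?_, ?_⟩
      · have hlt : (F.filter (fun f => y < f ∧ f < y + l.sum)).card <
            (F.filter (fun f => y < f ∧ f < y + (l ++ [a]).sum)).card := by
          apply Finset.card_lt_card
          refine ⟨hfilt, ?_⟩
          intro hcon
          have : f ∈ F.filter (fun f => y < f ∧ f < y + (l ++ [a]).sum) := by
            rw [Finset.mem_filter, hsum]
            exact ⟨hf3, by omega, by omega⟩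
          have := hcon this
          rw [Finset.mem_filter] at this
          omega
        omega
      · have hst : ∀ i ≤ m, bstart y (Function.update A (m + 1) 0) (Function.update x m a) i =
            bstart y A x i := by
          intro i hi
          unfold bstart
          congr 1
          apply Finset.sum_congr rfl
          intro k hk
          rw [Finset.mem_range] at hk
          rw [Function.update_of_ne (by omega), Function.update_of_ne (by omega)]
        intro i hi z hz1 hz2
        by_cases him : i = m + 1
        · subst him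
          rw [Function.update_self, Multiset.sum_zero, Nat.add_zero, bstart_succ, hst m le_rfl,
            Function.update_of_ne (by omega), Function.update_self, h4] at hz2
          rw [bstart_succ, hst m le_rfl,
            Function.update_of_ne (by omega), Function.update_self, h4] at hz1
          have : z = y + l.sum + a := by omega
          rw [this]; exact hend
        · rw [hst i (by omega)] at hz1 hz2
          rw [Function.update_of_ne him] at hz2
          exact h2 i (by omega) z hz1 hz2
      · rw [hcoe, h3, btotal, btotal, Finset.sum_range_succ _ (m + 1), Function.update_self,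
          Finset.sum_range_succ (fun k => ({Function.update x m a k} : Multiset ℕ)),
          Function.update_self]
        have e1 : ∑ k ∈ Finset.range (m + 1), Function.update A (m + 1) 0 k =
            ∑ k ∈ Finset.range (m + 1), A k := by
          apply Finset.sum_congr rfl
          intro k hk
          rw [Finset.mem_range] at hk
          rw [Function.update_of_ne (by omega)]
        have e2 : ∑ k ∈ Finset.range m, ({Function.update x m a k} : Multiset ℕ) =
            ∑ k ∈ Finset.range m, {x k} := by
          apply Finset.sum_congr rfl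
          intro k hk
          rw [Finset.mem_range] at hk
          rw [Function.update_of_ne (by omega)]
        rw [e1, e2]
        abel
      · rw [Function.update_self, Multiset.sum_zero, bstart_succ, Function.update_self,
          Function.update_of_ne (by omega)]
        have : bstart y (Function.update A (m + 1) 0) (Function.update x m a) m =
            bstart y A x m := by
          unfold bstart
          congr 1
          apply Finset.sum_congr rfl
          intro k hk
          rw [Finset.mem_range] at hk
          rw [Function.update_of_ne (by omega), Function.update_of_ne (by omega)]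
        rw [this, hsum]
        omega

/-- number of jumps of size `j` outside of block `s` -/
def outc (m s : ℕ) (A : ℕ → Multiset ℕ) (x : ℕ → ℕ) (j : ℕ) : ℕ :=
  ∑ k ∈ (Finset.range (m + 1)).erase s, (A k).count j +
    ∑ k ∈ Finset.range m, Multiset.count j {x k}

lemma outc_update (m s k0 : ℕ) (hk : k0 ∈ (Finset.range (m + 1)).erase s)
    (A : ℕ → Multiset ℕ) (x : ℕ → ℕ) (M : Multiset ℕ) (i : ℕ) :
    outc m s (Function.update A k0 M) x i + (A k0).count i =
      outc m s A x i + M.count i := by
  unfold outc
  rw [← Finset.add_sum_erase _ (fun k => (Function.update A k0 M k).count i) hk,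
    ← Finset.add_sum_erase _ (fun k => (A k).count i) hk]
  have : ∑ k ∈ ((Finset.range (m + 1)).erase s).erase k0,
      (Function.update A k0 M k).count i =
      ∑ k ∈ ((Finset.range (m + 1)).erase s).erase k0, (A k).count i := by
    apply Finset.sum_congr rfl
    intro k hk
    rw [Function.update_of_ne (Finset.ne_of_mem_erase hk)]
  rw [this]
  simp only [Function.update_self]
  omega

lemma exch (m s h G : ℕ) (hs : s ≤ m) (x : ℕ → ℕ) (B : Finset ℕ) (hB : ∀ j ∈ B, 0 < j)
    (hex : ∀ p ∈ B, ∀ q ∈ B, ∃ c d, 1 ≤ c ∧ c ≤ h ∧ 1 ≤ d ∧ d ≤ h ∧ c * p = d * q)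
    (N : ℕ → ℕ) (hN : ∀ j ∈ B, G ≤ N j) (hG : m + m * h ≤ G) (e : ℕ) :
    ∀ A : ℕ → Multiset ℕ, (∑ j ∈ B, (outc m s A x j - N j)) ≤ e →
    (∀ k, ∀ z ∈ A k, 0 < z) →
    (∑ j ∈ B, j * (outc m s A x j + (A s).count j) = ∑ j ∈ B, j * N j) →
    (h * ∑ j ∈ B, j ≤ ∑ j ∈ B, j * (A s).count j) →
    ∃ A' : ℕ → Multiset ℕ, (∀ k, (A' k).sum = (A k).sum) ∧ A' s = A s ∧
      (∀ j ∈ B, outc m s A' x j ≤ N j) ∧ (∀ j, j ∉ B → ∀ k, (A' k).count j = (A k).count j) ∧
      (∀ k, ∀ z ∈ A' k, 0 < z) ∧
      (∑ j ∈ B, j * (outc m s A' x j + (A' s).count j) = ∑ j ∈ B, j * N j) := by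
  induction e with
  | zero =>
    intro A h1 h2 h3 h4
    refine ⟨A, fun _ => rfl, rfl, ?_, fun _ _ _ => rfl, h2, h3⟩
    intro j hj
    have := Finset.single_le_sum (f := fun j => outc m s A x j - N j)
      (fun i _ => Nat.zero_le _) hj
    omega
  | succ e ih =>
    intro A h1 h2 h3 h4
    by_cases hok : ∀ j ∈ B, outc m s A x j ≤ N j
    · exact ⟨A, fun _ => rfl, rfl, hok, fun _ _ _ => rfl, h2, h3⟩
    push Not at hok
    obtain ⟨j, hj, hjN⟩ := hok
    -- a block outside with many j
    obtain ⟨k0, hk0, hk0c⟩ : ∃ k0 ∈ (Finset.range (m + 1)).erase s, h ≤ (A k0).count j := by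
      by_contra hcon
      push Not at hcon
      have e1 : ∑ k ∈ (Finset.range (m + 1)).erase s, (A k).count j ≤
          ((Finset.range (m + 1)).erase s).card • h :=
        Finset.sum_le_card_nsmul _ _ _ (fun k hk => (hcon k hk).le)
      have e2 : ((Finset.range (m + 1)).erase s).card = m := by
        rw [Finset.card_erase_of_mem (by rw [Finset.mem_range]; omega), Finset.card_range]
        omega
      rw [e2, smul_eq_mul] at e1
      have e3 : ∑ k ∈ Finset.range m, Multiset.count j {x k} ≤ (Finset.range m).card • 1 := by
        apply Finset.sum_le_card_nsmul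
        intro k _
        rw [Multiset.count_singleton]
        split_ifs <;> omega
      rw [Finset.card_range, smul_eq_mul, Nat.mul_one] at e3
      have := hN j hj
      unfold outc at hjN
      omega
    -- a size with room
    obtain ⟨j', hj', hj'c⟩ : ∃ j' ∈ B, outc m s A x j' + h ≤ N j' := by
      by_contra hcon
      push Not at hcon
      have e1 : ∑ j ∈ B, j * N j < ∑ j ∈ B, (j * outc m s A x j + j * h) := by
        apply Finset.sum_lt_sum_of_nonempty ⟨j, hj⟩
        intro i hi
        have := hcon i hi
        have := hB i hi
        nlinarith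
      rw [← h3] at e1
      have e2 : ∑ j ∈ B, j * (outc m s A x j + (A s).count j) =
          ∑ j ∈ B, j * outc m s A x j + ∑ j ∈ B, j * (A s).count j := by
        rw [← Finset.sum_add_distrib]
        apply Finset.sum_congr rfl
        intros; ring
      rw [e2, Finset.sum_add_distrib, ← Finset.sum_mul] at e1
      rw [Nat.mul_comm] at h4
      omega
    have hjj' : j ≠ j' := by
      rintro rfl; omega
    obtain ⟨c, d, hc1, hc2, hd1, hd2, hcd⟩ := hex j hj j' hj'
    have hks : k0 ≠ s := Finset.ne_of_mem_erase hk0
    have hrep : Multiset.replicate c j ≤ A k0 := by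
      rw [← Multiset.le_count_iff_replicate_le]; omega
    set M := A k0 - Multiset.replicate c j + Multiset.replicate d j' with hM
    set A1 := Function.update A k0 M with hA1
    have hMcount : ∀ i, M.count i + (if i = j then c else 0) =
        (A k0).count i + (if i = j' then d else 0) := by
      intro i
      rw [hM, Multiset.count_add, Multiset.count_sub, Multiset.count_replicate,
        Multiset.count_replicate]
      by_cases h5 : i = j
      · subst h5
        have : ¬ (j' = i) := fun h => hjj' h.symm
        simp only [if_true, this, if_false, hjj']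
        omega
      · by_cases h6 : i = j'
        · subst h6
          have : ¬ (j = i) := hjj'
          simp only [if_true, this, if_false, h5]
          omega
        · have h7 : ¬ (j = i) := fun h => h5 h.symm
          have h8 : ¬ (j' = i) := fun h => h6 h.symm
          simp only [h5, h6, h7, h8, if_false]
          omega
    have hMsum : M.sum = (A k0).sum := by
      have e1 : (A k0 - Multiset.replicate c j).sum + c * j = (A k0).sum := by
        conv_rhs => rw [← tsub_add_cancel_of_le hrep]
        rw [Multiset.sum_add, Multiset.sum_replicate, smul_eq_mul]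
      rw [hM, Multiset.sum_add, Multiset.sum_replicate, smul_eq_mul, ← hcd]
      exact e1
    have hout : ∀ i, outc m s A1 x i + (if i = j then c else 0) =
        outc m s A x i + (if i = j' then d else 0) := by
      intro i
      have e1 := outc_update m s k0 hk0 A x M i
      have e2 := hMcount i
      rw [← hA1] at e1
      omega
    have hA1s : A1 s = A s := Function.update_of_ne hks.symm _ _
    have houtj : outc m s A1 x j + c = outc m s A x j := by
      have := hout j
      simp only [if_true, hjj', if_false] at this
      omega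
    have houtj' : outc m s A1 x j' = outc m s A x j' + d := by
      have := hout j'
      simp only [if_true, hjj'.symm, if_false] at this
      omega
    have hout' : ∀ i, i ≠ j → i ≠ j' → outc m s A1 x i = outc m s A x i := by
      intro i hi hi'
      have := hout i
      simp only [hi, hi', if_false] at this
      omega
    have hexc : (∑ i ∈ B, (outc m s A1 x i - N i)) < ∑ i ∈ B, (outc m s A x i - N i) := by
      apply Finset.sum_lt_sum
      · intro i _
        by_cases h5 : i = j
        · subst h5; omega
        · by_cases h6 : i = j'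
          · subst h6; omega
          · rw [hout' i h5 h6]
      · exact ⟨j, hj, by omega⟩
    have hbal : ∑ i ∈ B, i * (outc m s A1 x i + (A1 s).count i) = ∑ i ∈ B, i * N i := by
      rw [← h3, hA1s]
      have e1 : ∀ A2 : ℕ → Multiset ℕ, ∑ i ∈ B, i * (outc m s A2 x i + (A s).count i) =
          j * (outc m s A2 x j + (A s).count j) +
          (j' * (outc m s A2 x j' + (A s).count j') +
          ∑ i ∈ (B.erase j).erase j', i * (outc m s A2 x i + (A s).count i)) := by
        intro A2
        rw [Finset.add_sum_erase _ (fun i => i * (outc m s A2 x i + (A s).count i))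
          (Finset.mem_erase.2 ⟨hjj'.symm, hj'⟩),
          Finset.add_sum_erase _ (fun i => i * (outc m s A2 x i + (A s).count i)) hj]
      rw [e1 A1, e1 A]
      have e2 : ∑ i ∈ (B.erase j).erase j', i * (outc m s A1 x i + (A s).count i) =
          ∑ i ∈ (B.erase j).erase j', i * (outc m s A x i + (A s).count i) := by
        apply Finset.sum_congr rfl
        intro i hi
        rw [Finset.mem_erase, Finset.mem_erase] at hi
        rw [hout' i hi.2.1 hi.1]
      rw [e2, houtj', ← houtj]
      have : c * j = d * j' := hcd
      nlinarith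
    obtain ⟨A', g1, g2, g3, g4, g5, g6⟩ := ih A1 (by omega) (by
        intro k z hz
        by_cases h5 : k = k0
        · subst h5
          rw [hA1, Function.update_self, hM, Multiset.mem_add] at hz
          rcases hz with hz | hz
          · exact h2 k z (Multiset.mem_of_le tsub_le_self hz)
          · rw [Multiset.eq_of_mem_replicate hz]
            exact hB _ hj'
        · rw [hA1, Function.update_of_ne h5] at hz
          exact h2 k z hz) hbal (by rw [hA1s]; exact h4)
    refine ⟨A', ?_, g2.trans hA1s, g3, ?_, g5, g6⟩
    · intro k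
      rw [g1 k]
      by_cases h5 : k = k0
      · subst h5; rw [hA1, Function.update_self, hMsum]
      · rw [hA1, Function.update_of_ne h5]
    · intro i hi k
      rw [g4 i hi k]
      by_cases h5 : k = k0
      · subst h5
        rw [hA1, Function.update_self]
        have e1 := hMcount i
        have h6 : i ≠ j := fun h => hi (h ▸ hj)
        have h7 : i ≠ j' := fun h => hi (h ▸ hj')
        simp only [h6, h7, if_false] at e1
        omega
      · rw [hA1, Function.update_of_ne h5]

lemma sum_count_mul (B : Finset ℕ) (M : Multiset ℕ) :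
    M.sum = ∑ j ∈ B, j * M.count j + (M.filter (fun j => j ∉ B)).sum := by
  induction M using Multiset.induction_on with
  | empty => simp
  | cons a M ih =>
    rw [Multiset.sum_cons, ih]
    by_cases ha : a ∈ B
    · rw [Multiset.filter_cons_of_neg (p := fun j => j ∉ B) _ (by simpa using ha)]
      have : ∑ j ∈ B, j * (a ::ₘ M).count j = a + ∑ j ∈ B, j * M.count j := by
        rw [← Finset.add_sum_erase _ _ ha, ← Finset.add_sum_erase _ (fun j => j * M.count j) ha]
        have e1 : ∑ j ∈ B.erase a, j * (a ::ₘ M).count j = ∑ j ∈ B.erase a, j * M.count j := by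
          apply Finset.sum_congr rfl
          intro j hj
          rw [Multiset.count_cons_of_ne (Finset.ne_of_mem_erase hj)]
        rw [e1, Multiset.count_cons_self]
        ring
      rw [this]; ring
    · rw [Multiset.filter_cons_of_pos (p := fun j => j ∉ B) _ ha, Multiset.sum_cons]
      have : ∑ j ∈ B, j * (a ::ₘ M).count j = ∑ j ∈ B, j * M.count j := by
        apply Finset.sum_congr rfl
        intro j hj
        rw [Multiset.count_cons_of_ne (show j ≠ a from fun h => ha (h ▸ hj))]
      rw [this]; ring

lemma outc_total (m s : ℕ) (hs : s ≤ m) (A : ℕ → Multiset ℕ) (x : ℕ → ℕ) (j : ℕ) :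
    (btotal m A x).count j = outc m s A x j + (A s).count j := by
  unfold btotal outc
  rw [Multiset.count_add, Multiset.count_sum', Multiset.count_sum']
  rw [← Finset.add_sum_erase _ (fun k => (A k).count j)
    (Finset.mem_range.2 (show s < m + 1 by omega))]
  omega

/-- The small ratio theorem: if the plentiful sizes are pairwise commensurable with small
coefficients, it suffices to find a route in which the numbers of plentiful jumps are
arbitrary. -/
theorem sr_main {F : Finset ℕ} {t h : ℕ} (hF : F.card ≤ t) (h0 : 0 ∉ F)
    (B : Finset ℕ) (hB : ∀ j ∈ B, 0 < j)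
    (hex : ∀ p ∈ B, ∀ q ∈ B, ∃ c d, 1 ≤ c ∧ c ≤ h ∧ 1 ≤ d ∧ d ≤ h ∧ c * p = d * q)
    (J : Multiset ℕ) (hJ : ∀ j ∈ B, t + (t + 1) * h ≤ J.count j)
    (l : List ℕ) (hl : Av F 0 l) (hpos : ∀ z ∈ l, 0 < z) (hsum : l.sum = J.sum)
    (hrare : ∀ z, z ∉ B → l.count z = J.count z) :
    ∃ l' : List ℕ, (l' : Multiset ℕ) = J ∧ Av F 0 l' := by
  obtain ⟨m, A, x, h1, h2, h3, -⟩ := decompose F 0 h0 l hpos hl
  have hm : m ≤ t := h1.trans ((Finset.card_filter_le _ _).trans hF)
  have hApos : ∀ k ≤ m, ∀ z ∈ A k, 0 < z := by
    intro k hk z hz
    apply hpos z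
    have : z ∈ (l : Multiset ℕ) := by
      rw [h3, btotal, Multiset.mem_add]
      left
      rw [Multiset.mem_sum]
      exact ⟨k, Finset.mem_range.2 (by omega), hz⟩
    exact this
  have hxpos : ∀ k < m, 0 < x k := by
    intro k hk
    apply hpos (x k)
    have : x k ∈ (l : Multiset ℕ) := by
      rw [h3, btotal, Multiset.mem_add]
      right
      rw [Multiset.mem_sum]
      exact ⟨k, Finset.mem_range.2 hk, Multiset.mem_singleton_self _⟩
    exact this
  -- truncate A beyond m
  set A0 : ℕ → Multiset ℕ := fun k => if k ≤ m then A k else 0 with hA0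
  have hA0le : ∀ k ≤ m, A0 k = A k := fun k hk => by simp [hA0, hk]
  have hst0 : ∀ (A1 A2 : ℕ → Multiset ℕ), (∀ k ≤ m, (A1 k).sum = (A2 k).sum) → ∀ i ≤ m,
      bstart 0 A1 x i = bstart 0 A2 x i := by
    intro A1 A2 hh i hi
    unfold bstart
    congr 1
    apply Finset.sum_congr rfl
    intro k hk
    rw [Finset.mem_range] at hk
    rw [hh k (by omega)]
  have hA0pos : ∀ k, ∀ z ∈ A0 k, 0 < z := by
    intro k z hz
    by_cases hk : k ≤ m
    · rw [hA0le k hk] at hz; exact hApos k hk z hz
    · simp [hA0, hk] at hz
  have hfree0 : BFree F 0 m A0 x := by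
    intro i hi z hz1 hz2
    rw [hst0 A0 A (fun k hk => by rw [hA0le k hk]) i hi] at hz1 hz2
    rw [hA0le i hi] at hz2
    exact h2 i hi z hz1 hz2
  have h30 : (l : Multiset ℕ) = btotal m A0 x := by
    rw [h3, btotal, btotal]
    congr 1
    apply Finset.sum_congr rfl
    intro k hk
    rw [Finset.mem_range] at hk
    rw [hA0le k (by omega)]
  -- plentiful length
  have hfl : ((l : Multiset ℕ).filter (fun j => j ∉ B)) = J.filter (fun j => j ∉ B) := by
    ext z
    rw [Multiset.count_filter, Multiset.count_filter]
    by_cases hz : z ∈ B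
    · simp [hz]
    · rw [if_pos hz, if_pos hz, Multiset.coe_count]; exact hrare z hz
  have hplen : ∑ j ∈ B, j * (l : Multiset ℕ).count j = ∑ j ∈ B, j * J.count j := by
    have e1 := sum_count_mul B (l : Multiset ℕ)
    have e2 := sum_count_mul B J
    rw [hfl, Multiset.sum_coe, hsum] at e1
    omega
  -- the block with largest plentiful length
  obtain ⟨s, hs, hsmax⟩ : ∃ s ∈ Finset.range (m + 1), ∀ k ∈ Finset.range (m + 1),
      ∑ j ∈ B, j * (A0 k).count j ≤ ∑ j ∈ B, j * (A0 s).count j :=
    Finset.exists_max_image _ _ ⟨0, by simp⟩
  rw [Finset.mem_range] at hs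
  have hbig : h * ∑ j ∈ B, j ≤ ∑ j ∈ B, j * (A0 s).count j := by
    have e1 : ∑ j ∈ B, j * (l : Multiset ℕ).count j =
        ∑ k ∈ Finset.range (m + 1), ∑ j ∈ B, j * (A0 k).count j +
        ∑ j ∈ B, j * ∑ k ∈ Finset.range m, Multiset.count j {x k} := by
      rw [Finset.sum_comm, ← Finset.sum_add_distrib]
      apply Finset.sum_congr rfl
      intro j _
      rw [h30, btotal, Multiset.count_add, Multiset.count_sum', Multiset.count_sum', Nat.mul_add,
        Finset.mul_sum]
    have e2 : ∑ k ∈ Finset.range (m + 1), ∑ j ∈ B, j * (A0 k).count j ≤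
        (m + 1) * ∑ j ∈ B, j * (A0 s).count j := by
      have := Finset.sum_le_card_nsmul (Finset.range (m + 1))
        (fun k => ∑ j ∈ B, j * (A0 k).count j) _ hsmax
      rwa [Finset.card_range, smul_eq_mul] at this
    have e3 : ∑ j ∈ B, j * ∑ k ∈ Finset.range m, Multiset.count j {x k} ≤ ∑ j ∈ B, j * t := by
      apply Finset.sum_le_sum
      intro j _
      apply Nat.mul_le_mul_left
      have : ∑ k ∈ Finset.range m, Multiset.count j {x k} ≤ (Finset.range m).card • 1 := by
        apply Finset.sum_le_card_nsmul
        intro k _
        rw [Multiset.count_singleton]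
        split_ifs <;> omega
      rw [Finset.card_range, smul_eq_mul, Nat.mul_one] at this
      omega
    have e4 : ∑ j ∈ B, j * (t + (t + 1) * h) ≤ ∑ j ∈ B, j * J.count j := by
      apply Finset.sum_le_sum
      intro j hj
      exact Nat.mul_le_mul_left _ (hJ j hj)
    rw [← Finset.sum_mul] at e3 e4
    rw [e1] at hplen
    have e5 : (∑ j ∈ B, j) * ((t + 1) * h) ≤ (t + 1) * ∑ j ∈ B, j * (A0 s).count j := by
      have e6 : (m + 1) * ∑ j ∈ B, j * (A0 s).count j ≤
          (t + 1) * ∑ j ∈ B, j * (A0 s).count j := Nat.mul_le_mul_right _ (by omega)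
      rw [Nat.mul_add] at e4
      omega
    have e7 : (t + 1) * (h * ∑ j ∈ B, j) ≤ (t + 1) * ∑ j ∈ B, j * (A0 s).count j := by
      calc _ = (∑ j ∈ B, j) * ((t + 1) * h) := by ring
        _ ≤ _ := e5
    exact Nat.le_of_mul_le_mul_left e7 (by omega)
  have hbal : ∑ j ∈ B, j * (outc m s A0 x j + (A0 s).count j) = ∑ j ∈ B, j * J.count j := by
    rw [← hplen]
    apply Finset.sum_congr rfl
    intro j _
    rw [h30, outc_total m s (by omega)]
  obtain ⟨A', g1, g2, g3, g4, g5, g6⟩ := exch m s h (t + (t + 1) * h) (by omega) x B hB hex
    (fun j => J.count j) hJ (by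
      have : m * h ≤ (t + 1) * h := Nat.mul_le_mul_right _ (by omega)
      omega) _ A0 le_rfl hA0pos hbal hbig
  -- final replacement
  set R : Multiset ℕ := (A' s).filter (fun j => j ∉ B) +
    ∑ j ∈ B, Multiset.replicate (J.count j - outc m s A' x j) j with hR
  have hRcount : ∀ i, R.count i = if i ∈ B then J.count i - outc m s A' x i
      else (A' s).count i := by
    intro i
    rw [hR, Multiset.count_add, Multiset.count_sum', Multiset.count_filter]
    simp only [Multiset.count_replicate]
    by_cases hi : i ∈ B
    · rw [if_neg (by simpa using hi), if_pos hi, Finset.sum_ite_eq' B i]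
      simp [hi]
    · rw [if_pos hi, if_neg hi, Finset.sum_ite_eq' B i]
      simp [hi]
  have hRsum : R.sum = (A' s).sum := by
    rw [sum_count_mul B R, sum_count_mul B (A' s)]
    have e1 : R.filter (fun j => j ∉ B) = (A' s).filter (fun j => j ∉ B) := by
      ext i
      rw [Multiset.count_filter, Multiset.count_filter, hRcount]
      split_ifs <;> rfl
    rw [e1]
    congr 1
    have e2 : ∑ j ∈ B, j * R.count j = ∑ j ∈ B, j * (J.count j - outc m s A' x j) := by
      apply Finset.sum_congr rfl
      intro j hj
      rw [hRcount, if_pos hj]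
    rw [e2]
    have e3 : ∑ j ∈ B, j * (J.count j - outc m s A' x j) + ∑ j ∈ B, j * outc m s A' x j =
        ∑ j ∈ B, j * J.count j := by
      rw [← Finset.sum_add_distrib]
      apply Finset.sum_congr rfl
      intro j hj
      rw [← Nat.mul_add]
      congr 1
      have := g3 j hj
      omega
    have e4 : ∑ j ∈ B, j * (outc m s A' x j + (A' s).count j) =
        ∑ j ∈ B, j * outc m s A' x j + ∑ j ∈ B, j * (A' s).count j := by
      rw [← Finset.sum_add_distrib]
      apply Finset.sum_congr rfl
      intros; ring
    rw [e4] at g6
    omega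
  set A2 := Function.update A' s R with hA2
  have hA2sum : ∀ k, (A2 k).sum = (A' k).sum := by
    intro k
    by_cases hk : k = s
    · subst hk; rw [hA2, Function.update_self, hRsum]
    · rw [hA2, Function.update_of_ne hk]
  have hA2pos : ∀ k, ∀ z ∈ A2 k, 0 < z := by
    intro k z hz
    by_cases hk : k = s
    · subst hk
      rw [hA2, Function.update_self] at hz
      by_cases hzB : z ∈ B
      · exact hB z hzB
      · have : 0 < R.count z := Multiset.count_pos.2 hz
        rw [hRcount, if_neg hzB] at this
        exact g5 k z (Multiset.count_pos.1 this)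
    · rw [hA2, Function.update_of_ne hk] at hz
      exact g5 k z hz
  have hfree2 : BFree F 0 m A2 x := by
    intro i hi z hz1 hz2
    rw [hst0 A2 A0 (fun k hk => by rw [hA2sum, g1]) i hi] at hz1 hz2
    rw [hA2sum, g1] at hz2
    exact hfree0 i hi z hz1 hz2
  obtain ⟨l', hl'1, hl'2⟩ := recompose F 0 m A2 x hA2pos hfree2
  refine ⟨l', ?_, hl'2⟩
  rw [hl'1]
  ext i
  rw [outc_total m s (by omega)]
  have hout2 : outc m s A2 x i = outc m s A' x i := by
    unfold outc
    congr 1
    apply Finset.sum_congr rfl
    intro k hk
    rw [hA2, Function.update_of_ne (Finset.ne_of_mem_erase hk)]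
  rw [hout2, hA2, Function.update_self, hRcount]
  split_ifs with hi
  · have := g3 i hi
    omega
  · rw [← hrare i hi, ← Multiset.coe_count, h30, outc_total m s (by omega), g4 i hi s]
    congr 1
    unfold outc
    congr 1
    apply Finset.sum_congr rfl
    intro k hk
    rw [g4 i hi k]

end Pool.Agent.H628R2.Forb
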