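import Pool.Agent.KS6_49.L8.H628R2.Forb.Alg

set_option autoImplicit false

namespace Pool.Agent.H628R2.Forb

/-- every feasible schedule gives an order of the jobs and some idle blocks -/
lemma order_of_schedule {n : ℕ} (F : Finset ℕ) (p S : Fin n → ℕ) (hp : ∀ j, 0 < p j)
    (hF : ∀ j, S j ∉ F ∧ S j + p j ∉ F)
    (hd : ∀ i j, i ≠ j → S i + p i ≤ S j ∨ S j + p j ≤ S i) :
    ∀ (m : ℕ) (A : Finset (Fin n)), A.card = m → ∀ y, y ∉ F → (∀ j ∈ A, y ≤ S j) →
    ∃ l Z : List ℕ, (l : Multiset ℕ) = A.val.map p + (Z : Multiset ℕ) ∧ (∀ z ∈ Z, 0 < z) ∧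
      Av F y l ∧ y + l.sum = max y (A.sup (fun j => S j + p j)) := by
  intro m
  induction m with
  | zero =>
    intro A hA y hy _
    rw [Finset.card_eq_zero] at hA
    subst hA
    exact ⟨[], [], by simp, by simp, by simp, by simp⟩
  | succ m ih =>
    intro A hA y hy hyA
    have hne : A.Nonempty := by rw [← Finset.card_pos]; omega
    obtain ⟨j, hj, hmin⟩ := Finset.exists_min_image A S hne
    have hrest : ∀ i ∈ A.erase j, S j + p j ≤ S i := by
      intro i hi
      rw [Finset.mem_erase] at hi
      have h1 := hmin i hi.2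
      have h2 := hp i
      rcases hd i j hi.1 with h | h
      · omega
      · exact h
    obtain ⟨l, Z, h1, h2, h3, h4⟩ := ih (A.erase j) (by rw [Finset.card_erase_of_mem hj]; omega)
      (S j + p j) (hF j).2 hrest
    have hval : A.val.map p = p j ::ₘ (A.erase j).val.map p := by
      rw [← Multiset.map_cons, Finset.erase_val, Multiset.cons_erase (by simpa using hj)]
    have hsup : A.sup (fun j => S j + p j) =
        max (S j + p j) ((A.erase j).sup (fun j => S j + p j)) := by
      conv_lhs => rw [← Finset.insert_erase hj, Finset.sup_insert]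
    have hyj := hyA j hj
    have hmax : max y (A.sup (fun j => S j + p j)) = S j + p j + l.sum := by
      rw [h4, hsup]
      have : y ≤ max (S j + p j) ((A.erase j).sup (fun j => S j + p j)) :=
        le_trans (by omega) (le_max_left _ _)
      exact max_eq_right this
    rw [hmax]
    rcases Nat.eq_or_lt_of_le hyj with he | hlt
    · refine ⟨p j :: l, Z, ?_, h2, ?_, ?_⟩
      · rw [hval, Multiset.cons_add, ← h1]; rfl
      · rw [Av_cons, he]; exact ⟨(hF j).2, h3⟩
      · rw [List.sum_cons, he]; omega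
    · have e1 : y + (S j - y) = S j := by omega
      refine ⟨(S j - y) :: p j :: l, (S j - y) :: Z, ?_, ?_, ?_, ?_⟩
      · rw [hval, ← Multiset.cons_coe, ← Multiset.cons_coe, ← Multiset.cons_coe, h1,
          Multiset.cons_add, Multiset.add_cons, Multiset.cons_swap]
      · intro z hz
        rcases List.mem_cons.1 hz with rfl | hz
        · omega
        · exact h2 z hz
      · rw [Av_cons, Av_cons, e1]; exact ⟨(hF j).1, (hF j).2, h3⟩
      · rw [List.sum_cons, List.sum_cons]; omega

theorem sched_opt (p F : List ℕ) (hp : ∀ x ∈ p, 0 < x) :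
    ∃ S : Fin p.length → ℕ, List.ofFn S = sched p F ∧
      ((∀ j, S j ∉ F ∧ S j + p[j] ∉ F) ∧
        (∀ i j, i ≠ j → S i + p[i] ≤ S j ∨ S j + p[j] ≤ S i)) ∧
      ∀ S' : Fin p.length → ℕ, (∀ j, S' j ∉ F ∧ S' j + p[j] ∉ F) →
        (∀ i j, i ≠ j → S' i + p[i] ≤ S' j ∨ S' j + p[j] ≤ S' i) →
        Finset.univ.sup (fun j => S j + p[j]) ≤ Finset.univ.sup (fun j => S' j + p[j]) := by
  obtain ⟨h1, h2, h3⟩ := runW_spec (F := F) hp
  refine ⟨fun j => lookup (runW p F) j, ?_, ⟨?_, ?_⟩, ?_⟩
  · rw [sched]
    apply List.ext_getElem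
    · simp
    · intro i h4 h5
      simp
  · intro j
    obtain ⟨s, hs1, hs2⟩ := h1 j j.2
    obtain ⟨g1, g2, -⟩ := h2 _ hs1
    simp only at g1 g2
    simp only [hs2]
    exact ⟨g1, g2⟩
  · intro i j hij
    obtain ⟨s, hs1, hs2⟩ := h1 i i.2
    obtain ⟨s', hs1', hs2'⟩ := h1 j j.2
    simp only [hs2, hs2']
    haveI : Std.Symm Sep := ⟨fun a b h => h.symm⟩
    have := h3.forall hs1 hs1' (by
      intro h
      apply hij
      apply Fin.ext
      exact congrArg (fun e : (ℕ × ℕ) × ℕ => e.1.2) h)
    exact this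
  · intro S' hF' hd'
    by_cases hpn : p.length = 0
    · have : IsEmpty (Fin p.length) := by rw [hpn]; infer_instance
      rw [Finset.univ_eq_empty]
      simp
    · obtain ⟨hs0, hs1⟩ := fst0_spec F
      obtain ⟨l, Z, g1, g2, g3, g4⟩ := order_of_schedule F.toFinset (fun j : Fin p.length => p[j]) S'
        (fun j => hp _ (List.getElem_mem _)) (by simpa using hF') hd' _ Finset.univ rfl (fst0 F)
        (by simpa using hs0) (fun j _ => hs1 _ (hF' j).1)
      have hmap : (Finset.univ : Finset (Fin p.length)).val.map (fun j => p[j]) =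
          (p : Multiset ℕ) := by
        rw [Fin.univ_val_map]
        congr 1
        exact List.ofFn_getElem
      rw [hmap, Multiset.coe_add, Multiset.coe_eq_coe] at g1
      obtain ⟨-, -, hopt⟩ := goodZ_spec (F := F) hp
      have h6 := hopt Z l g2 g1 g3
      have h7 : l.sum = p.sum + Z.sum := by rw [g1.sum_eq, List.sum_append]
      have h8 : max (fst0 F) (Finset.univ.sup (fun j : Fin p.length => S' j + p[j])) =
          Finset.univ.sup (fun j : Fin p.length => S' j + p[j]) := by
        apply max_eq_right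
        have j0 : Fin p.length := ⟨0, by omega⟩
        have := Finset.le_sup (f := fun j : Fin p.length => S' j + p[j]) (Finset.mem_univ j0)
        have := hs1 _ (hF' j0).1
        omega
      rw [h8] at g4
      apply Finset.sup_le
      intro j _
      obtain ⟨s, hs1, hs2⟩ := h1 j j.2
      obtain ⟨-, -, k3⟩ := h2 _ hs1
      simp only at k3
      simp only [hs2]
      refine le_trans k3 ?_
      omega

end Pool.Agent.H628R2.Forb
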